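import Pool.Agent.FX.Stm

/-!
# MP_07b392_co, project FX, row B1: counting edges inside and between finite sets
-/

set_option autoImplicit false

namespace Pool.Agent.FX

open Classical

universe u

variable {V : Type u}

theorem bas_dg_eq (G : SimpleGraph V) (X : Finset V) (x : V) :
    dg G X x = ∑ y ∈ X, if G.Adj x y then 1 else 0 := by
  unfold dg nb
  rw [Finset.card_filter]

theorem bas_split (G : SimpleGraph V) (X A : Finset V) (x : V) (h : A ⊆ X) :
    dg G X x = dg G A x + dg G (X \ A) x := by
  rw [bas_dg_eq, bas_dg_eq, bas_dg_eq, add_comm, Finset.sum_sdiff h]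

theorem bas_swap (G : SimpleGraph V) (A B : Finset V) :
    ∑ x ∈ A, dg G B x = ∑ x ∈ B, dg G A x := by
  simp only [bas_dg_eq]
  rw [Finset.sum_comm]
  refine Finset.sum_congr rfl fun y _ => Finset.sum_congr rfl fun x _ => ?_
  rw [G.adj_comm x y]

theorem bas_e2_split (G : SimpleGraph V) (X A : Finset V) (h : A ⊆ X) :
    e2 G X = e2 G A + e2 G (X \ A) + 2 * ∑ x ∈ A, dg G (X \ A) x := by
  have h1 : e2 G X = ∑ x ∈ X \ A, dg G X x + ∑ x ∈ A, dg G X x := by
    unfold e2
    exact (Finset.sum_sdiff h).symm
  have h2 : ∑ x ∈ A, dg G X x = e2 G A + ∑ x ∈ A, dg G (X \ A) x := by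
    unfold e2
    rw [← Finset.sum_add_distrib]
    exact Finset.sum_congr rfl fun x _ => bas_split G X A x h
  have h3 : ∑ x ∈ X \ A, dg G X x = ∑ x ∈ X \ A, dg G A x + e2 G (X \ A) := by
    unfold e2
    rw [← Finset.sum_add_distrib]
    exact Finset.sum_congr rfl fun x _ => bas_split G X A x h
  have h4 := bas_swap G A (X \ A)
  omega

theorem bas_dg_singleton (G : SimpleGraph V) (v : V) : dg G {v} v = 0 := by
  rw [bas_dg_eq]
  simp

theorem bas_insert (G : SimpleGraph V) (X : Finset V) (v : V) (hv : v ∉ X) :
    e2 G (insert v X) = e2 G X + 2 * dg G X v := by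
  have hs : ({v} : Finset V) ⊆ insert v X := by
    intro y hy
    rw [Finset.mem_singleton] at hy
    rw [hy]
    exact Finset.mem_insert_self v X
  have hd : insert v X \ {v} = X := by
    ext y
    rw [Finset.mem_sdiff, Finset.mem_insert, Finset.mem_singleton]
    constructor
    · rintro ⟨h1, h2⟩
      rcases h1 with h1 | h1
      · exact absurd h1 h2
      · exact h1
    · intro hy
      exact ⟨Or.inr hy, fun h => hv (h ▸ hy)⟩
  have h := bas_e2_split G (insert v X) {v} hs
  rw [hd, Finset.sum_singleton] at h
  have h0 : e2 G {v} = 0 := by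
    unfold e2
    rw [Finset.sum_singleton]
    exact bas_dg_singleton G v
  omega

theorem bas_even (G : SimpleGraph V) (X : Finset V) : Even (e2 G X) := by
  induction X using Finset.induction_on with
  | empty => exact ⟨0, by unfold e2; simp⟩
  | insert v X hv ih =>
    rw [bas_insert G X v hv]
    exact ih.add (even_two_mul _)

theorem bas : SBas.{u} := by
  intro V G
  exact ⟨bas_even G, bas_insert G, fun X A h => bas_e2_split G X A h,
    fun X A _ => bas_swap G A (X \ A), fun X A x h => bas_split G X A x h⟩

end Pool.Agent.FX
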