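import Pool.Agent.FX.Stm

/-!
# MP_07b392_co, project FX: basic counting (row B1)
-/

set_option autoImplicit false

namespace Pool.Agent.FX

open Classical

universe u

variable {V : Type u}

theorem b84_dg (G : SimpleGraph V) (X : Finset V) (x : V) :
    dg G X x = ∑ y ∈ X, if G.Adj x y then 1 else 0 := by
  unfold dg nb
  rw [Finset.card_filter]

theorem b84_split (G : SimpleGraph V) (X A : Finset V) (x : V) (h : A ⊆ X) :
    dg G X x = dg G A x + dg G (X \ A) x := by
  rw [b84_dg, b84_dg, b84_dg, add_comm]
  exact (Finset.sum_sdiff h).symm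

theorem b84_comm (G : SimpleGraph V) (A B : Finset V) :
    ∑ x ∈ A, dg G B x = ∑ x ∈ B, dg G A x := by
  simp only [b84_dg]
  rw [Finset.sum_comm]
  apply Finset.sum_congr rfl
  intro x _
  apply Finset.sum_congr rfl
  intro y _
  rw [G.adj_comm]

theorem b84_three (G : SimpleGraph V) (X A : Finset V) (h : A ⊆ X) :
    e2 G X = e2 G A + e2 G (X \ A) + 2 * ∑ x ∈ A, dg G (X \ A) x := by
  have h1 : e2 G X = ∑ x ∈ X \ A, dg G X x + ∑ x ∈ A, dg G X x := (Finset.sum_sdiff h).symm
  have h2 : ∑ x ∈ A, dg G X x = e2 G A + ∑ x ∈ A, dg G (X \ A) x := by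
    unfold e2
    rw [← Finset.sum_add_distrib]
    exact Finset.sum_congr rfl fun x _ => b84_split G X A x h
  have h3 : ∑ x ∈ X \ A, dg G X x = ∑ x ∈ X \ A, dg G A x + e2 G (X \ A) := by
    unfold e2
    rw [← Finset.sum_add_distrib]
    exact Finset.sum_congr rfl fun x _ => b84_split G X A x h
  have h4 := b84_comm G A (X \ A)
  omega

theorem b84_two (G : SimpleGraph V) (X : Finset V) (v : V) (h : v ∉ X) :
    e2 G (insert v X) = e2 G X + 2 * dg G X v := by
  have h1 := b84_three G (insert v X) X (Finset.subset_insert v X)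
  have h2 : insert v X \ X = {v} := by
    ext y
    simp only [Finset.mem_sdiff, Finset.mem_insert, Finset.mem_singleton]
    constructor
    · rintro ⟨h3 | h3, h4⟩
      · exact h3
      · exact absurd h3 h4
    · rintro rfl
      exact ⟨Or.inl rfl, h⟩
  rw [h2] at h1
  have h3 : e2 G {v} = 0 := by
    unfold e2
    rw [Finset.sum_singleton, b84_dg, Finset.sum_singleton, if_neg G.irrefl]
  have h4 : ∑ x ∈ X, dg G {v} x = dg G X v := by
    rw [b84_comm, Finset.sum_singleton]
  rw [h3, h4] at h1
  omega

theorem bas84 : SBas.{u} := by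
  intro V G
  refine ⟨?_, b84_two G, b84_three G, fun X A _ => b84_comm G A (X \ A),
    fun X A x h => b84_split G X A x h⟩
  intro X
  induction X using Finset.induction_on with
  | empty =>
    unfold e2
    rw [Finset.sum_empty]
    exact Even.zero
  | insert v X hv ih =>
    rw [b84_two G X v hv]
    exact ih.add (even_two_mul _)

end Pool.Agent.FX
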