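import Pool.Agent.FX.Stm

/-!
# MP_07b392_co, project FX, row P2: a bridge has the same face on both sides
-/

set_option autoImplicit false

namespace Pool.Agent.FX

open Classical
open Pool.Agent.H41.Fire (IsPlanar Rotation cycles rev)

universe u

/-- the next dart of a face starts where the dart ends -/
theorem bri_fst {V : Type u} {G : SimpleGraph V} (R : Rotation G) (x : G.Dart) :
    (R.face x).fst = x.snd := by
  have h : R.face x = R.nxt x.symm := rfl
  rw [h, R.fst_nxt]
  rfl

/-- without a common face the iterates of `d` stay on the other side of the bridge -/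
theorem bri_step {V : Type u} {G : SimpleGraph V} (R : Rotation G) (d : G.Dart)
    (hn : ¬ (G.deleteEdges {d.edge}).Reachable d.fst d.snd)
    (hs : ¬ R.face.SameCycle d d.symm) (k : ℕ) :
    ¬ (G.deleteEdges {d.edge}).Reachable d.fst ((R.face ^ (k + 1)) d).fst := by
  induction k with
  | zero =>
    rw [zero_add, pow_one, bri_fst]
    exact hn
  | succ k ih =>
    intro hr
    have h1 : (R.face ^ (k + 1 + 1)) d = R.face ((R.face ^ (k + 1)) d) := by
      rw [pow_succ', Equiv.Perm.mul_apply]
    rw [h1, bri_fst] at hr
    by_cases he : ((R.face ^ (k + 1)) d).edge = d.edge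
    · rcases (SimpleGraph.dart_edge_eq_iff _ _).1 he with h2 | h2
      · apply ih
        rw [h2]
      · apply hs
        refine ⟨((k + 1 : ℕ) : ℤ), ?_⟩
        rw [zpow_natCast]
        exact h2
    · apply ih
      refine hr.trans ?_
      apply SimpleGraph.Adj.reachable
      rw [SimpleGraph.deleteEdges_adj]
      refine ⟨((R.face ^ (k + 1)) d).adj.symm, ?_⟩
      intro h3
      apply he
      rw [Set.mem_singleton_iff] at h3
      rw [← h3, Sym2.eq_swap]
      rfl

/-- P2: a bridge has the same face on both sides -/
theorem bri : SBri.{u} := by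
  intro V _ G R d hn
  by_contra hs
  have ho : 0 < orderOf R.face := orderOf_pos R.face
  have h := bri_step R d hn hs (orderOf R.face - 1)
  rw [Nat.sub_add_cancel ho, pow_orderOf_eq_one] at h
  exact h (SimpleGraph.Reachable.refl _)

end Pool.Agent.FX
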