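import Pool.Agent.FX.Stm

/-!
# MP_07b392_co, project FX, row P3: components after the deletion of one edge
-/

set_option autoImplicit false

namespace Pool.Agent.FX

open Classical

universe u

variable {V : Type u}

theorem com_adj (G : SimpleGraph V) (d : G.Dart) {x y : V} (h : G.Adj x y) :
    (G.deleteEdges {d.edge}).Adj x y ∨ (x = d.fst ∧ y = d.snd) ∨ (x = d.snd ∧ y = d.fst) := by
  by_cases he : s(x, y) = d.edge
  · right
    have h2 : s(x, y) = s(d.fst, d.snd) := he
    rw [Sym2.eq_iff] at h2
    exact h2
  · left
    rw [SimpleGraph.deleteEdges_adj]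
    exact ⟨h, he⟩

/-- `x` reaches an end of `d` after the deletion -/
def ComR (G : SimpleGraph V) (d : G.Dart) (x : V) : Prop :=
  (G.deleteEdges {d.edge}).Reachable x d.fst ∨ (G.deleteEdges {d.edge}).Reachable x d.snd

theorem com_step (G : SimpleGraph V) (d : G.Dart) {x y : V} (h : G.Reachable x y) :
    (G.deleteEdges {d.edge}).Reachable x y ∨ (ComR G d x ∧ ComR G d y) := by
  obtain ⟨p⟩ := h
  induction p with
  | nil => exact Or.inl (SimpleGraph.Reachable.refl _)
  | @cons a b c hab q ih =>
    rcases com_adj G d hab with h1 | ⟨h1, h2⟩ | ⟨h1, h2⟩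
    · have h3 : (G.deleteEdges {d.edge}).Reachable a b := h1.reachable
      rcases ih with h4 | ⟨h4, h5⟩
      · exact Or.inl (h3.trans h4)
      · refine Or.inr ⟨?_, h5⟩
        rcases h4 with h4 | h4
        · exact Or.inl (h3.trans h4)
        · exact Or.inr (h3.trans h4)
    · right
      subst h1
      subst h2
      refine ⟨Or.inl (SimpleGraph.Reachable.refl _), ?_⟩
      rcases ih with h4 | ⟨h4, h5⟩
      · exact Or.inr h4.symm
      · exact h5
    · right
      subst h1
      subst h2
      refine ⟨Or.inr (SimpleGraph.Reachable.refl _), ?_⟩
      rcases ih with h4 | ⟨h4, h5⟩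
      · exact Or.inl h4.symm
      · exact h5

/-- the image of a component -/
noncomputable def comMap (G : SimpleGraph V) (d : G.Dart) :
    (G.deleteEdges {d.edge}).ConnectedComponent → G.ConnectedComponent :=
  SimpleGraph.ConnectedComponent.map (SimpleGraph.Hom.ofLE (G.deleteEdges_le {d.edge}))

theorem comMap_mk (G : SimpleGraph V) (d : G.Dart) (x : V) :
    comMap G d ((G.deleteEdges {d.edge}).connectedComponentMk x) = G.connectedComponentMk x := rfl

theorem com : SCom.{u} := by
  intro V _ G d
  have hfin : Finite G.ConnectedComponent := inferInstance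
  constructor
  · have hinj : Function.Injective
        (fun c : (G.deleteEdges {d.edge}).ConnectedComponent =>
          if c = (G.deleteEdges {d.edge}).connectedComponentMk d.snd then none
          else some (comMap G d c)) := by
      intro c1 c2 h
      dsimp only at h
      split_ifs at h with h1 h2 h2
      · rw [h1, h2]
      · revert h h1 h2
        refine SimpleGraph.ConnectedComponent.ind₂ (fun x y => ?_) c1 c2
        intro h1 h2 h
        rw [Option.some_inj, comMap_mk, comMap_mk, SimpleGraph.ConnectedComponent.eq] at h
        rw [SimpleGraph.ConnectedComponent.eq] at h1 h2 ⊢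
        rcases com_step G d h with h3 | ⟨h3, h4⟩
        · exact h3
        · rcases h3 with h3 | h3
          · rcases h4 with h4 | h4
            · exact h3.trans h4.symm
            · exact absurd h4 h2
          · exact absurd h3 h1
    have h2 := Nat.card_le_card_of_injective _ hinj
    rwa [Finite.card_option] at h2
  · intro hr
    refine Nat.card_le_card_of_injective (comMap G d) ?_
    intro c1 c2
    refine SimpleGraph.ConnectedComponent.ind₂ (fun x y => ?_) c1 c2
    intro h
    rw [comMap_mk, comMap_mk, SimpleGraph.ConnectedComponent.eq] at h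
    rw [SimpleGraph.ConnectedComponent.eq]
    have key : ∀ z, ComR G d z → (G.deleteEdges {d.edge}).Reachable z d.fst := by
      intro z hz
      rcases hz with hz | hz
      · exact hz
      · exact hz.trans hr.symm
    rcases com_step G d h with h3 | ⟨h3, h4⟩
    · exact h3
    · exact (key x h3).trans (key y h4).symm

end Pool.Agent.FX
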