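import Pool.Agent.FX.Stm

/-!
# Project FX (MP_07b392_co), row C1: critical sets
-/

set_option autoImplicit false

namespace Pool.Agent.FX

open Classical

universe u v

theorem crt_mono {V : Type u} {C : Type v} {G : SimpleGraph V} {L : V → Finset C}
    {X Y : Finset V} (h : Y ⊆ X) : Col G L X → Col G L Y := by
  rintro ⟨φ, h1, h2⟩
  exact ⟨φ, fun x hx => h1 x (h hx), fun x hx y hy => h2 x (h hx) y (h hy)⟩

theorem crt_sub {V : Type u} {C : Type v} {G : SimpleGraph V} {L : V → Finset C}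
    {Y : Finset V} (hm : ∀ x ∈ Y, Col G L (Y.erase x)) {A : Finset V} (hA : A ⊆ Y)
    (hne : A ≠ Y) : Col G L A := by
  obtain ⟨x, hxY, hxA⟩ := Finset.exists_of_ssubset (Finset.ssubset_iff_subset_ne.mpr ⟨hA, hne⟩)
  refine crt_mono (fun a ha => Finset.mem_erase.mpr ⟨?_, hA ha⟩) (hm x hxY)
  intro h
  rw [h] at ha
  exact hxA ha

theorem crt_deg {V : Type u} {C : Type v} {G : SimpleGraph V} {L : V → Finset C}
    {Y : Finset V} {x : V} (hc : Col G L (Y.erase x)) (h : dg G Y x < (L x).card) :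
    Col G L Y := by
  obtain ⟨φ, h1, h2⟩ := hc
  obtain ⟨c, hc, hcn⟩ : ∃ c ∈ L x, c ∉ (nb G Y x).image φ :=
    Finset.exists_mem_notMem_of_card_lt_card (lt_of_le_of_lt Finset.card_image_le h)
  have hk : ∀ y ∈ Y, G.Adj x y → c ≠ φ y := by
    intro y hy hxy he
    apply hcn
    rw [he]
    exact Finset.mem_image_of_mem φ (Finset.mem_filter.mpr ⟨hy, hxy⟩)
  refine ⟨Function.update φ x c, ?_, ?_⟩
  · intro y hy
    by_cases hyx : y = x
    · rw [hyx, Function.update_self]
      exact hc
    · rw [Function.update_of_ne hyx]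
      exact h1 y (Finset.mem_erase.mpr ⟨hyx, hy⟩)
  · intro y hy z hz hyz
    by_cases hyx : y = x
    · have hzx : z ≠ x := by
        intro h
        rw [hyx, h] at hyz
        exact hyz.ne rfl
      rw [hyx, Function.update_self, Function.update_of_ne hzx]
      rw [hyx] at hyz
      exact hk z hz hyz
    · by_cases hzx : z = x
      · rw [hzx, Function.update_self, Function.update_of_ne hyx]
        rw [hzx] at hyz
        exact (hk y hy hyz.symm).symm
      · rw [Function.update_of_ne hyx, Function.update_of_ne hzx]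
        exact h2 y (Finset.mem_erase.mpr ⟨hyx, hy⟩) z (Finset.mem_erase.mpr ⟨hzx, hz⟩) hyz

theorem crt_join {V : Type u} {C : Type v} {G : SimpleGraph V} {L : V → Finset C}
    {Y A : Finset V} (h1 : Col G L A) (h2 : Col G L (Y \ A))
    (hn : ∀ a ∈ A, ∀ b ∈ Y \ A, ¬ G.Adj a b) : Col G L Y := by
  obtain ⟨φ, a1, a2⟩ := h1
  obtain ⟨ψ, b1, b2⟩ := h2
  refine ⟨fun x => if x ∈ A then φ x else ψ x, ?_, ?_⟩
  · intro x hx
    show (if x ∈ A then φ x else ψ x) ∈ L x
    by_cases h : x ∈ A
    · rw [if_pos h]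
      exact a1 x h
    · rw [if_neg h]
      exact b1 x (Finset.mem_sdiff.mpr ⟨hx, h⟩)
  · intro x hx y hy hxy
    show (if x ∈ A then φ x else ψ x) ≠ (if y ∈ A then φ y else ψ y)
    by_cases h : x ∈ A
    · by_cases h' : y ∈ A
      · rw [if_pos h, if_pos h']
        exact a2 x h y h' hxy
      · exact absurd hxy (hn x h y (Finset.mem_sdiff.mpr ⟨hy, h'⟩))
    · by_cases h' : y ∈ A
      · exact absurd hxy.symm (hn y h' x (Finset.mem_sdiff.mpr ⟨hx, h⟩))
      · rw [if_neg h, if_neg h']
        exact b2 x (Finset.mem_sdiff.mpr ⟨hx, h⟩) y (Finset.mem_sdiff.mpr ⟨hy, h'⟩) hxy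

/-- C1: critical sets -/
theorem crit : SCrit.{u, v} := by
  intro V C hC G L
  refine ⟨?_, fun X Y h => crt_mono h, ?_⟩
  · intro X
    induction X using Finset.strongInduction with
    | H X ih =>
      intro hX
      by_cases h : ∀ x ∈ X, Col G L (X.erase x)
      · exact ⟨X, Finset.Subset.refl X, hX, h⟩
      · rw [not_forall] at h
        obtain ⟨x, h⟩ := h
        rw [Classical.not_imp] at h
        obtain ⟨hx, hc⟩ := h
        obtain ⟨Y, hY, hc'⟩ := ih (X.erase x) (Finset.erase_ssubset hx) hc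
        exact ⟨Y, hY.trans (Finset.erase_subset _ _), hc'⟩
  · rintro Y ⟨hY, hm⟩
    have hne : Y.Nonempty := by
      rw [Finset.nonempty_iff_ne_empty]
      intro h0
      apply hY
      rw [h0]
      obtain ⟨c⟩ := hC
      exact ⟨fun _ => c, fun x hx => absurd hx (Finset.notMem_empty x),
        fun x hx => absurd hx (Finset.notMem_empty x)⟩
    refine ⟨hne, ⟨hne, ?_⟩, ?_, fun A hA hAne => crt_sub hm hA hAne⟩
    · intro A hA hAn hAY
      by_contra hcon
      have hn : ∀ a ∈ A, ∀ b ∈ Y \ A, ¬ G.Adj a b :=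
        fun a ha b hb hab => hcon ⟨a, ha, b, hb, hab⟩
      refine hY (crt_join (crt_sub hm hA hAY) (crt_sub hm Finset.sdiff_subset ?_) hn)
      intro he
      obtain ⟨a, ha⟩ := hAn
      have : a ∈ Y \ A := by
        rw [he]
        exact hA ha
      exact (Finset.mem_sdiff.mp this).2 ha
    · intro x hx
      by_contra hlt
      exact hY (crt_deg (hm x hx) (not_le.mp hlt))

end Pool.Agent.FX
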