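import Pool.Agent.FX.StmG

/-!
# MP_07b392_co, project FX, row G4: cycles and connectivity of Mathlib
-/

set_option autoImplicit false

namespace Pool.Agent.FX

open Classical
open SimpleGraph (Walk)

universe u

theorem cycg_tri {V : Type u} {G : SimpleGraph V} (h : 5 ≤ G.egirth) (a b c : V)
    (hab : G.Adj a b) (hbc : G.Adj b c) : ¬ G.Adj c a := by
  intro hca
  have hc : (Walk.cons hab (Walk.cons hbc (Walk.cons hca Walk.nil))).IsCycle := by
    rw [Walk.cons_isCycle_iff]
    refine ⟨?_, ?_⟩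
    · rw [Walk.cons_isPath_iff, Walk.cons_isPath_iff]
      refine ⟨⟨Walk.IsPath.nil, ?_⟩, ?_⟩
      · simpa using hca.ne
      · simp only [Walk.support_cons, Walk.support_nil, List.mem_cons, List.not_mem_nil,
          or_false, not_or]
        exact ⟨hbc.ne, hab.ne'⟩
    · simp only [Walk.edges_cons, Walk.edges_nil, List.mem_cons, List.not_mem_nil, or_false,
        not_or, Sym2.eq_iff]
      refine ⟨?_, ?_⟩
      · exact ⟨fun h => hab.ne h.1, fun h => hca.ne h.1.symm⟩
      · exact ⟨fun h => hca.ne h.1.symm, fun h => hbc.ne h.2⟩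
  have h1 := h.trans (SimpleGraph.egirth_le_length hc)
  have h2 : (Walk.cons hab (Walk.cons hbc (Walk.cons hca Walk.nil))).length = 3 := rfl
  rw [h2] at h1
  exact absurd h1 (by decide)

theorem cycg_four {V : Type u} {G : SimpleGraph V} (h : 5 ≤ G.egirth) (a b c d : V)
    (hac : a ≠ c) (hbd : b ≠ d) (hab : G.Adj a b) (hbc : G.Adj b c) (hcd : G.Adj c d) :
    ¬ G.Adj d a := by
  intro hda
  have hc : (Walk.cons hab (Walk.cons hbc (Walk.cons hcd (Walk.cons hda Walk.nil)))).IsCycle := by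
    rw [Walk.cons_isCycle_iff]
    refine ⟨?_, ?_⟩
    · rw [Walk.cons_isPath_iff, Walk.cons_isPath_iff, Walk.cons_isPath_iff]
      refine ⟨⟨⟨Walk.IsPath.nil, ?_⟩, ?_⟩, ?_⟩
      · simpa using hda.ne
      · simp only [Walk.support_cons, Walk.support_nil, List.mem_cons, List.not_mem_nil,
          or_false, not_or]
        exact ⟨hcd.ne, hac.symm⟩
      · simp only [Walk.support_cons, Walk.support_nil, List.mem_cons, List.not_mem_nil,
          or_false, not_or]
        exact ⟨hbc.ne, hbd, hab.ne'⟩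
    · simp only [Walk.edges_cons, Walk.edges_nil, List.mem_cons, List.not_mem_nil, or_false,
        not_or, Sym2.eq_iff]
      refine ⟨?_, ?_, ?_⟩
      · exact ⟨fun h => hab.ne h.1, fun h => hac h.1⟩
      · exact ⟨fun h => hac h.1, fun h => hda.ne h.1.symm⟩
      · exact ⟨fun h => hda.ne h.1.symm, fun h => hbd h.2⟩
  have h1 := h.trans (SimpleGraph.egirth_le_length hc)
  have h2 : (Walk.cons hab (Walk.cons hbc (Walk.cons hcd (Walk.cons hda Walk.nil)))).length = 4 :=
    rfl
  rw [h2] at h1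
  exact absurd h1 (by decide)

/-- the degree of the first vertex of a 5-cycle -/
theorem cycg_dg {V : Type u} {G : SimpleGraph V} (hG : G5 G) {a b c d e : V} {P : Finset V}
    (hP : ∀ x, x ∈ P ↔ x = a ∨ x = b ∨ x = c ∨ x = d ∨ x = e) (hbe : b ≠ e)
    (hab : G.Adj a b) (hbc : G.Adj b c) (hde : G.Adj d e) (hea : G.Adj e a) :
    dg G P a = 2 := by
  have h1 : nb G P a = {b, e} := by
    ext x
    unfold nb
    rw [Finset.mem_filter, Finset.mem_insert, Finset.mem_singleton, hP]
    constructor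
    · rintro ⟨rfl | rfl | rfl | rfl | rfl, hx⟩
      · exact absurd hx (G.loopless.irrefl _)
      · exact Or.inl rfl
      · exact absurd hx.symm (hG.1 a b _ hab hbc)
      · exact absurd hde (fun h' => hG.1 a _ e hx h' hea)
      · exact Or.inr rfl
    · rintro (rfl | rfl)
      · exact ⟨Or.inr (Or.inl rfl), hab⟩
      · exact ⟨Or.inr (Or.inr (Or.inr (Or.inr rfl))), hea.symm⟩
  unfold dg
  rw [h1, Finset.card_pair hbe]

theorem cycg_pe {V : Type u} {G : SimpleGraph V} (hG : G5 G) {a b c d e : V} {P : Finset V}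
    (hP : ∀ x, x ∈ P ↔ x = a ∨ x = b ∨ x = c ∨ x = d ∨ x = e)
    (hac : a ≠ c) (had : a ≠ d) (hbd : b ≠ d) (hbe : b ≠ e) (hce : c ≠ e)
    (hab : G.Adj a b) (hbc : G.Adj b c) (hcd : G.Adj c d) (hde : G.Adj d e) (hea : G.Adj e a) :
    Pe G P := by
  have hP' : P = {a, b, c, d, e} := by
    ext x
    rw [hP]
    simp
  refine ⟨?_, ?_⟩
  · rw [hP', Finset.card_insert_of_notMem, Finset.card_insert_of_notMem,
      Finset.card_insert_of_notMem, Finset.card_pair hde.ne]
    · simp only [Finset.mem_insert, Finset.mem_singleton, not_or]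
      exact ⟨hcd.ne, hce⟩
    · simp only [Finset.mem_insert, Finset.mem_singleton, not_or]
      exact ⟨hbc.ne, hbd, hbe⟩
    · simp only [Finset.mem_insert, Finset.mem_singleton, not_or]
      exact ⟨hab.ne, hac, had, hea.ne'⟩
  · intro x hx
    rw [hP] at hx
    rcases hx with rfl | rfl | rfl | rfl | rfl
    · exact cycg_dg hG hP hbe hab hbc hde hea
    · exact cycg_dg hG (a := x) (b := c) (c := d) (d := e) (e := a)
        (fun y => by rw [hP]; tauto) hac.symm hbc hcd hea hab
    · exact cycg_dg hG (a := x) (b := d) (c := e) (d := a) (e := b)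
        (fun y => by rw [hP]; tauto) hbd.symm hcd hde hab hbc
    · exact cycg_dg hG (a := x) (b := e) (c := a) (d := b) (e := c)
        (fun y => by rw [hP]; tauto) hce.symm hde hea hbc hcd
    · exact cycg_dg hG (a := x) (b := a) (c := b) (d := c) (e := d)
        (fun y => by rw [hP]; tauto) had hea hab hcd hde

theorem cycg_five_pe {V : Type u} {G : SimpleGraph V} (hG : G5 G) (P : Finset V)
    (h : Five G P) : Pe G P := by
  obtain ⟨a, p, hc, hl, hP⟩ := h
  cases p with
  | nil => simp at hl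
  | @cons _ b _ hab p =>
  cases p with
  | nil => simp at hl
  | @cons _ c _ hbc p =>
  cases p with
  | nil => simp at hl
  | @cons _ d _ hcd p =>
  cases p with
  | nil => simp at hl
  | @cons _ e _ hde p =>
  cases p with
  | nil => simp at hl
  | @cons _ f _ hea p =>
  cases p with
  | cons h6 p =>
    simp only [Walk.length_cons] at hl
    omega
  | nil =>
  rw [Walk.cons_isCycle_iff] at hc
  have hn := hc.1.support_nodup
  simp only [Walk.support_cons, Walk.support_nil, List.nodup_cons, List.mem_cons,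
    List.not_mem_nil, or_false, not_or] at hn
  obtain ⟨⟨n1, n2, n3, n4⟩, ⟨n5, n6, n7⟩, ⟨n8, n9⟩, n10, _⟩ := hn
  refine cycg_pe hG (a := a) (b := b) (c := c) (d := d) (e := e) (fun x => ?_)
    (Ne.symm n7) (Ne.symm n9) n2 n3 n6 hab hbc hcd hde hea
  rw [hP]
  simp only [Walk.support_cons, Walk.support_nil, List.mem_cons, List.not_mem_nil, or_false]
  tauto

theorem cycg_nb {V : Type u} {G : SimpleGraph V} {P : Finset V} {x y : V} (h : dg G P x = 2)
    (hy : y ∈ P) (hxy : G.Adj x y) : ∃ z ∈ P, G.Adj x z ∧ z ≠ y ∧ ∀ w ∈ P, G.Adj x w → w = y ∨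
      w = z := by
  unfold dg at h
  obtain ⟨s, t, hst, he⟩ := Finset.card_eq_two.1 h
  have hmem : ∀ w, (w ∈ P ∧ G.Adj x w) ↔ w = s ∨ w = t := by
    intro w
    have : w ∈ nb G P x ↔ w = s ∨ w = t := by
      rw [he, Finset.mem_insert, Finset.mem_singleton]
    unfold nb at this
    rw [Finset.mem_filter] at this
    exact this
  rcases (hmem y).1 ⟨hy, hxy⟩ with rfl | rfl
  · have ht := (hmem t).2 (Or.inr rfl)
    exact ⟨t, ht.1, ht.2, hst.symm, fun w hw hxw => (hmem w).1 ⟨hw, hxw⟩⟩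
  · have hs := (hmem s).2 (Or.inl rfl)
    exact ⟨s, hs.1, hs.2, hst, fun w hw hxw => ((hmem w).1 ⟨hw, hxw⟩).symm⟩

theorem cycg_pe_five {V : Type u} {G : SimpleGraph V} (hG : G5 G) (P : Finset V)
    (h : Pe G P) : Five G P := by
  obtain ⟨hcard, hdg⟩ := h
  obtain ⟨a, ha⟩ := Finset.card_pos.1 (show 0 < P.card by omega)
  have h2 : 0 < (nb G P a).card := by
    have := hdg a ha
    unfold dg at this
    omega
  obtain ⟨b, hb⟩ := Finset.card_pos.1 h2
  unfold nb at hb
  rw [Finset.mem_filter] at hb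
  obtain ⟨hbP, hab⟩ := hb
  obtain ⟨e, heP, hae, heb, hna⟩ := cycg_nb (hdg a ha) hbP hab
  obtain ⟨c, hcP, hbc, hca, hnb⟩ := cycg_nb (hdg b hbP) ha hab.symm
  obtain ⟨d, hdP, hed, hda, hne⟩ := cycg_nb (hdg e heP) ha hae.symm
  have hce : c ≠ e := by
    rintro rfl
    exact hG.1 a b c hab hbc hae.symm
  have hdb : d ≠ b := by
    rintro rfl
    exact hG.1 a d e hab hed.symm hae.symm
  have hcd : c ≠ d := by
    rintro rfl
    exact hG.2 a b c e (Ne.symm hca) (Ne.symm heb) hab hbc hed.symm hae.symm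
  have hP : ∀ x, x ∈ P ↔ x = a ∨ x = b ∨ x = c ∨ x = d ∨ x = e := by
    have hsub : ({a, b, c, d, e} : Finset V) ⊆ P := by
      intro x hx
      simp only [Finset.mem_insert, Finset.mem_singleton] at hx
      rcases hx with rfl | rfl | rfl | rfl | rfl <;> assumption
    have hc5 : ({a, b, c, d, e} : Finset V).card = 5 := by
      rw [Finset.card_insert_of_notMem, Finset.card_insert_of_notMem,
        Finset.card_insert_of_notMem, Finset.card_pair hed.ne']
      · simp only [Finset.mem_insert, Finset.mem_singleton, not_or]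
        exact ⟨hcd, hce⟩
      · simp only [Finset.mem_insert, Finset.mem_singleton, not_or]
        exact ⟨hbc.ne, Ne.symm hdb, Ne.symm heb⟩
      · simp only [Finset.mem_insert, Finset.mem_singleton, not_or]
        exact ⟨hab.ne, Ne.symm hca, Ne.symm hda, hae.ne⟩
    have heq := Finset.eq_of_subset_of_card_le hsub (by rw [hc5, hcard])
    intro x
    rw [← heq]
    simp
  have hcd' : G.Adj c d := by
    obtain ⟨z, hzP, hcz, hzb, _⟩ := cycg_nb (hdg c hcP) hbP hbc.symm
    rcases (hP z).1 hzP with rfl | rfl | rfl | rfl | rfl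
    · rcases hna c hcP hcz.symm with h | h
      · exact absurd h hbc.ne'
      · exact absurd h hce
    · exact absurd rfl hzb
    · exact absurd hcz (G.loopless.irrefl _)
    · exact hcz
    · rcases hne c hcP hcz.symm with h | h
      · exact absurd h hca
      · exact absurd h hcd
  refine ⟨a, Walk.cons hab (Walk.cons hbc (Walk.cons hcd' (Walk.cons hed.symm
    (Walk.cons hae.symm Walk.nil)))), ?_, rfl, fun x => ?_⟩
  · rw [Walk.cons_isCycle_iff]
    refine ⟨?_, ?_⟩
    · rw [Walk.isPath_def]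
      simp only [Walk.support_cons, Walk.support_nil, List.nodup_cons, List.mem_cons,
        List.not_mem_nil, or_false, not_or, List.nodup_nil, and_true, not_false_eq_true]
      exact ⟨⟨hbc.ne, Ne.symm hdb, Ne.symm heb, hab.ne'⟩, ⟨hcd, hce, hca⟩, ⟨hed.ne', hda⟩,
        hae.ne'⟩
    · simp only [Walk.edges_cons, Walk.edges_nil, List.mem_cons, List.not_mem_nil, or_false,
        not_or, Sym2.eq_iff]
      refine ⟨?_, ?_, ?_, ?_⟩
      · exact ⟨fun h => hab.ne h.1, fun h => hca h.1.symm⟩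
      · exact ⟨fun h => hca h.1.symm, fun h => hda h.1.symm⟩
      · exact ⟨fun h => hda h.1.symm, fun h => hae.ne h.1⟩
      · exact ⟨fun h => hae.ne h.1, fun h => heb h.2.symm⟩
  · rw [hP]
    simp only [Walk.support_cons, Walk.support_nil, List.mem_cons, List.not_mem_nil, or_false]
    tauto

theorem cycg_cn {V : Type u} (G : SimpleGraph V) (X : Finset V) :
    Cn G X ↔ (G.induce (X : Set V)).Connected := by
  constructor
  · rintro ⟨⟨x0, hx0⟩, hX⟩
    rw [SimpleGraph.connected_iff]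
    refine ⟨?_, ⟨⟨x0, hx0⟩⟩⟩
    set A : Finset V := X.filter fun y => ∃ h : y ∈ (X : Set V),
      (G.induce (X : Set V)).Reachable ⟨x0, hx0⟩ ⟨y, h⟩ with hA
    have hAX : A = X := by
      by_contra hne
      obtain ⟨a, ha, b, hb, hab⟩ := hX A (Finset.filter_subset _ _)
        ⟨x0, Finset.mem_filter.2 ⟨hx0, hx0, SimpleGraph.Reachable.refl _⟩⟩ hne
      obtain ⟨_, haX, har⟩ := Finset.mem_filter.1 ha
      obtain ⟨hbX, hbA⟩ := Finset.mem_sdiff.1 hb
      refine hbA (Finset.mem_filter.2 ⟨hbX, hbX, har.trans ?_⟩)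
      exact SimpleGraph.Adj.reachable (show (G.induce (X : Set V)).Adj ⟨a, haX⟩ ⟨b, hbX⟩ from hab)
    have hr : ∀ y : (X : Set V), (G.induce (X : Set V)).Reachable ⟨x0, hx0⟩ y := by
      rintro ⟨y, hy⟩
      have : y ∈ A := by rw [hAX]; exact hy
      obtain ⟨_, _, h⟩ := Finset.mem_filter.1 this
      exact h
    intro y z
    exact (hr y).symm.trans (hr z)
  · intro h
    obtain ⟨⟨x0, hx0⟩⟩ := h.nonempty
    refine ⟨⟨x0, hx0⟩, fun A hA hAne hAX => ?_⟩
    obtain ⟨a, ha⟩ := hAne
    obtain ⟨y, hyX, hyA⟩ : ∃ y ∈ X, y ∉ A := by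
      by_contra hcon
      push Not at hcon
      exact hAX (Finset.Subset.antisymm hA hcon)
    obtain ⟨p⟩ := h.preconnected ⟨a, hA ha⟩ ⟨y, hyX⟩
    obtain ⟨d, _, hd1, hd2⟩ := p.exists_boundary_dart {z | (z : V) ∈ A} ha hyA
    exact ⟨d.fst, hd1, d.snd, Finset.mem_sdiff.2 ⟨d.snd.2, hd2⟩, d.adj⟩

/-- row G4 -/
theorem cycG : SCycG.{u} := by
  intro V G h
  have hG : G5 G := ⟨cycg_tri h, cycg_four h⟩
  exact ⟨hG, fun P => ⟨cycg_five_pe hG P, cycg_pe_five hG P⟩, cycg_cn G⟩

end Pool.Agent.FX
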