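import Mathlib
import Pool.Agent.H41.Fire.Defs

/-!
# MP_07b392_co, project FX: flexibility of planar graphs of girth 5, definitions

Everything is expressed with finite sets of vertices of a fixed graph `G`.
-/

set_option autoImplicit false

namespace Pool.Agent.FX

open Classical
open Pool.Agent.H41.Fire (IsPlanar Rotation cycles)

universe u v

variable {V : Type u} {C : Type v}

/-- neighbours of `x` in `X` -/
noncomputable def nb (G : SimpleGraph V) (X : Finset V) (x : V) : Finset V :=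
  X.filter fun y => G.Adj x y

/-- number of neighbours of `x` in `X` -/
noncomputable def dg (G : SimpleGraph V) (X : Finset V) (x : V) : ℕ := (nb G X x).card

/-- twice the number of edges inside `X` -/
noncomputable def e2 (G : SimpleGraph V) (X : Finset V) : ℕ := ∑ x ∈ X, dg G X x

/-- connected sets -/
def Cn (G : SimpleGraph V) (X : Finset V) : Prop :=
  X.Nonempty ∧ ∀ A ⊆ X, A.Nonempty → A ≠ X → ∃ a ∈ A, ∃ b ∈ X \ A, G.Adj a b

/-- the vertex sets of 5-cycles of a graph of girth at least five: five vertices, each of them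
with exactly two neighbours in the set -/
def Pe (G : SimpleGraph V) (P : Finset V) : Prop := P.card = 5 ∧ ∀ x ∈ P, dg G P x = 2

/-- the 5-cycles inside `X` -/
noncomputable def pe (G : SimpleGraph V) (X : Finset V) : Finset (Finset V) :=
  X.powerset.filter fun P => Pe G P

/-- number of 5-cycles inside `X` -/
noncomputable def c5 (G : SimpleGraph V) (X : Finset V) : ℕ := (pe G X).card

/-- girth at least five -/
def G5 (G : SimpleGraph V) : Prop :=
  (∀ a b c, G.Adj a b → G.Adj b c → ¬ G.Adj c a) ∧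
    ∀ a b c d, a ≠ c → b ≠ d → G.Adj a b → G.Adj b c → G.Adj c d → ¬ G.Adj d a

/-- two distinct 5-cycles have no common edge -/
def ED (G : SimpleGraph V) : Prop :=
  ∀ P Q, Pe G P → Pe G Q → P ≠ Q → ∀ a b, a ∈ P → b ∈ P → a ∈ Q → b ∈ Q → ¬ G.Adj a b

/-- `X` can be coloured from the lists `L` -/
def Col (G : SimpleGraph V) (L : V → Finset C) (X : Finset V) : Prop :=
  ∃ φ : V → C, (∀ x ∈ X, φ x ∈ L x) ∧ ∀ x ∈ X, ∀ y ∈ X, G.Adj x y → φ x ≠ φ y

/-- `Y` is critical for `L`: a minimal set that cannot be coloured -/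
def Cr (G : SimpleGraph V) (L : V → Finset C) (Y : Finset V) : Prop :=
  ¬ Col G L Y ∧ ∀ x ∈ Y, Col G L (Y.erase x)

/-- `H` is a robust part of the graph `Z` -/
structure Rob (C : Type v) (G : SimpleGraph V) (Z H : Finset V) : Prop where
  sub : H ⊆ Z
  ne : H.Nonempty
  out : ∀ x ∈ H, dg G (Z \ H) x ≤ 1
  forb : ∀ v ∈ H, ∀ L : V → Finset C, (∀ x ∈ H, (L x).card ≤ 3) →
    (∀ x ∈ H, x ≠ v → 3 ≤ (L x).card + dg G (Z \ H) x) → 2 ≤ (L v).card + dg G (Z \ H) v →
    Col G L H
  fix : ∀ v ∈ H, ∀ L : V → Finset C, (∀ x ∈ H, (L x).card ≤ 3) →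
    (∀ x ∈ H, x ≠ v → 3 ≤ (L x).card + dg G (Z \ H) x) → 1 ≤ (L v).card → Col G L H

/-- the 5-cycles of the graph `Z` that meet `H` -/
noncomputable def pm (G : SimpleGraph V) (Z H : Finset V) : Finset (Finset V) :=
  (pe G Z).filter fun P => (P ∩ H).Nonempty

/-- number of edges between `H` and `Z \ H` (for `H ⊆ Z`) -/
noncomputable def bd (G : SimpleGraph V) (Z H : Finset V) : ℕ := ∑ x ∈ H, dg G (Z \ H) x

/-- the potential, times 400 -/
noncomputable def Ps (G : SimpleGraph V) (Z H : Finset V) : ℤ :=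
  602 * (H.card : ℤ) + 100 * ((pm G Z H).card : ℤ) - 200 * (e2 G H : ℤ) - 400 * (bd G Z H : ℤ)

/-- the key inequality for the subsets of `H` in the graph `Z` -/
def Key (G : SimpleGraph V) (Z H : Finset V) : Prop :=
  ∀ X ⊆ H, 200 * e2 G X + 350 * ∑ x ∈ X, dg G (Z \ H) x ≤ 602 * X.card + 100 * c5 G X

/-- the graph with the edges inside `X` -/
def res (G : SimpleGraph V) (X : Finset V) : SimpleGraph V where
  Adj a b := G.Adj a b ∧ a ∈ X ∧ b ∈ X
  symm := ⟨fun _ _ h => ⟨h.1.symm, h.2.2, h.2.1⟩⟩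
  loopless := ⟨fun _ h => h.1.ne rfl⟩

/-- the number of faces of a rotation system, as in `IsPlanar` -/
noncomputable def fc {G : SimpleGraph V} (R : Rotation G) : ℕ :=
  cycles R.face + Nat.card {v : V // ∀ w, ¬ G.Adj v w}

end Pool.Agent.FX
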