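import Pool.Agent.FX.Dela

/-!
# MP_07b392_co, project FX, row P1: deletion of one edge from a rotation system
-/

set_option autoImplicit false

namespace Pool.Agent.FX

open Classical
open Equiv.Perm
open Pool.Agent.H41.Fire (IsPlanar Rotation cycles rev)

universe u v

section rot

variable {V : Type u} {G : SimpleGraph V}

/-- the darts of the smaller graph -/
def del_emb (d : G.Dart) (x : (G.deleteEdges {d.edge}).Dart) : G.Dart :=
  ⟨x.toProd, (SimpleGraph.deleteEdges_adj.1 x.adj).1⟩

theorem del_emb_ne (d : G.Dart) (x : (G.deleteEdges {d.edge}).Dart) :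
    del_emb d x ≠ d ∧ del_emb d x ≠ d.symm := by
  have h := (SimpleGraph.deleteEdges_adj.1 x.adj).2
  have h1 : (del_emb d x).edge ≠ d.edge := fun hh => h (Set.mem_singleton_iff.2 hh)
  rw [Ne, SimpleGraph.dart_edge_eq_iff, not_or] at h1
  exact h1

theorem del_emb_inj (d : G.Dart) : Function.Injective (del_emb d) := by
  intro x y h
  apply SimpleGraph.Dart.ext
  have h1 : (del_emb d x).toProd = (del_emb d y).toProd := by rw [h]
  exact h1

theorem del_emb_surj (d y : G.Dart) (h1 : y ≠ d) (h2 : y ≠ d.symm) : ∃ x, del_emb d x = y := by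
  refine ⟨⟨y.toProd, SimpleGraph.deleteEdges_adj.2 ⟨y.adj, fun h => ?_⟩⟩, rfl⟩
  have h3 : y.edge = d.edge := Set.mem_singleton_iff.1 h
  rw [SimpleGraph.dart_edge_eq_iff] at h3
  exact h3.elim h1 h2

theorem del_ex (d : G.Dart) (s : Equiv.Perm G.Dart) (h1 : s d = d) (h2 : s d.symm = d.symm) :
    ∃ n : Equiv.Perm (G.deleteEdges {d.edge}).Dart, ∀ x, del_emb d (n x) = s (del_emb d x) := by
  have hp : ∀ y, (s y ≠ d ∧ s y ≠ d.symm) ↔ (y ≠ d ∧ y ≠ d.symm) := by
    intro y
    have e1 : s y = d ↔ y = d := by
      constructor
      · intro h; apply s.injective; rw [h, h1]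
      · intro h; rw [h, h1]
    have e2 : s y = d.symm ↔ y = d.symm := by
      constructor
      · intro h; apply s.injective; rw [h, h2]
      · intro h; rw [h, h2]
    rw [Ne, Ne, e1, e2]
  have hb : Function.Bijective (fun x => (⟨del_emb d x, del_emb_ne d x⟩ :
      {y : G.Dart // y ≠ d ∧ y ≠ d.symm})) := by
    constructor
    · intro x y h
      exact del_emb_inj d (Subtype.ext_iff.1 h)
    · rintro ⟨y, hy1, hy2⟩
      obtain ⟨x, hx⟩ := del_emb_surj d y hy1 hy2
      exact ⟨x, Subtype.ext hx⟩
  have key : ∀ z : {y : G.Dart // y ≠ d ∧ y ≠ d.symm},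
      del_emb d ((Equiv.ofBijective _ hb).symm z) = z.1 := by
    intro z
    have h := (Equiv.ofBijective _ hb).apply_symm_apply z
    exact Subtype.ext_iff.1 h
  refine ⟨(Equiv.ofBijective _ hb).trans ((s.subtypePerm hp).trans
    (Equiv.ofBijective _ hb).symm), fun x => ?_⟩
  rw [Equiv.trans_apply, Equiv.trans_apply, key]
  rfl

theorem del_iso [Fintype V] (R : Rotation G) (d : G.Dart) :
    Nat.card {v : V // ∀ w, ¬ G.Adj v w} + (if R.nxt d = d then 1 else 0) +
      (if R.nxt d.symm = d.symm then 1 else 0) ≤
      Nat.card {v : V // ∀ w, ¬ (G.deleteEdges {d.edge}).Adj v w} := by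
  have key : ∀ e : G.Dart, e.edge = d.edge → R.nxt e = e →
      ∀ w, ¬ (G.deleteEdges {d.edge}).Adj e.fst w := by
    intro e he hn w hw
    obtain ⟨hw1, hw2⟩ := SimpleGraph.deleteEdges_adj.1 hw
    have h1 := R.sameCycle e ⟨(e.fst, w), hw1⟩ rfl
    obtain ⟨k, hk⟩ := h1.exists_nat_pow_eq
    have h2 : ∀ k : ℕ, (R.nxt ^ k) e = e := by
      intro k
      induction k with
      | zero => simp
      | succ k ih => rw [pow_succ', Equiv.Perm.mul_apply, ih, hn]
    rw [h2] at hk
    apply hw2
    rw [Set.mem_singleton_iff, ← he]
    have h3 : e.edge = (⟨(e.fst, w), hw1⟩ : G.Dart).edge := by rw [← hk]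
    exact h3.symm
  rw [Nat.card_eq_fintype_card, Nat.card_eq_fintype_card, Fintype.card_subtype,
    Fintype.card_subtype]
  have h1 : (if R.nxt d = d then 1 else 0) =
      (if R.nxt d = d then ({d.fst} : Finset V) else ∅).card := by
    split_ifs <;> simp
  have h2 : (if R.nxt d.symm = d.symm then 1 else 0) =
      (if R.nxt d.symm = d.symm then ({d.snd} : Finset V) else ∅).card := by
    split_ifs <;> simp
  rw [h1, h2, ← Finset.card_union_of_disjoint, ← Finset.card_union_of_disjoint]
  · apply Finset.card_le_card
    intro v hv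
    rw [Finset.mem_filter]
    refine ⟨Finset.mem_univ _, fun w hw => ?_⟩
    rw [Finset.mem_union, Finset.mem_union, Finset.mem_filter] at hv
    rcases hv with (hv | hv) | hv
    · exact hv.2 w (SimpleGraph.deleteEdges_adj.1 hw).1
    · split_ifs at hv with h
      · rw [Finset.mem_singleton] at hv
        subst hv
        exact key d rfl h w hw
      · simp at hv
    · split_ifs at hv with h
      · rw [Finset.mem_singleton] at hv
        subst hv
        exact key d.symm (by simp) h w hw
      · simp at hv
  · rw [Finset.disjoint_left]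
    intro v hv hv2
    split_ifs at hv2 with h
    · rw [Finset.mem_singleton] at hv2
      subst hv2
      rw [Finset.mem_union, Finset.mem_filter] at hv
      rcases hv with hv | hv
      · exact hv.2 _ d.adj.symm
      · split_ifs at hv with h'
        · rw [Finset.mem_singleton] at hv
          exact d.adj.ne hv.symm
        · simp at hv
    · simp at hv2
  · rw [Finset.disjoint_left]
    intro v hv hv2
    split_ifs at hv2 with h
    · rw [Finset.mem_singleton] at hv2
      subst hv2
      rw [Finset.mem_filter] at hv
      exact hv.2 _ d.adj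
    · simp at hv2

/-- P1: deletion of one edge from a rotation system -/
theorem del : SDel.{u} := by
  intro V _ G R d
  have hne : d ≠ d.symm := (SimpleGraph.Dart.symm_ne d).symm
  have hf1 : (R.nxt d).fst = d.fst := R.fst_nxt d
  have hf2 : (R.nxt d.symm).fst = d.snd := R.fst_nxt d.symm
  have h1 : R.nxt d ≠ d.symm := by
    intro h
    rw [h] at hf1
    exact d.adj.ne hf1.symm
  have h2 : R.nxt d.symm ≠ d := by
    intro h
    rw [h] at hf2
    exact d.adj.ne hf2
  have core := del_core R.nxt (rev G) hne rfl (SimpleGraph.Dart.symm_symm d) h1 h2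
  have hs1 : del_u d.symm (del_u d R.nxt) d = d := by
    rw [del_u_ne]
    · exact del_u_self _ _
    · exact hne
    · rw [del_u_self]; exact hne
  have hs2 : del_u d.symm (del_u d R.nxt) d.symm = d.symm := del_u_self _ _
  obtain ⟨n, hn⟩ := del_ex d _ hs1 hs2
  have hlab : ∀ x, (del_u d.symm (del_u d R.nxt) x).fst = x.fst :=
    del_u_lab (fun x : G.Dart => x.fst) _ _
      (del_u_lab (fun x : G.Dart => x.fst) _ _ (fun x => R.fst_nxt x))
  let R' : Rotation (G.deleteEdges {d.edge}) :=
    { nxt := n
      fst_nxt := fun x => by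
        have h := hlab (del_emb d x)
        rw [← hn] at h
        exact h
      sameCycle := fun x y hxy => by
        apply del_pull (del_emb_inj d) hn
        apply del_u_same _ _ _ (del_emb_ne d x).2 (del_emb_ne d y).2
        apply del_u_same _ _ _ (del_emb_ne d x).1 (del_emb_ne d y).1
        exact R.sameCycle _ _ hxy }
  have hface : ∀ x, del_emb d (R'.face x) = (del_u d.symm (del_u d R.nxt) * rev G)
      (del_emb d x) := by
    intro x
    exact hn (rev _ x)
  have hcyc : cycles (del_u d.symm (del_u d R.nxt) * rev G) ≤ cycles R'.face + 1 := by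
    let F : Option (Quotient (SameCycle.setoid R'.face)) →
        Quotient (SameCycle.setoid (del_u d.symm (del_u d R.nxt) * rev G)) := fun o =>
      match o with
      | none => Quotient.mk _ d
      | some Q => Quotient.map' (del_emb d) (fun x y hxy => del_push hface hxy) Q
    have hF : Function.Surjective F := by
      intro Q
      induction Q using Quotient.inductionOn with
      | _ y =>
        by_cases hy1 : y = d
        · exact ⟨none, by rw [hy1]⟩
        · by_cases hy2 : y = d.symm
          · refine ⟨none, Quotient.sound ?_⟩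
            have h3 : (del_u d.symm (del_u d R.nxt) * rev G) d = d.symm := hs2
            rw [hy2]
            have h4 : (del_u d.symm (del_u d R.nxt) * rev G).SameCycle d
                ((del_u d.symm (del_u d R.nxt) * rev G) d) :=
              Equiv.Perm.sameCycle_apply_right.2 (SameCycle.refl _ _)
            rw [h3] at h4
            exact h4
          · obtain ⟨x, hx⟩ := del_emb_surj d y hy1 hy2
            refine ⟨some (Quotient.mk _ x), ?_⟩
            rw [← hx]
            rfl
    have h := Nat.card_le_card_of_surjective F hF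
    rwa [Finite.card_option] at h
  have hiso := del_iso R d
  refine ⟨R', ?_, fun hsc => ?_⟩
  · have c1 : cycles R.face ≤ _ := core.1
    unfold fc
    omega
  · have c2 : cycles R.face + 2 ≤ _ := core.2 hsc
    unfold fc
    omega

end rot

end Pool.Agent.FX
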