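import Pool.Agent.FX.Stm
import Pool.Agent.H41.Fire.Orb

/-!
# MP_07b392_co, project FX, row P1: cycles of permutations after removing two darts
-/

set_option autoImplicit false

namespace Pool.Agent.FX

open Classical
open Equiv.Perm
open Pool.Agent.H41.Fire (IsPlanar Rotation cycles rev cycles_mul_swap_le cycles_mul_swap_lt)

universe u v

section perm

theorem del_pow {α β : Type*} {g : Equiv.Perm α} {h : Equiv.Perm β} {e : α → β}
    (H : ∀ x, e (g x) = h (e x)) (k : ℕ) (x : α) : e ((g ^ k) x) = (h ^ k) (e x) := by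
  induction k with
  | zero => simp
  | succ k ih =>
    rw [pow_succ', pow_succ', Equiv.Perm.mul_apply, Equiv.Perm.mul_apply, H, ih]

theorem del_push {α β : Type*} [Finite α] {g : Equiv.Perm α} {h : Equiv.Perm β} {e : α → β}
    (H : ∀ x, e (g x) = h (e x)) {x y : α} (hxy : g.SameCycle x y) : h.SameCycle (e x) (e y) := by
  obtain ⟨k, hk⟩ := hxy.exists_nat_pow_eq
  exact ⟨k, by rw [zpow_natCast, ← del_pow H, hk]⟩

theorem del_pull {α β : Type*} [Finite β] {g : Equiv.Perm α} {h : Equiv.Perm β} {e : α → β}
    (he : Function.Injective e) (H : ∀ x, e (g x) = h (e x)) {x y : α}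
    (hxy : h.SameCycle (e x) (e y)) : g.SameCycle x y := by
  obtain ⟨k, hk⟩ := hxy.exists_nat_pow_eq
  refine ⟨k, ?_⟩
  rw [zpow_natCast]
  apply he
  rw [del_pow H, hk]

variable {α : Type*} [Finite α] [DecidableEq α]

/-- splitting a cycle -/
theorem del_split {f : Equiv.Perm α} {a b : α}
    (h : f.SameCycle a b) (hab : a ≠ b) : ¬ (f * Equiv.swap a b).SameCycle a b := by
  obtain ⟨k, hk⟩ := h.symm.exists_nat_pow_eq
  have hk0 : 0 < k := by
    rcases Nat.eq_zero_or_pos k with h0 | h0
    · subst h0
      exact absurd (by simpa using hk.symm) hab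
    · exact h0
  have hex : ∃ j, 0 < j ∧ (f ^ j) b = a := ⟨k, hk0, hk⟩
  obtain ⟨hj0, hja⟩ := Nat.find_spec hex
  have hmin : ∀ i, i < Nat.find hex → 0 < i → (f ^ i) b ≠ a :=
    fun i hi h0 h1 => Nat.find_min hex hi ⟨h0, h1⟩
  generalize Nat.find hex = j at hj0 hja hmin
  have hb : ∀ i, 0 < i → i ≤ j → (f ^ i) b ≠ b := by
    intro i h0 hi hh
    rcases Nat.lt_or_ge i j with h1 | h1
    · apply hmin (j - i) (by omega) (by omega)
      have h2 : (f ^ j) b = (f ^ (j - i)) ((f ^ i) b) := by
        rw [← Equiv.Perm.mul_apply, ← pow_add, Nat.sub_add_cancel hi]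
      rw [hh, hja] at h2
      exact h2.symm
    · have h2 : i = j := by omega
      rw [h2, hja] at hh
      exact hab hh
  intro hg
  obtain ⟨m, hm⟩ := hg.exists_nat_pow_eq
  have hinv : ∀ m : ℕ, ∃ i, 0 < i ∧ i ≤ j ∧ ((f * Equiv.swap a b) ^ m) a = (f ^ i) b := by
    intro m
    induction m with
    | zero => exact ⟨j, hj0, le_refl _, by simp [hja]⟩
    | succ m ih =>
      obtain ⟨i, hi0, hij, hi⟩ := ih
      rw [pow_succ', Equiv.Perm.mul_apply, hi, Equiv.Perm.mul_apply]
      rcases Nat.lt_or_ge i j with h1 | h1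
      · refine ⟨i + 1, by omega, by omega, ?_⟩
        rw [Equiv.swap_apply_of_ne_of_ne (hmin i h1 hi0) (hb i hi0 hij), pow_succ',
          Equiv.Perm.mul_apply]
      · have h2 : i = j := by omega
        refine ⟨1, by omega, by omega, ?_⟩
        rw [h2, hja, Equiv.swap_apply_left, pow_one]
  obtain ⟨i, hi0, hij, hi⟩ := hinv m
  exact hb i hi0 hij (by rw [← hi, hm])

theorem del_left (f : Equiv.Perm α) (a b : α) :
    (Equiv.swap a b * f) * Equiv.swap (f.symm a) (f.symm b) = f := by
  ext x
  rw [Equiv.Perm.mul_apply, Equiv.Perm.mul_apply]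
  by_cases h1 : x = f.symm a
  · subst h1
    rw [Equiv.swap_apply_left]
    simp
  · by_cases h2 : x = f.symm b
    · subst h2
      rw [Equiv.swap_apply_right]
      simp
    · rw [Equiv.swap_apply_of_ne_of_ne h1 h2, Equiv.swap_apply_of_ne_of_ne]
      · intro h; apply h1; rw [← h]; simp
      · intro h; apply h2; rw [← h]; simp

theorem del_c3 (f : Equiv.Perm α) (a b : α) : cycles f ≤ cycles (Equiv.swap a b * f) + 1 := by
  have h := cycles_mul_swap_le (Equiv.swap a b * f) (f.symm a) (f.symm b)
  rwa [del_left] at h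

theorem del_c2 {f : Equiv.Perm α} {a b : α} (h : f.SameCycle a b) (hab : a ≠ b) :
    cycles f + 1 ≤ cycles (Equiv.swap a b * f) := by
  have h1 : f.SameCycle (f.symm a) (f.symm b) := by
    rw [Equiv.Perm.sameCycle_symm_apply_left, Equiv.Perm.sameCycle_symm_apply_right]
    exact h
  have h2 : f.symm a ≠ f.symm b := fun hh => hab ((f.symm).injective hh)
  have h3 : f * Equiv.swap (f.symm a) (f.symm b) = Equiv.swap a b * f := by
    have h4 : (Equiv.swap a b * f) * Equiv.swap (f.symm a) (f.symm b) *
        Equiv.swap (f.symm a) (f.symm b) = Equiv.swap a b * f := by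
      rw [mul_assoc, Equiv.swap_mul_self, mul_one]
    rwa [del_left] at h4
  have h4 := del_split h1 h2
  rw [h3] at h4
  have h5 := cycles_mul_swap_lt h4
  rwa [del_left] at h5

/-- making `a` a fixed point -/
def del_u (a : α) (s : Equiv.Perm α) : Equiv.Perm α := Equiv.swap a (s a) * s

omit [Finite α] in
theorem del_u_self (a : α) (s : Equiv.Perm α) : del_u a s a = a := by
  simp [del_u]

omit [Finite α] in
theorem del_u_ne (a : α) (s : Equiv.Perm α) {x : α} (hx : x ≠ a) (hs : s x ≠ a) :
    del_u a s x = s x := by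
  rw [del_u, Equiv.Perm.mul_apply, Equiv.swap_apply_of_ne_of_ne hs]
  exact fun h => hx (s.injective h)

omit [Finite α] in
theorem del_u_eq (a : α) (s : Equiv.Perm α) {x : α} (hs : s x = a) : del_u a s x = s a := by
  rw [del_u, Equiv.Perm.mul_apply, hs, Equiv.swap_apply_left]

omit [Finite α] in
theorem del_u_lab {W : Type*} (l : α → W) (a : α) (s : Equiv.Perm α) (h : ∀ x, l (s x) = l x)
    (x : α) : l (del_u a s x) = l x := by
  by_cases hx : x = a
  · rw [hx, del_u_self]
  · by_cases hs : s x = a
    · rw [del_u_eq a s hs, h, ← hs, h]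
    · rw [del_u_ne a s hx hs, h]

theorem del_u_same (a : α) (s : Equiv.Perm α) {x y : α} (h : s.SameCycle x y) (hx : x ≠ a)
    (hy : y ≠ a) : (del_u a s).SameCycle x y := by
  obtain ⟨k, hk⟩ := h.exists_nat_pow_eq
  clear h
  induction k using Nat.strong_induction_on generalizing x with
  | _ k ih =>
    rcases Nat.eq_zero_or_pos k with h0 | h0
    · subst h0
      have h1 : x = y := by simpa using hk
      rw [h1]
    · obtain ⟨j, rfl⟩ : ∃ j, k = j + 1 := ⟨k - 1, by omega⟩
      have hk1 : (s ^ j) (s x) = y := by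
        rw [← hk, pow_succ, Equiv.Perm.mul_apply]
      by_cases hs : s x = a
      · rcases Nat.eq_zero_or_pos j with h1 | h1
        · subst h1
          exfalso
          apply hy
          rw [← hk1, ← hs]
          simp
        · obtain ⟨i, rfl⟩ : ∃ i, j = i + 1 := ⟨j - 1, by omega⟩
          have hk2 : (s ^ i) (s a) = y := by
            rw [← hk1, pow_succ, Equiv.Perm.mul_apply, hs]
          have hsa : s a ≠ a := by
            intro hh
            apply hx
            apply s.injective
            rw [hs, hh]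
          have h2 := ih i (by omega) hsa hk2
          rw [← del_u_eq a s hs] at h2
          exact Equiv.Perm.sameCycle_apply_left.1 h2
      · have h2 := ih j (by omega) hs hk1
        rw [← del_u_ne a s hx hs] at h2
        exact Equiv.Perm.sameCycle_apply_left.1 h2

/-- the count -/
theorem del_core (s r : Equiv.Perm α) {d d' : α} (hne : d ≠ d') (hr : r d = d') (hr' : r d' = d)
    (h1 : s d ≠ d') (h2 : s d' ≠ d) :
    cycles (s * r) ≤ cycles (del_u d' (del_u d s) * r) + (if s d = d then 1 else 0) +
      (if s d' = d' then 1 else 0) ∧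
    ((s * r).SameCycle d d' → cycles (s * r) + 2 ≤ cycles (del_u d' (del_u d s) * r) +
      (if s d = d then 1 else 0) + (if s d' = d' then 1 else 0)) := by
  have e1 : del_u d s d' = s d' := del_u_ne d s (Ne.symm hne) h2
  have f1 : del_u d s * r = Equiv.swap d (s d) * (s * r) := by
    rw [del_u, mul_assoc]
  have f2 : del_u d' (del_u d s) * r = Equiv.swap d' (s d') * (del_u d s * r) := by
    rw [del_u, e1, mul_assoc]
  have g1 : (del_u d s * r) d' = d := by
    rw [Equiv.Perm.mul_apply, hr', del_u_self]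
  have g2 : (del_u d s * r) d = s d' := by
    rw [Equiv.Perm.mul_apply, hr, e1]
  have st2 : cycles (del_u d s * r) + 1 ≤ cycles (del_u d' (del_u d s) * r) +
      (if s d' = d' then 1 else 0) := by
    rw [f2]
    by_cases h : s d' = d'
    · rw [if_pos h, h, Equiv.swap_self]
      exact le_refl _
    · rw [if_neg h, Nat.add_zero]
      apply del_c2 _ (Ne.symm h)
      rw [← g2, Equiv.Perm.sameCycle_apply_right]
      have h3 : (del_u d s * r).SameCycle d' ((del_u d s * r) d') :=
        Equiv.Perm.sameCycle_apply_right.2 (SameCycle.refl _ _)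
      rwa [g1] at h3
  have st1 : cycles (s * r) ≤ cycles (del_u d s * r) + 1 := by
    rw [f1]
    exact del_c3 _ _ _
  have st1' : (s * r).SameCycle d d' → cycles (s * r) + 1 ≤ cycles (del_u d s * r) +
      (if s d = d then 1 else 0) := by
    intro hs
    rw [f1]
    by_cases h : s d = d
    · rw [if_pos h, h, Equiv.swap_self]
      exact le_refl _
    · rw [if_neg h, Nat.add_zero]
      apply del_c2 _ (Ne.symm h)
      have h3 : (s * r).SameCycle d ((s * r) d') := Equiv.Perm.sameCycle_apply_right.2 hs
      rwa [Equiv.Perm.mul_apply, hr'] at h3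
  refine ⟨?_, fun hs => ?_⟩
  · omega
  · have := st1' hs
    omega

end perm

end Pool.Agent.FX
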