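import Pool.Agent.FX.StmG

/-!
# MP_07b392_co, project FX: number of edges of an induced subgraph; edge density
-/

set_option autoImplicit false

namespace Pool.Agent.FX

open Classical

universe u v

variable {V : Type u}

theorem edge_e2 (G : SimpleGraph V) (X : Finset V) :
    e2 G X = 2 * Nat.card (G.induce (X : Set V)).edgeSet := by
  have h := SimpleGraph.sum_degrees_eq_twice_card_edges (G.induce (X : Set V))
  rw [Nat.card_eq_fintype_card, ← SimpleGraph.edgeFinset_card]
  rw [← h]
  unfold e2
  rw [← Finset.sum_coe_sort X]
  apply Finset.sum_congr rfl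
  intro x _
  rw [← SimpleGraph.card_neighborFinset_eq_degree]
  unfold dg nb
  refine Finset.card_bij' (fun y hy => (⟨y, (Finset.mem_filter.1 hy).1⟩ : ↥(X : Set V)))
    (fun y _ => (y : V)) ?_ ?_ ?_ ?_
  · intro y hy
    rw [SimpleGraph.mem_neighborFinset]
    exact (Finset.mem_filter.1 hy).2
  · intro y hy
    rw [SimpleGraph.mem_neighborFinset] at hy
    exact Finset.mem_filter.2 ⟨y.2, hy⟩
  · intro y _
    rfl
  · intro y _
    rfl

/-- the edge density condition -/
def DenE (G : SimpleGraph V) : Prop := ∀ X : Finset V, Cn G X → 8 * e2 G X + 20 ≤ 25 * X.card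

theorem edge_pia {G : SimpleGraph V} (h : DenE G) : PIA V G := by
  intro X hX
  have := h X hX
  omega

theorem edge_all (h1 : SBas.{u}) {G : SimpleGraph V} (h : DenE G) :
    ∀ X : Finset V, 400 * e2 G X ≤ 1250 * X.card := by
  have key : ∀ n : ℕ, ∀ X : Finset V, X.card = n → 400 * e2 G X ≤ 1250 * X.card := by
    intro n
    induction n using Nat.strong_induction_on with
    | _ n ih =>
      intro X hX
      by_cases hc : Cn G X
      · have := edge_pia h X hc
        omega
      · by_cases hne : X.Nonempty
        · have hex : ∃ A ⊆ X, A.Nonempty ∧ A ≠ X ∧ ∀ a ∈ A, ∀ b ∈ X \ A, ¬ G.Adj a b := by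
            by_contra hcon
            push Not at hcon
            exact hc ⟨hne, fun A hA hA1 hA2 => hcon A hA hA1 hA2⟩
          obtain ⟨A, hA, hA1, hA2, hA3⟩ := hex
          obtain ⟨-, -, b3, -, -⟩ := h1 V G
          have e := b3 X A hA
          have z : ∑ x ∈ A, dg G (X \ A) x = 0 := by
            apply Finset.sum_eq_zero
            intro x hx
            unfold dg nb
            rw [Finset.card_eq_zero, Finset.filter_eq_empty_iff]
            intro y hy
            exact hA3 x hx y hy
          rw [z] at e
          have hlt : A.card < X.card := Finset.card_lt_card (Finset.ssubset_iff_subset_ne.2 ⟨hA, hA2⟩)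
          have hsd : (X \ A).card + A.card = X.card := Finset.card_sdiff_add_card_eq_card hA
          have hA0 : 0 < A.card := Finset.card_pos.2 hA1
          have i1 := ih A.card (by omega) A rfl
          have i2 := ih (X \ A).card (by omega) (X \ A) rfl
          omega
        · rw [Finset.not_nonempty_iff_eq_empty] at hne
          subst hne
          simp [e2]
  exact fun X => key X.card X rfl

end Pool.Agent.FX
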