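import Pool.Agent.FX.Stm

/-!
# MP_07b392_co, project FX, row P6: Euler's formula for a connected set
-/

set_option autoImplicit false

namespace Pool.Agent.FX

open Classical
open Pool.Agent.H41.Fire (IsPlanar Rotation cycles)

universe u

theorem eul_nb {V : Type u} (G : SimpleGraph V) (X A : Finset V) (hA : A ⊆ X) (x : V)
    (hx : x ∈ X) : nb (res G X) A x = nb G A x := by
  unfold nb
  apply Finset.filter_congr
  intro y hy
  exact ⟨fun h => h.1, fun h => ⟨h, hx, hA hy⟩⟩

theorem eul_dg {V : Type u} (G : SimpleGraph V) (X A : Finset V) (hA : A ⊆ X) (x : V)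
    (hx : x ∈ X) : dg (res G X) A x = dg G A x := by
  unfold dg
  rw [eul_nb G X A hA x hx]

theorem eul_e2 {V : Type u} (G : SimpleGraph V) (X : Finset V) :
    e2 (res G X) X = e2 G X := by
  unfold e2
  exact Finset.sum_congr rfl fun x hx => eul_dg G X X le_rfl x hx

theorem eul_Pe {V : Type u} (G : SimpleGraph V) (X P : Finset V) (hP : P ⊆ X) :
    Pe (res G X) P ↔ Pe G P := by
  unfold Pe
  constructor
  · rintro ⟨h1, h2⟩
    exact ⟨h1, fun x hx => by rw [← eul_dg G X P hP x (hP hx)]; exact h2 x hx⟩
  · rintro ⟨h1, h2⟩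
    exact ⟨h1, fun x hx => by rw [eul_dg G X P hP x (hP hx)]; exact h2 x hx⟩

theorem eul_c5 {V : Type u} (G : SimpleGraph V) (X : Finset V) :
    c5 (res G X) X = c5 G X := by
  unfold c5 pe
  congr 1
  apply Finset.filter_congr
  intro P hP
  exact eul_Pe G X P (Finset.mem_powerset.1 hP)

theorem eul_Cn {V : Type u} (G : SimpleGraph V) (X : Finset V) (h : Cn G X) :
    Cn (res G X) X := by
  refine ⟨h.1, fun A hA hne hAX => ?_⟩
  obtain ⟨a, ha, b, hb, hab⟩ := h.2 A hA hne hAX
  exact ⟨a, ha, b, hb, hab, hA ha, (Finset.mem_sdiff.1 hb).1⟩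

theorem eul_G5 {V : Type u} (G : SimpleGraph V) (X : Finset V) (h : G5 G) :
    G5 (res G X) := by
  refine ⟨fun a b c h1 h2 h3 => h.1 a b c h1.1 h2.1 h3.1, ?_⟩
  intro a b c d hac hbd h1 h2 h3 h4
  exact h.2 a b c d hac hbd h1.1 h2.1 h3.1 h4.1

theorem eul_edges {V : Type u} [Fintype V] (G : SimpleGraph V) (X : Finset V) :
    2 * Nat.card (res G X).edgeSet = e2 G X := by
  have h1 := (res G X).sum_degrees_eq_twice_card_edges
  have h2 : Nat.card (res G X).edgeSet = (res G X).edgeFinset.card := by
    rw [Nat.card_eq_fintype_card, SimpleGraph.edgeFinset_card]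
  rw [h2, ← h1]
  have h3 : ∀ v, (res G X).degree v = if v ∈ X then dg G X v else 0 := by
    intro v
    rw [← SimpleGraph.card_neighborFinset_eq_degree]
    by_cases hv : v ∈ X
    · rw [if_pos hv]
      unfold dg nb
      congr 1
      ext y
      rw [SimpleGraph.mem_neighborFinset, Finset.mem_filter]
      exact ⟨fun h => ⟨h.2.2, h.1⟩, fun h => ⟨h.2, hv, h.1⟩⟩
    · rw [if_neg hv, Finset.card_eq_zero]
      apply Finset.eq_empty_of_forall_notMem
      intro y hy
      rw [SimpleGraph.mem_neighborFinset] at hy
      exact hv hy.2.1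
  rw [Finset.sum_congr rfl fun v _ => h3 v]
  unfold e2
  rw [Finset.sum_ite_mem, Finset.univ_inter]

/-- a vertex without neighbours is alone in its component -/
theorem eul_iso {V : Type u} (G : SimpleGraph V) (v w : V) (h : ∀ y, ¬ G.Adj v y)
    (hr : G.Reachable v w) : v = w := by
  obtain ⟨p⟩ := hr
  cases p with
  | nil => rfl
  | cons hab _ => exact absurd hab (h _)

theorem eul_comp {V : Type u} [Fintype V] (G : SimpleGraph V) (X : Finset V)
    (hX : X.Nonempty) :
    Fintype.card V + 1 ≤ X.card + Nat.card (res G X).ConnectedComponent := by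
  obtain ⟨x0, hx0⟩ := hX
  let f : Option {v : V // v ∉ X} → (res G X).ConnectedComponent := fun o =>
    match o with
    | none => (res G X).connectedComponentMk x0
    | some v => (res G X).connectedComponentMk v.1
  have hiso : ∀ v, v ∉ X → ∀ y, ¬ (res G X).Adj v y := fun v hv y h => hv h.2.1
  have hf : Function.Injective f := by
    intro a b hab
    cases a with
    | none =>
      cases b with
      | none => rfl
      | some w =>
        have hr : (res G X).Reachable w.1 x0 :=
          (SimpleGraph.ConnectedComponent.exact hab).symm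
        exact absurd hx0 (by rw [← eul_iso _ _ _ (hiso w.1 w.2) hr]; exact w.2)
    | some v =>
      cases b with
      | none =>
        have hr : (res G X).Reachable v.1 x0 := SimpleGraph.ConnectedComponent.exact hab
        exact absurd hx0 (by rw [← eul_iso _ _ _ (hiso v.1 v.2) hr]; exact v.2)
      | some w =>
        have hr : (res G X).Reachable v.1 w.1 := SimpleGraph.ConnectedComponent.exact hab
        have := eul_iso _ _ _ (hiso v.1 v.2) hr
        exact congrArg some (Subtype.ext this)
  have h1 := Nat.card_le_card_of_injective f hf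
  have h2 : Nat.card (Option {v : V // v ∉ X}) = Fintype.card V - X.card + 1 := by
    rw [Nat.card_eq_fintype_card, Fintype.card_option, Fintype.card_subtype_compl]
    simp
  have h3 : X.card ≤ Fintype.card V := Finset.card_le_univ X
  omega

theorem eul_isol {V : Type u} [Fintype V] (G : SimpleGraph V) (X : Finset V)
    (hX : ∀ x ∈ X, ∃ y ∈ X, G.Adj x y) :
    Nat.card {v : V // ∀ w, ¬ (res G X).Adj v w} + X.card ≤ Fintype.card V := by
  have h1 : Nat.card {v : V // ∀ w, ¬ (res G X).Adj v w} ≤ Nat.card {v : V // v ∉ X} := by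
    apply Nat.card_le_card_of_injective
      (fun v : {v : V // ∀ w, ¬ (res G X).Adj v w} => (⟨v.1, fun hv => by
        obtain ⟨y, hy, hxy⟩ := hX v.1 hv
        exact v.2 y ⟨hxy, hv, hy⟩⟩ : {v : V // v ∉ X}))
    intro a b hab
    exact Subtype.ext (congrArg (fun z : {v : V // v ∉ X} => z.1) hab)
  have h2 : Nat.card {v : V // v ∉ X} = Fintype.card V - X.card := by
    rw [Nat.card_eq_fintype_card, Fintype.card_subtype_compl]
    simp
  have h3 : X.card ≤ Fintype.card V := Finset.card_le_univ X
  omega

/-- P6: Euler's formula for a connected set -/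
theorem eul (h1 : SBas.{u}) (h2 : SSub.{u}) (h3 : SFace.{u}) : SEul.{u} := by
  intro V _ G hp hg X hX he
  by_cases hP : Pe G X
  · have e10 : e2 G X = 10 := by
      unfold e2
      rw [Finset.sum_congr rfl fun x hx => hP.2 x hx, Finset.sum_const, hP.1]
      rfl
    have hc : 1 ≤ c5 G X := by
      unfold c5
      rw [Nat.succ_le_iff, Finset.card_pos]
      exact ⟨X, Finset.mem_filter.2 ⟨Finset.mem_powerset.2 le_rfl, hP⟩⟩
    rw [e10, hP.1]
    omega
  · have hle : res G X ≤ G := fun a b h => h.1
    obtain ⟨R, hR⟩ := h2 V G (res G X) hle hp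
    have hF := h3 V (res G X) R X (eul_G5 G X hg) (fun a b h => h.2.1) (eul_Cn G X hX)
      (by rw [eul_e2]; exact he) (by rw [eul_Pe G X X le_rfl]; exact hP)
    rw [eul_e2, eul_c5] at hF
    have hE := eul_edges G X
    have hC := eul_comp G X hX.1
    have hcard : 2 ≤ X.card := by
      by_contra hlt
      have hpos : 0 < X.card := hX.1.card_pos
      have h1c : X.card = 1 := by omega
      obtain ⟨x, hx⟩ := Finset.card_eq_one.1 h1c
      have : e2 G X = 0 := by
        rw [hx]
        unfold e2 dg nb
        rw [Finset.sum_singleton, Finset.card_eq_zero]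
        apply Finset.filter_eq_empty_iff.2
        intro y hy
        rw [Finset.mem_singleton] at hy
        subst hy
        exact G.irrefl
      omega
    have hN : ∀ x ∈ X, ∃ y ∈ X, G.Adj x y := by
      intro x hx
      have hne : ({x} : Finset V) ≠ X := by
        intro h
        rw [← h, Finset.card_singleton] at hcard
        omega
      obtain ⟨a, ha, b, hb, hab⟩ := hX.2 {x} (Finset.singleton_subset_iff.2 hx)
        (Finset.singleton_nonempty x) hne
      rw [Finset.mem_singleton] at ha
      subst ha
      exact ⟨b, (Finset.mem_sdiff.1 hb).1, hab⟩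
    have hI := eul_isol G X hN
    rw [Nat.card_eq_fintype_card] at hR
    omega

end Pool.Agent.FX
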