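import Pool.Agent.FX.Face
import Pool.Agent.FX.Eul
import Pool.Agent.FX.Edge

/-!
# MP_07b392_co, project FX: the Euler bound for girth five, small connected sets
-/

set_option autoImplicit false

namespace Pool.Agent.FX

open Classical
open Pool.Agent.H41.Fire (IsPlanar Rotation cycles rev)

universe u v

/-- every face has length at least five -/
theorem face5 (V : Type u) [Fintype V] (G : SimpleGraph V) (R : Rotation G) (X : Finset V)
    (hG : G5 G) (hX : ∀ a b, G.Adj a b → a ∈ X) (hC : Cn G X) (h2 : 2 * X.card ≤ e2 G X) :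
    5 * cycles R.face ≤ e2 G X := by
  obtain ⟨f, hf⟩ : ∃ f, f = R.face := ⟨_, rfl⟩
  let sd : Setoid G.Dart := Equiv.Perm.SameCycle.setoid f
  let _ : Fintype (Quotient sd) := Fintype.ofFinite _
  have hcyc : cycles R.face = Fintype.card (Quotient sd) := by
    rw [cycles, ← hf]
    exact Nat.card_eq_fintype_card
  rw [hcyc]
  obtain ⟨pi, hpi⟩ : ∃ pi : G.Dart → Quotient sd, pi = Quotient.mk sd := ⟨_, rfl⟩
  have hcount : Fintype.card G.Dart =
      ∑ q : Quotient sd, (Finset.univ.filter fun d : G.Dart => pi d = q).card := by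
    rw [← Finset.card_univ]
    exact Finset.card_eq_sum_card_fiberwise (fun d _ => Finset.mem_univ _)
  have hfib : ∀ q : Quotient sd, 5 ≤ (Finset.univ.filter fun d : G.Dart => pi d = q).card := by
    intro q
    have n1 : (f ^ 1) q.out ≠ q.out := by
      simp only [pow_succ, pow_zero, one_mul]
      rw [hf]; exact fa_no1 R _
    have n2 : (f ^ 2) q.out ≠ q.out := by
      simp only [pow_succ, pow_zero, one_mul, Equiv.Perm.mul_apply]
      rw [hf]; exact fa_no2 R hX hC h2 _
    have n3 : (f ^ 3) q.out ≠ q.out := by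
      simp only [pow_succ, pow_zero, one_mul, Equiv.Perm.mul_apply]
      rw [hf]; exact fa_no3 R hG _
    have n4 : (f ^ 4) q.out ≠ q.out := by
      simp only [pow_succ, pow_zero, one_mul, Equiv.Perm.mul_apply]
      rw [hf]; exact fa_no4 R hG hX hC h2 _
    have hset : (Finset.univ.filter fun d : G.Dart => pi d = q) =
        Finset.univ.filter fun d : G.Dart =>
          (Quotient.mk (Equiv.Perm.SameCycle.setoid f) d) = Quotient.mk _ q.out := by
      refine Finset.filter_congr fun d _ => ?_
      have h8 : (Quotient.mk (Equiv.Perm.SameCycle.setoid f) q.out) = q := Quotient.out_eq q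
      rw [h8, hpi]
    rw [hset]
    apply fa_card f q.out 5
    intro i h0 h1
    interval_cases i
    exacts [n1, n2, n3, n4]
  have h3 : ∑ _q : Quotient sd, 5 ≤ ∑ q : Quotient sd,
      (Finset.univ.filter fun d : G.Dart => pi d = q).card :=
    Finset.sum_le_sum fun q _ => hfib q
  rw [← hcount] at h3
  simp only [Finset.sum_const, Finset.card_univ, smul_eq_mul] at h3
  rw [fa_e2 hX] at h3
  omega

/-- Euler's bound for connected sets with a cycle -/
theorem eul5 (h2 : SSub.{u}) (V : Type u) [Fintype V] (G : SimpleGraph V) (hp : IsPlanar G)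
    (hg : G5 G) (X : Finset V) (hX : Cn G X) (he : 2 * X.card ≤ e2 G X) :
    3 * e2 G X + 20 ≤ 10 * X.card := by
  have hle : res G X ≤ G := fun a b h => h.1
  obtain ⟨R, hR⟩ := h2 V G (res G X) hle hp
  have hF := face5 V (res G X) R X (eul_G5 G X hg) (fun a b h => h.2.1) (eul_Cn G X hX)
    (by rw [eul_e2]; exact he)
  rw [eul_e2] at hF
  have hE := eul_edges G X
  have hC := eul_comp G X hX.1
  have hcard : 2 ≤ X.card := by
    by_contra hlt
    have hpos : 0 < X.card := hX.1.card_pos
    have h1c : X.card = 1 := by omega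
    obtain ⟨x, hx⟩ := Finset.card_eq_one.1 h1c
    have : e2 G X = 0 := by
      rw [hx]
      unfold e2 dg nb
      rw [Finset.sum_singleton, Finset.card_eq_zero]
      apply Finset.filter_eq_empty_iff.2
      intro y hy
      rw [Finset.mem_singleton] at hy
      subst hy
      exact G.irrefl
    omega
  have hN : ∀ x ∈ X, ∃ y ∈ X, G.Adj x y := by
    intro x hx
    have hne : ({x} : Finset V) ≠ X := by
      intro h
      rw [← h, Finset.card_singleton] at hcard
      omega
    obtain ⟨a, ha, b, hb, hab⟩ := hX.2 {x} (Finset.singleton_subset_iff.2 hx)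
      (Finset.singleton_nonempty x) hne
    rw [Finset.mem_singleton] at ha
    subst ha
    exact ⟨b, (Finset.mem_sdiff.1 hb).1, hab⟩
  have hI := eul_isol G X hN
  rw [Nat.card_eq_fintype_card] at hR
  omega

/-- the density condition for large connected sets suffices -/
theorem denE_of_large (h1 : SBas.{u}) (h2 : SSub.{u}) (V : Type u) [Fintype V]
    (G : SimpleGraph V) (hp : IsPlanar G) (hg : G5 G)
    (h : ∀ X : Finset V, Cn G X → 21 ≤ X.card → 8 * e2 G X + 20 ≤ 25 * X.card) : DenE G := by
  intro X hX
  by_cases hc : 21 ≤ X.card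
  · exact h X hX hc
  · by_cases he : 2 * X.card ≤ e2 G X
    · have := eul5 h2 V G hp hg X hX he
      omega
    · have hev := (h1 V G).1 X
      have hpos : 0 < X.card := hX.1.card_pos
      obtain ⟨m, hm⟩ := hev
      omega

end Pool.Agent.FX
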