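import Pool.Agent.FX.Stm

/-!
# MP_07b392_co, project FX, row C2: extension of a colouring

`ext2 : SExt`.
-/

set_option autoImplicit false

namespace Pool.Agent.FX

open Classical

universe u v

theorem ext2_mem_nb {V : Type u} (G : SimpleGraph V) (X : Finset V) (x y : V) :
    y ∈ nb G X x ↔ y ∈ X ∧ G.Adj x y := by
  unfold nb
  exact Finset.mem_filter

/-- row C2 -/
theorem ext2 : SExt.{u, v} := by
  intro V C _ G L A B φ hAB hφ hφ2
  refine ⟨?_, ?_⟩
  · rintro ⟨ψ, hψ, hψ2⟩
    refine ⟨fun x => if x ∈ A then φ x else ψ x, ?_, ?_⟩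
    · intro x hx
      by_cases hA : x ∈ A
      · simp only [if_pos hA]
        exact hφ x hA
      · simp only [if_neg hA]
        have hB : x ∈ B := (Finset.mem_union.1 hx).resolve_left hA
        exact (Finset.mem_sdiff.1 (hψ x hB)).1
    · intro x hx y hy hxy
      by_cases hAx : x ∈ A
      · by_cases hAy : y ∈ A
        · simp only [if_pos hAx, if_pos hAy]
          exact hφ2 x hAx y hAy hxy
        · simp only [if_pos hAx, if_neg hAy]
          have hB : y ∈ B := (Finset.mem_union.1 hy).resolve_left hAy
          have h1 := (Finset.mem_sdiff.1 (hψ y hB)).2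
          intro h2
          apply h1
          rw [← h2]
          exact Finset.mem_image_of_mem φ ((ext2_mem_nb G A y x).2 ⟨hAx, hxy.symm⟩)
      · have hBx : x ∈ B := (Finset.mem_union.1 hx).resolve_left hAx
        by_cases hAy : y ∈ A
        · simp only [if_neg hAx, if_pos hAy]
          have h1 := (Finset.mem_sdiff.1 (hψ x hBx)).2
          intro h2
          apply h1
          rw [h2]
          exact Finset.mem_image_of_mem φ ((ext2_mem_nb G A x y).2 ⟨hAy, hxy⟩)
        · simp only [if_neg hAx, if_neg hAy]
          have hBy : y ∈ B := (Finset.mem_union.1 hy).resolve_left hAy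
          exact hψ2 x hBx y hBy hxy
  · intro x
    have h1 : (L x).card ≤ (L x \ (nb G A x).image φ).card + ((nb G A x).image φ).card :=
      Finset.card_le_card_sdiff_add_card
    have h2 : ((nb G A x).image φ).card ≤ dg G A x := Finset.card_image_le
    omega

end Pool.Agent.FX
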