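import Pool.Agent.FX.Facea

/-!
# MP_07b392_co, project FX: the faces of a connected graph of girth at least five (row P5), part 2
-/

set_option autoImplicit false

namespace Pool.Agent.FX

open Classical
open Pool.Agent.H41.Fire (IsPlanar Rotation cycles rev)

universe u

variable {V : Type u} {G : SimpleGraph V}

/-- the vertices of the first five darts of a face -/
noncomputable def FaP (f : Equiv.Perm G.Dart) (x : G.Dart) : Finset V :=
  {x.fst, (f x).fst, (f (f x)).fst, (f (f (f x))).fst, (f (f (f (f x)))).fst}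

lemma fa_cyc (R : Rotation G) (x : G.Dart)
    (h : R.face (R.face (R.face (R.face (R.face x)))) = x) :
    FaC G x.fst (R.face x).fst (R.face (R.face x)).fst (R.face (R.face (R.face x))).fst
      (R.face (R.face (R.face (R.face x)))).fst := by
  have a0 := x.adj
  have a1 := (R.face x).adj
  have a2 := (R.face (R.face x)).adj
  have a3 := (R.face (R.face (R.face x))).adj
  have a4 := (R.face (R.face (R.face (R.face x)))).adj
  rw [← fa_fst R x] at a0
  rw [← fa_fst R (R.face x)] at a1
  rw [← fa_fst R (R.face (R.face x))] at a2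
  rw [← fa_fst R (R.face (R.face (R.face x)))] at a3
  rw [← fa_fst R (R.face (R.face (R.face (R.face x)))), h] at a4
  exact ⟨a0, a1, a2, a3, a4⟩

lemma fa_uniq0 (R : Rotation G) {X : Finset V} (hG : G5 G) (hX : ∀ a b, G.Adj a b → a ∈ X)
    (hC : Cn G X) (hP : ¬ Pe G X) (x y : G.Dart)
    (h5 : R.face (R.face (R.face (R.face (R.face x)))) = x)
    (k5 : R.face (R.face (R.face (R.face (R.face y)))) = y)
    (hs : FaP R.face y = FaP R.face x) (h0 : y.fst = x.fst) : y = x := by
  have cx := fa_cyc R x h5
  have cy := fa_cyc R y k5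
  have hs' : ∀ w, w ∈ FaP R.face y → w ∈ FaP R.face x := fun w hw => hs ▸ hw
  simp only [FaP, Finset.mem_insert, Finset.mem_singleton] at hs'
  rcases fa_rev hG cx cy hs' h0 with h | ⟨i1, i2, i3, i4⟩
  · rw [fa_fst, fa_fst] at h
    exact fa_ext h0 h
  exfalso
  apply hP
  obtain ⟨x1, hx1⟩ : ∃ z, z = R.face x := ⟨_, rfl⟩
  rw [← hx1] at h5 cx i1 i2 i3 i4
  obtain ⟨x2, hx2⟩ : ∃ z, z = R.face x1 := ⟨_, rfl⟩
  rw [← hx2] at h5 cx i1 i2 i3
  obtain ⟨x3, hx3⟩ : ∃ z, z = R.face x2 := ⟨_, rfl⟩
  rw [← hx3] at h5 cx i1 i2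
  obtain ⟨x4, hx4⟩ : ∃ z, z = R.face x3 := ⟨_, rfl⟩
  rw [← hx4] at h5 cx i1
  obtain ⟨y1, hy1⟩ : ∃ z, z = R.face y := ⟨_, rfl⟩
  rw [← hy1] at k5 cy i1 i2 i3 i4
  obtain ⟨y2, hy2⟩ : ∃ z, z = R.face y1 := ⟨_, rfl⟩
  rw [← hy2] at k5 cy i2 i3 i4
  obtain ⟨y3, hy3⟩ : ∃ z, z = R.face y2 := ⟨_, rfl⟩
  rw [← hy3] at k5 cy i3 i4
  obtain ⟨y4, hy4⟩ : ∃ z, z = R.face y3 := ⟨_, rfl⟩
  rw [← hy4] at k5 cy i4
  have s0 : x.snd = x1.fst := by rw [hx1, fa_fst]
  have s1 : x1.snd = x2.fst := by rw [hx2, fa_fst]
  have s2 : x2.snd = x3.fst := by rw [hx3, fa_fst]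
  have s3 : x3.snd = x4.fst := by rw [hx4, fa_fst]
  have s4 : x4.snd = x.fst := by rw [← fa_fst R x4, h5]
  have t0 : y.snd = y1.fst := by rw [hy1, fa_fst]
  have t1 : y1.snd = y2.fst := by rw [hy2, fa_fst]
  have t2 : y2.snd = y3.fst := by rw [hy3, fa_fst]
  have t3 : y3.snd = y4.fst := by rw [hy4, fa_fst]
  have t4 : y4.snd = y.fst := by rw [← fa_fst R y4, k5]
  have e0 : y = x4.symm := fa_ext (by rw [h0, ← s4]; rfl) (by rw [t0, i1]; rfl)
  have e1 : y1 = x3.symm := fa_ext (by rw [i1, ← s3]; rfl) (by rw [t1, i2]; rfl)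
  have e2 : y2 = x2.symm := fa_ext (by rw [i2, ← s2]; rfl) (by rw [t2, i3]; rfl)
  have e3 : y3 = x1.symm := fa_ext (by rw [i3, ← s1]; rfl) (by rw [t3, i4]; rfl)
  have e4 : y4 = x.symm := fa_ext (by rw [i4, ← s0]; rfl) (by rw [t4, h0]; rfl)
  have w4 := fa_two R x3 x4 hx4.symm (by rw [← e0, ← e1, hy1])
  have w3 := fa_two R x2 x3 hx3.symm (by rw [← e1, ← e2, hy2])
  have w2 := fa_two R x1 x2 hx2.symm (by rw [← e2, ← e3, hy3])
  have w1 := fa_two R x x1 hx1.symm (by rw [← e3, ← e4, hy4])
  have w0 := fa_two R x4 x h5 (by rw [← e4, ← e0, k5])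
  have hA : ({x.fst, x1.fst, x2.fst, x3.fst, x4.fst} : Finset V) = X := by
    refine fa_closed hX hC ⟨x.fst, by simp⟩ ?_ ?_
    · intro a ha
      simp only [Finset.mem_insert, Finset.mem_singleton] at ha
      rcases ha with rfl | rfl | rfl | rfl | rfl
      · exact ⟨_, x.adj⟩
      · exact ⟨_, x1.adj⟩
      · exact ⟨_, x2.adj⟩
      · exact ⟨_, x3.adj⟩
      · exact ⟨_, x4.adj⟩
    · intro a ha b hab
      simp only [Finset.mem_insert, Finset.mem_singleton] at ha ⊢
      rcases ha with rfl | rfl | rfl | rfl | rfl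
      · rcases w0 b hab with h | h
        · rw [h]; tauto
        · rw [h, s0]; tauto
      · rcases w1 b hab with h | h
        · rw [h]; tauto
        · rw [h, s1]; tauto
      · rcases w2 b hab with h | h
        · rw [h]; tauto
        · rw [h, s2]; tauto
      · rcases w3 b hab with h | h
        · rw [h]; tauto
        · rw [h, s3]; tauto
      · rcases w4 b hab with h | h
        · rw [h]; tauto
        · rw [h, s4]; tauto
  rw [← hA]
  exact fa_pe hG cx

lemma fa_rotP (R : Rotation G) (x : G.Dart)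
    (h : R.face (R.face (R.face (R.face (R.face x)))) = x) :
    FaP R.face (R.face x) = FaP R.face x := by
  ext w
  simp only [FaP, Finset.mem_insert, Finset.mem_singleton, h]
  tauto

lemma fa_uniq (R : Rotation G) {X : Finset V} (hG : G5 G) (hX : ∀ a b, G.Adj a b → a ∈ X)
    (hC : Cn G X) (hP : ¬ Pe G X) (x y : G.Dart)
    (h5 : R.face (R.face (R.face (R.face (R.face x)))) = x)
    (k5 : R.face (R.face (R.face (R.face (R.face y)))) = y)
    (hs : FaP R.face y = FaP R.face x) : R.face.SameCycle x y := by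
  have hy : y.fst ∈ FaP R.face x := by
    rw [← hs]
    simp [FaP]
  have r1 := fa_rotP R x h5
  have g1 : R.face (R.face (R.face (R.face (R.face (R.face x))))) = R.face x := by rw [h5]
  have r2 := fa_rotP R (R.face x) g1
  have g2 : R.face (R.face (R.face (R.face (R.face (R.face (R.face x)))))) =
    R.face (R.face x) := by rw [h5]
  have r3 := fa_rotP R (R.face (R.face x)) g2
  have g3 : R.face (R.face (R.face (R.face (R.face (R.face (R.face (R.face x))))))) =
    R.face (R.face (R.face x)) := by rw [h5]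
  have r4 := fa_rotP R (R.face (R.face (R.face x))) g3
  have g4 : R.face (R.face (R.face (R.face (R.face (R.face (R.face (R.face (R.face x)))))))) =
    R.face (R.face (R.face (R.face x))) := by rw [h5]
  have c0 : R.face.SameCycle x x := Equiv.Perm.SameCycle.refl _ _
  have c1 : R.face.SameCycle x (R.face x) := Equiv.Perm.sameCycle_apply_right.2 c0
  have c2 : R.face.SameCycle x (R.face (R.face x)) := Equiv.Perm.sameCycle_apply_right.2 c1
  have c3 : R.face.SameCycle x (R.face (R.face (R.face x))) :=
    Equiv.Perm.sameCycle_apply_right.2 c2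
  have c4 : R.face.SameCycle x (R.face (R.face (R.face (R.face x)))) :=
    Equiv.Perm.sameCycle_apply_right.2 c3
  simp only [FaP, Finset.mem_insert, Finset.mem_singleton] at hy
  rcases hy with h | h | h | h | h
  · rw [fa_uniq0 R hG hX hC hP x y h5 k5 hs h]
  · rw [fa_uniq0 R hG hX hC hP (R.face x) y g1 k5 (hs.trans r1.symm) h]
    exact c1
  · rw [fa_uniq0 R hG hX hC hP (R.face (R.face x)) y g2 k5 (hs.trans (r2.trans r1).symm) h]
    exact c2
  · rw [fa_uniq0 R hG hX hC hP (R.face (R.face (R.face x))) y g3 k5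
      (hs.trans (r3.trans (r2.trans r1)).symm) h]
    exact c3
  · rw [fa_uniq0 R hG hX hC hP (R.face (R.face (R.face (R.face x)))) y g4 k5
      (hs.trans (r4.trans (r3.trans (r2.trans r1))).symm) h]
    exact c4

/-! ### counting -/

/-- a class of a permutation has at least `k` elements if the first iterates do not return -/
lemma fa_card {D : Type u} [Fintype D] (f : Equiv.Perm D) (x : D) (k : ℕ)
    (h : ∀ i, 0 < i → i < k → (f ^ i) x ≠ x) :
    k ≤ (Finset.univ.filter fun d : D =>
      (Quotient.mk (Equiv.Perm.SameCycle.setoid f) d) = Quotient.mk _ x).card := by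
  have h1 : ((Finset.range k).image fun i => (f ^ i) x).card = k := by
    rw [Finset.card_image_of_injOn, Finset.card_range]
    have key : ∀ i j : ℕ, i < k → j < k → i < j → (f ^ i) x ≠ (f ^ j) x := by
      intro i j _ hj hij he
      refine h (j - i) (by omega) (by omega) ?_
      have h2 : (f ^ j) x = (f ^ i) ((f ^ (j - i)) x) := by
        rw [← Equiv.Perm.mul_apply, ← pow_add]
        congr 2
        omega
      rw [h2] at he
      exact ((f ^ i).injective he).symm
    intro i hi j hj he
    have hi' : i < k := by simpa using hi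
    have hj' : j < k := by simpa using hj
    rcases lt_trichotomy i j with h2 | h2 | h2
    · exact absurd he (key i j hi' hj' h2)
    · exact h2
    · exact absurd he.symm (key j i hj' hi' h2)
  rw [← h1]
  refine Finset.card_le_card fun d hd => ?_
  obtain ⟨i, _, rfl⟩ := Finset.mem_image.1 hd
  refine Finset.mem_filter.2 ⟨Finset.mem_univ _, Quotient.sound ?_⟩
  exact (Equiv.Perm.sameCycle_pow_left.2 (Equiv.Perm.SameCycle.refl _ _) :
    f.SameCycle ((f ^ i) x) x)

lemma fa_e2 [Fintype V] {X : Finset V} (hX : ∀ a b, G.Adj a b → a ∈ X) :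
    Fintype.card G.Dart = e2 G X := by
  rw [G.dart_card_eq_sum_degrees, e2]
  have h1 : ∀ v, G.degree v = dg G X v := by
    intro v
    rw [dg, ← G.card_neighborFinset_eq_degree]
    refine congrArg Finset.card ?_
    ext w
    simp only [SimpleGraph.mem_neighborFinset, nb, Finset.mem_filter]
    exact ⟨fun h => ⟨hX _ _ h.symm, h⟩, fun h => h.2⟩
  simp only [h1]
  symm
  refine Finset.sum_subset (Finset.subset_univ X) fun x _ hx => ?_
  rw [dg, Finset.card_eq_zero, nb]
  refine Finset.filter_eq_empty_iff.2 fun y _ h => hx (hX _ _ h)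

/-- row P5 -/
theorem face (_h1 : SBas.{u}) : SFace.{u} := by
  intro V _ G R X hG hX hC h2 hP
  obtain ⟨f, hf⟩ : ∃ f, f = R.face := ⟨_, rfl⟩
  let sd : Setoid G.Dart := Equiv.Perm.SameCycle.setoid f
  let _ : Fintype (Quotient sd) := Fintype.ofFinite _
  have hcyc : cycles R.face = Fintype.card (Quotient sd) := by
    rw [cycles, ← hf]
    exact Nat.card_eq_fintype_card
  rw [hcyc]
  obtain ⟨pi, hpi⟩ : ∃ pi : G.Dart → Quotient sd, pi = Quotient.mk sd := ⟨_, rfl⟩
  have hcount : Fintype.card G.Dart =
      ∑ q : Quotient sd, (Finset.univ.filter fun d : G.Dart => pi d = q).card := by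
    rw [← Finset.card_univ]
    exact Finset.card_eq_sum_card_fiberwise (fun d _ => Finset.mem_univ _)
  obtain ⟨five, hfive⟩ : ∃ five : Quotient sd → Prop,
    five = fun q => f (f (f (f (f q.out)))) = q.out := ⟨_, rfl⟩
  have hfib : ∀ q : Quotient sd, 6 ≤ (Finset.univ.filter fun d : G.Dart => pi d = q).card +
      (if five q then 1 else 0) := by
    intro q
    have hq : pi q.out = q := by rw [hpi]; exact Quotient.out_eq q
    have n1 : (f ^ 1) q.out ≠ q.out := by
      simp only [pow_succ, pow_zero, one_mul]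
      rw [hf]; exact fa_no1 R _
    have n2 : (f ^ 2) q.out ≠ q.out := by
      simp only [pow_succ, pow_zero, one_mul, Equiv.Perm.mul_apply]
      rw [hf]; exact fa_no2 R hX hC h2 _
    have n3 : (f ^ 3) q.out ≠ q.out := by
      simp only [pow_succ, pow_zero, one_mul, Equiv.Perm.mul_apply]
      rw [hf]; exact fa_no3 R hG _
    have n4 : (f ^ 4) q.out ≠ q.out := by
      simp only [pow_succ, pow_zero, one_mul, Equiv.Perm.mul_apply]
      rw [hf]; exact fa_no4 R hG hX hC h2 _
    have hset : (Finset.univ.filter fun d : G.Dart => pi d = q) =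
        Finset.univ.filter fun d : G.Dart =>
          (Quotient.mk (Equiv.Perm.SameCycle.setoid f) d) = Quotient.mk _ q.out := by
      refine Finset.filter_congr fun d _ => ?_
      have h8 : (Quotient.mk (Equiv.Perm.SameCycle.setoid f) q.out) = q := Quotient.out_eq q
      rw [h8, hpi]
    rw [hset]
    by_cases h5 : five q
    · rw [if_pos h5]
      have := fa_card f q.out 5 (by
        intro i h0 h1
        interval_cases i
        exacts [n1, n2, n3, n4])
      omega
    · rw [if_neg h5]
      have n5 : (f ^ 5) q.out ≠ q.out := by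
        rw [hfive] at h5
        simpa only [pow_succ, pow_zero, one_mul, Equiv.Perm.mul_apply] using h5
      have := fa_card f q.out 6 (by
        intro i h0 h1
        interval_cases i
        exacts [n1, n2, n3, n4, n5])
      omega
  have hsum : 6 * Fintype.card (Quotient sd) ≤
      Fintype.card G.Dart + (Finset.univ.filter five).card := by
    have h3 : ∑ _q : Quotient sd, 6 ≤ ∑ q : Quotient sd,
        ((Finset.univ.filter fun d : G.Dart => pi d = q).card + (if five q then 1 else 0)) :=
      Finset.sum_le_sum fun q _ => hfib q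
    rw [Finset.sum_add_distrib, ← hcount] at h3
    simp only [Finset.sum_const, Finset.card_univ, smul_eq_mul] at h3
    rw [Finset.card_filter]
    omega
  have hfv : (Finset.univ.filter five).card ≤ c5 G X := by
    refine Finset.card_le_card_of_injOn (fun q => FaP f q.out) ?_ ?_
    · intro q hq
      have hq5 : five q := by simpa using hq
      rw [hfive] at hq5
      rw [hf] at hq5
      have hc := fa_cyc R q.out hq5
      refine Finset.mem_coe.2 (Finset.mem_filter.2 ⟨Finset.mem_powerset.2 ?_, ?_⟩)
      · intro w hw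
        rw [hf] at hw
        simp only [FaP, Finset.mem_insert, Finset.mem_singleton] at hw
        rcases hw with rfl | rfl | rfl | rfl | rfl
        · exact hX _ _ (SimpleGraph.Dart.adj _)
        · exact hX _ _ (SimpleGraph.Dart.adj _)
        · exact hX _ _ (SimpleGraph.Dart.adj _)
        · exact hX _ _ (SimpleGraph.Dart.adj _)
        · exact hX _ _ (SimpleGraph.Dart.adj _)
      · rw [hf]
        exact fa_pe hG hc
    · intro q hq q' hq' he
      have hq5 : five q := by simpa using hq
      have hq5' : five q' := by simpa using hq'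
      rw [hfive] at hq5 hq5'
      rw [hf] at hq5 hq5'
      have he' : FaP R.face q'.out = FaP R.face q.out := by
        rw [← hf]; exact he.symm
      have hs := fa_uniq R hG hX hC hP q.out q'.out hq5 hq5' he'
      rw [← hf] at hs
      rw [← Quotient.out_eq q, ← Quotient.out_eq q']
      exact Quotient.sound hs
  rw [fa_e2 hX] at hsum
  omega

end Pool.Agent.FX
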