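import Pool.Agent.FX.Stm

/-!
# MP_07b392_co, project FX: the faces of a connected graph of girth at least five (row P5)
-/

set_option autoImplicit false

namespace Pool.Agent.FX

open Classical
open Pool.Agent.H41.Fire (IsPlanar Rotation cycles rev)

universe u

variable {V : Type u} {G : SimpleGraph V}

/-! ### darts and faces -/

lemma fa_fst (R : Rotation G) (d : G.Dart) : (R.face d).fst = d.snd := R.fst_nxt d.symm

lemma fa_ext {x y : G.Dart} (h1 : x.fst = y.fst) (h2 : x.snd = y.snd) : x = y :=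
  SimpleGraph.Dart.ext _ _ (Prod.ext h1 h2)

lemma fa_nxt (R : Rotation G) (d : G.Dart) : R.nxt d.symm = R.face d := rfl

/-- two darts that are swapped by `nxt` are the only darts at their vertex -/
lemma fa_sw (R : Rotation G) (a b : G.Dart) (h1 : R.nxt a = b) (h2 : R.nxt b = a) :
    ∀ w, G.Adj a.fst w → w = a.snd ∨ w = b.snd := by
  intro w hw
  obtain ⟨i, hi⟩ := R.sameCycle a ⟨(a.fst, w), hw⟩ rfl
  have hff : R.nxt (R.nxt a) = a := by rw [h1, h2]
  rcases Equiv.Perm.zpow_apply_eq_of_apply_apply_eq_self hff i with h | h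
  · left
    rw [h] at hi
    exact congrArg (fun d : G.Dart => d.snd) hi.symm
  · right
    rw [h, h1] at hi
    exact congrArg (fun d : G.Dart => d.snd) hi.symm

/-- backtracking -/
lemma fa_bt (R : Rotation G) (x : G.Dart) (h : R.face x = x.symm) :
    ∀ w, G.Adj x.snd w → w = x.fst := by
  intro w hw
  have h1 : R.nxt x.symm = x.symm := h
  rcases fa_sw R x.symm x.symm h1 h1 w hw with h | h <;> exact h

/-- a face passed in both directions -/
lemma fa_two (R : Rotation G) (x y : G.Dart) (h1 : R.face x = y) (h2 : R.face y.symm = x.symm) :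
    ∀ w, G.Adj y.fst w → w = x.fst ∨ w = y.snd := by
  intro w hw
  have h3 : R.nxt x.symm = y := h1
  have h4 : R.nxt y = x.symm := by
    have h5 : R.nxt y.symm.symm = x.symm := h2
    rwa [SimpleGraph.Dart.symm_symm] at h5
  have h6 : x.symm.fst = y.fst := by rw [← h3, R.fst_nxt]
  exact fa_sw R x.symm y h3 h4 w (by rw [h6]; exact hw)

/-! ### small components -/

lemma fa_closed {X A : Finset V} (hX : ∀ a b, G.Adj a b → a ∈ X) (hC : Cn G X)
    (hA : A.Nonempty) (hn : ∀ a ∈ A, ∃ b, G.Adj a b) (hcl : ∀ a ∈ A, ∀ b, G.Adj a b → b ∈ A) :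
    A = X := by
  by_contra h
  have hAX : A ⊆ X := by
    intro a ha
    obtain ⟨b, hb⟩ := hn a ha
    exact hX a b hb
  obtain ⟨a, ha, b, hb, hab⟩ := hC.2 A hAX hA h
  exact (Finset.mem_sdiff.1 hb).2 (hcl a ha b hab)

lemma fa_small {X : Finset V} (h2 : 2 * X.card ≤ e2 G X) (c : V) (hc : dg G X c ≤ 2)
    (h1 : ∀ x ∈ X, x ≠ c → dg G X x ≤ 1) (a b : V) (ha : a ∈ X) (hb : b ∈ X) (hab : a ≠ b) :
    False := by
  have h3 : 1 < X.card := Finset.one_lt_card.mpr ⟨a, ha, b, hb, hab⟩
  have h4 : e2 G X ≤ ∑ x ∈ X, (1 + if x = c then 1 else 0) := by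
    refine Finset.sum_le_sum fun x hx => ?_
    by_cases hxc : x = c
    · subst hxc
      simpa using hc
    · simpa [hxc] using h1 x hx hxc
  have h5 : ∑ x ∈ X, (1 + if x = c then 1 else 0) ≤ X.card + 1 := by
    rw [Finset.sum_add_distrib, Finset.sum_ite_eq']
    simp only [Finset.sum_const, smul_eq_mul, mul_one]
    split <;> omega
  omega

lemma fa_dg1 {X : Finset V} {x y : V} (h : ∀ w, G.Adj x w → w = y) : dg G X x ≤ 1 := by
  have h1 : nb G X x ⊆ {y} := by
    intro w hw
    exact Finset.mem_singleton.2 (h w (Finset.mem_filter.1 hw).2)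
  simpa [dg] using Finset.card_le_card h1

lemma fa_dg2 {X : Finset V} {x y z : V} (h : ∀ w, G.Adj x w → w = y ∨ w = z) :
    dg G X x ≤ 2 := by
  have h1 : nb G X x ⊆ {y, z} := by
    intro w hw
    rcases h w (Finset.mem_filter.1 hw).2 with h | h <;> simp [h]
  exact (Finset.card_le_card h1).trans Finset.card_le_two

section short

variable {X : Finset V} (R : Rotation G) (hG : G5 G) (hX : ∀ a b, G.Adj a b → a ∈ X)
  (hC : Cn G X) (h2 : 2 * X.card ≤ e2 G X)

lemma fa_no1 (x : G.Dart) : R.face x ≠ x := by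
  intro h
  have h1 := fa_fst R x
  rw [h] at h1
  exact x.adj.ne h1

include hX hC h2 in
lemma fa_no2 (x : G.Dart) : R.face (R.face x) ≠ x := by
  intro h
  have h1 := fa_fst R x
  have h3 := fa_fst R (R.face x)
  rw [h] at h3
  have h4 : R.face x = x.symm := fa_ext h1 h3.symm
  have h5 : R.face x.symm = x.symm.symm := by
    rw [SimpleGraph.Dart.symm_symm, ← h4]
    exact h
  have b1 := fa_bt R x h4
  have b2 : ∀ w, G.Adj x.fst w → w = x.snd := fa_bt R x.symm h5
  have hA : ({x.fst, x.snd} : Finset V) = X := by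
    refine fa_closed hX hC ⟨x.fst, by simp⟩ ?_ ?_
    · intro a ha
      rcases Finset.mem_insert.1 ha with rfl | ha
      · exact ⟨_, x.adj⟩
      · rw [Finset.mem_singleton.1 ha]
        exact ⟨_, x.adj.symm⟩
    · intro a ha b hab
      rcases Finset.mem_insert.1 ha with rfl | ha
      · rw [b2 b hab]
        simp
      · rw [Finset.mem_singleton.1 ha] at hab
        rw [b1 b hab]
        simp
  refine fa_small h2 x.fst ((fa_dg1 b2).trans (by norm_num)) ?_ x.fst x.snd
    (hX _ _ x.adj) (hX _ _ x.adj.symm) x.adj.ne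
  intro y hy hne
  rw [← hA] at hy
  rcases Finset.mem_insert.1 hy with h | h
  · exact absurd h hne
  · rw [Finset.mem_singleton.1 h]
    exact fa_dg1 b1

include hG in
lemma fa_no3 (x : G.Dart) : R.face (R.face (R.face x)) ≠ x := by
  intro h
  have a0 := x.adj
  have a1 := (R.face x).adj
  have a2 := (R.face (R.face x)).adj
  have h3 := fa_fst R (R.face (R.face x))
  rw [h] at h3
  have a1' : G.Adj x.snd (R.face x).snd := by
    rw [← fa_fst R x]; exact a1
  have a2' : G.Adj (R.face x).snd x.fst := by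
    rw [← fa_fst R (R.face x), h3]; exact a2
  exact hG.1 _ _ _ a0 a1' a2'

include hX hC h2 in
lemma fa_no4a (x : G.Dart) (h : R.face (R.face (R.face (R.face x))) = x)
    (hv : (R.face x).fst = (R.face (R.face (R.face x))).fst) : False := by
  obtain ⟨y, hy⟩ : ∃ y, y = R.face x := ⟨_, rfl⟩
  obtain ⟨z, hz⟩ : ∃ z, z = R.face y := ⟨_, rfl⟩
  obtain ⟨t, ht⟩ : ∃ t, t = R.face z := ⟨_, rfl⟩
  rw [← hy, ← hz, ← ht] at h hv
  have fx : x.snd = y.fst := by rw [hy, fa_fst]
  have fy : y.snd = z.fst := by rw [hz, fa_fst]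
  have fz : z.snd = t.fst := by rw [ht, fa_fst]
  have ft : t.snd = x.fst := by rw [← fa_fst R t, h]
  have e1 : z = y.symm := fa_ext fy.symm (by rw [fz, ← hv]; rfl)
  have e2 : x = t.symm := fa_ext ft.symm (by rw [fx, hv]; rfl)
  have b1 : ∀ w, G.Adj y.snd w → w = y.fst := fa_bt R y (by rw [← hz, e1])
  have b2 : ∀ w, G.Adj t.snd w → w = t.fst := fa_bt R t (by rw [h, ← e2])
  have b3 : ∀ w, G.Adj y.fst w → w = y.snd ∨ w = t.snd := by
    refine fa_sw R y t ?_ ?_
    · have h5 : R.nxt z.symm = t := by rw [fa_nxt, ht]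
      rwa [e1, SimpleGraph.Dart.symm_symm] at h5
    · have h5 : R.nxt x.symm = y := by rw [fa_nxt, hy]
      rwa [e2, SimpleGraph.Dart.symm_symm] at h5
  have hA : ({y.fst, y.snd, t.snd} : Finset V) = X := by
    refine fa_closed hX hC ⟨y.fst, by simp⟩ ?_ ?_
    · intro a ha
      simp only [Finset.mem_insert, Finset.mem_singleton] at ha
      rcases ha with rfl | rfl | rfl
      · exact ⟨_, y.adj⟩
      · exact ⟨_, y.adj.symm⟩
      · exact ⟨_, t.adj.symm⟩
    · intro a ha b hab
      simp only [Finset.mem_insert, Finset.mem_singleton] at ha ⊢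
      rcases ha with rfl | rfl | rfl
      · rcases b3 b hab with h | h <;> simp [h]
      · exact Or.inl (b1 b hab)
      · exact Or.inl (by rw [b2 b hab, hv])
  refine fa_small h2 y.fst (fa_dg2 b3) ?_ y.fst y.snd (hX _ _ y.adj) (hX _ _ y.adj.symm) y.adj.ne
  intro v hv hne
  rw [← hA] at hv
  simp only [Finset.mem_insert, Finset.mem_singleton] at hv
  rcases hv with h | h | h
  · exact absurd h hne
  · rw [h]; exact fa_dg1 b1
  · rw [h]; exact fa_dg1 b2

include hG hX hC h2 in
lemma fa_no4 (x : G.Dart) : R.face (R.face (R.face (R.face x))) ≠ x := by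
  intro h
  by_cases hv : (R.face x).fst = (R.face (R.face (R.face x))).fst
  · exact fa_no4a R hX hC h2 x h hv
  by_cases hw : x.fst = (R.face (R.face x)).fst
  · refine fa_no4a R hX hC h2 (R.face (R.face (R.face x))) (by rw [h]) ?_
    rw [h]
    exact hw
  · have a0 := x.adj
    have a1 := (R.face x).adj
    have a2 := (R.face (R.face x)).adj
    have a3 := (R.face (R.face (R.face x))).adj
    rw [← fa_fst R x] at a0
    rw [← fa_fst R (R.face x)] at a1
    rw [← fa_fst R (R.face (R.face x))] at a2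
    rw [← fa_fst R (R.face (R.face (R.face x))), h] at a3
    exact hG.2 _ _ _ _ hw hv a0 a1 a2 a3

end short

/-! ### pentagons -/

/-- closed walks of length five -/
def FaC (G : SimpleGraph V) (a b c d e : V) : Prop :=
  G.Adj a b ∧ G.Adj b c ∧ G.Adj c d ∧ G.Adj d e ∧ G.Adj e a

lemma FaC.rot {a b c d e : V} (h : FaC G a b c d e) : FaC G b c d e a :=
  ⟨h.2.1, h.2.2.1, h.2.2.2.1, h.2.2.2.2, h.1⟩

lemma fa_ne (hG : G5 G) {a b c d e : V} (h : FaC G a b c d e) : a ≠ c := by
  rintro rfl
  exact hG.1 _ _ _ h.2.2.1 h.2.2.2.1 h.2.2.2.2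

lemma fa_nb (hG : G5 G) {a b c d e w : V} (h : FaC G a b c d e)
    (hw : w = a ∨ w = b ∨ w = c ∨ w = d ∨ w = e) (ha : G.Adj a w) : w = b ∨ w = e := by
  rcases hw with rfl | rfl | rfl | rfl | rfl
  · exact absurd rfl ha.ne
  · exact Or.inl rfl
  · exact absurd ha.symm (hG.1 _ _ _ h.1 h.2.1)
  · exact absurd h.2.2.2.2 (hG.1 _ _ _ ha h.2.2.2.1)
  · exact Or.inr rfl

lemma fa_dgp (hG : G5 G) {a b c d e : V} (h : FaC G a b c d e) {P : Finset V}
    (hP : ∀ w, w ∈ P ↔ w = a ∨ w = b ∨ w = c ∨ w = d ∨ w = e) : dg G P a = 2 := by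
  have h1 : nb G P a = {b, e} := by
    ext w
    simp only [nb, Finset.mem_filter, Finset.mem_insert, Finset.mem_singleton]
    constructor
    · rintro ⟨h3, h4⟩
      exact fa_nb hG h ((hP w).1 h3) h4
    · rintro (rfl | rfl)
      · exact ⟨(hP w).2 (by tauto), h.1⟩
      · exact ⟨(hP w).2 (by tauto), h.2.2.2.2.symm⟩
  have h2 : b ≠ e := fun h3 => fa_ne hG h.rot.rot.rot.rot h3.symm
  rw [dg, h1, Finset.card_pair h2]

lemma fa_pe (hG : G5 G) {a b c d e : V} (h : FaC G a b c d e) :
    Pe G ({a, b, c, d, e} : Finset V) := by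
  have n1 := fa_ne hG h
  have n2 := fa_ne hG h.rot
  have n3 := fa_ne hG h.rot.rot
  have n4 := fa_ne hG h.rot.rot.rot
  have n5 := fa_ne hG h.rot.rot.rot.rot
  have m1 := h.1.ne
  have m2 := h.2.1.ne
  have m3 := h.2.2.1.ne
  have m4 := h.2.2.2.1.ne
  have m5 := h.2.2.2.2.ne
  constructor
  · rw [Finset.card_insert_of_notMem, Finset.card_insert_of_notMem, Finset.card_insert_of_notMem,
      Finset.card_pair m4]
    · simp only [Finset.mem_insert, Finset.mem_singleton]
      tauto
    · simp only [Finset.mem_insert, Finset.mem_singleton]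
      have := n5.symm
      tauto
    · simp only [Finset.mem_insert, Finset.mem_singleton]
      have := n4.symm
      have := m5.symm
      tauto
  · intro x hx
    simp only [Finset.mem_insert, Finset.mem_singleton] at hx
    rcases hx with rfl | rfl | rfl | rfl | rfl
    · exact fa_dgp hG h (fun w => by simp only [Finset.mem_insert, Finset.mem_singleton])
    · exact fa_dgp hG h.rot
        (fun w => by simp only [Finset.mem_insert, Finset.mem_singleton]; tauto)
    · exact fa_dgp hG h.rot.rot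
        (fun w => by simp only [Finset.mem_insert, Finset.mem_singleton]; tauto)
    · exact fa_dgp hG h.rot.rot.rot
        (fun w => by simp only [Finset.mem_insert, Finset.mem_singleton]; tauto)
    · exact fa_dgp hG h.rot.rot.rot.rot
        (fun w => by simp only [Finset.mem_insert, Finset.mem_singleton]; tauto)

/-- two closed walks with the same five vertices and the same start -/
lemma fa_rev (hG : G5 G) {a b c d e a' b' c' d' e' : V} (h : FaC G a b c d e)
    (h' : FaC G a' b' c' d' e')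
    (hs : ∀ w, (w = a' ∨ w = b' ∨ w = c' ∨ w = d' ∨ w = e') →
      (w = a ∨ w = b ∨ w = c ∨ w = d ∨ w = e)) (h0 : a' = a) :
    b' = b ∨ (b' = e ∧ c' = d ∧ d' = c ∧ e' = b) := by
  subst h0
  rcases fa_nb hG h (hs b' (by tauto)) h'.1 with h1 | h1
  · exact Or.inl h1
  right
  subst h1
  have n1 : c' ≠ a' := (fa_ne hG h').symm
  have n2 : d' ≠ b' := (fa_ne hG h'.rot).symm
  have n3 : e' ≠ c' := (fa_ne hG h'.rot.rot).symm
  have k1 : c' = d := by
    rcases fa_nb hG h.rot.rot.rot.rot (by have := hs c' (by tauto); tauto) h'.2.1 with h2 | h2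
    · exact absurd h2 n1
    · exact h2
  subst k1
  have k2 : d' = c := by
    rcases fa_nb hG h.rot.rot.rot (by have := hs d' (by tauto); tauto) h'.2.2.1 with h2 | h2
    · exact absurd h2 n2
    · exact h2
  subst k2
  have k3 : e' = b := by
    rcases fa_nb hG h.rot.rot (by have := hs e' (by tauto); tauto) h'.2.2.2.1 with h2 | h2
    · exact absurd h2 n3
    · exact h2
  exact ⟨rfl, rfl, rfl, k3⟩

end Pool.Agent.FX
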