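import Pool.Agent.FX.Stm

/-!
# MP_07b392_co, project FX, row R5: (FIX)
-/

set_option autoImplicit false

namespace Pool.Agent.FX

open Classical

universe u v

theorem fix_dg_single {V : Type u} (G : SimpleGraph V) (a x : V) : dg G {a} x ≤ 1 := by
  unfold dg nb
  exact (Finset.card_filter_le _ _).trans (by simp)

theorem fix_dg_single_adj {V : Type u} (G : SimpleGraph V) (a x : V) (h : 1 ≤ dg G {a} x) :
    G.Adj x a := by
  unfold dg nb at h
  obtain ⟨y, hy⟩ := Finset.card_pos.1 h
  rw [Finset.mem_filter, Finset.mem_singleton] at hy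
  obtain ⟨rfl, h2⟩ := hy
  exact h2

theorem fix_dg_self {V : Type u} (G : SimpleGraph V) (x : V) : dg G {x} x = 0 := by
  unfold dg nb
  rw [Finset.card_eq_zero, Finset.filter_eq_empty_iff]
  intro y hy
  rw [Finset.mem_singleton] at hy
  subst hy
  exact G.loopless.irrefl _

theorem fix_e2_single {V : Type u} (G : SimpleGraph V) (x : V) : e2 G {x} = 0 := by
  unfold e2
  rw [Finset.sum_singleton]
  exact fix_dg_self G x

/-- row R5 -/
theorem fix (h1 : SBas.{u}) (h2 : SPe1.{u}) (h3 : SCrit.{u, v}) (h4 : SExt.{u, v})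
    (h5 : SLemG.{u, v}) : SFix.{u, v} := by
  intro V C _ G hG hE hPI Z H _ hKey v hv L hL3 hLs hLv
  obtain ⟨c, hc⟩ := Finset.card_pos.1 (show 0 < (L v).card by omega)
  obtain ⟨b1, b2, _, b4, _⟩ := h1 V G
  obtain ⟨_, _, q3, q4⟩ := h2 V G hE
  have hdis : Disjoint ({v} : Finset V) (H.erase v) := by
    rw [Finset.disjoint_singleton_left]
    exact Finset.notMem_erase v H
  obtain ⟨x1, x2⟩ := h4 V C G L {v} (H.erase v) (fun _ => c) hdis
    (by intro x hx; rw [Finset.mem_singleton] at hx; subst hx; exact hc)
    (by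
      intro x hx y hy hxy
      rw [Finset.mem_singleton] at hx hy
      subst hx; subst hy
      exact absurd hxy (G.loopless.irrefl _))
  have hH : {v} ∪ H.erase v = H := by
    rw [← Finset.insert_eq, Finset.insert_erase hv]
  rw [hH] at x1
  by_contra hn
  set L' : V → Finset C := fun x => L x \ (nb G {v} x).image (fun _ => c) with hL'
  have hn' : ¬ Col G L' (H.erase v) := fun h => hn (x1 h)
  obtain ⟨c1, _, c3⟩ := h3 V C G L'
  obtain ⟨Y, hYB, hCr⟩ := c1 _ hn'
  obtain ⟨hYne, hYc, hYd, _⟩ := c3 Y hCr
  have hYH : Y ⊆ H := hYB.trans (Finset.erase_subset _ _)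
  have hvY : v ∉ Y := fun h => (Finset.mem_erase.1 (hYB h)).1 rfl
  have hYv : ∀ x ∈ Y, x ≠ v := fun x hx h => hvY (h ▸ hx)
  have hL'3 : ∀ x ∈ Y, (L' x).card ≤ 3 := fun x hx =>
    (Finset.card_le_card Finset.sdiff_subset).trans (hL3 x (hYH hx))
  have hLem := h5 V C G L' Y hG hE hCr hL'3
  -- sums
  have hd : dg G Y v = ∑ x ∈ Y, dg G {v} x := by
    have := b4 (insert v Y) {v} (by simp)
    rw [Finset.sum_singleton] at this
    have hs : insert v Y \ {v} = Y := by
      ext y
      simp only [Finset.mem_sdiff, Finset.mem_insert, Finset.mem_singleton]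
      constructor
      · rintro ⟨h1 | h1, h2⟩
        · exact absurd h1 h2
        · exact h1
      · intro hy
        exact ⟨Or.inr hy, hYv y hy⟩
    rw [hs] at this
    exact this
  have hpt : ∀ x ∈ Y, 3 - (L' x).card ≤ dg G (Z \ H) x + dg G {v} x := by
    intro x hx
    have e1 := hLs x (hYH hx) (hYv x hx)
    have e2 : (L x).card ≤ (L' x).card + dg G {v} x := x2 x
    omega
  have hr : ∑ x ∈ Y, (3 - (L' x).card) ≤ ∑ x ∈ Y, dg G (Z \ H) x + dg G Y v := by
    rw [hd, ← Finset.sum_add_distrib]
    exact Finset.sum_le_sum hpt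
  have hK := hKey (insert v Y) (Finset.insert_subset hv hYH)
  rw [b2 Y v hvY, Finset.sum_insert hvY, Finset.card_insert_of_notMem hvY] at hK
  have hq := q4 Y v hvY
  set o := ∑ x ∈ Y, dg G (Z \ H) x with ho
  set r := ∑ x ∈ Y, (3 - (L' x).card) with hrdef
  have hod : o + dg G Y v ≤ 4 := by omega
  have hr4 : r ≤ 4 := hr.trans hod
  by_cases hbig : 2 * Y.card ≤ e2 G Y
  · have hp := hPI.2 Y hYc hbig
    omega
  · have hev := b1 Y
    have he : e2 G Y + 2 ≤ 2 * Y.card := by
      obtain ⟨k, hk⟩ := hev
      omega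
    have h3n : 3 * Y.card ≤ e2 G Y + r := by
      have : ∑ x ∈ Y, 3 ≤ ∑ x ∈ Y, (dg G Y x + (3 - (L' x).card)) := by
        refine Finset.sum_le_sum fun x hx => ?_
        have := hYd x hx
        omega
      rw [Finset.sum_const, Finset.sum_add_distrib, smul_eq_mul, mul_comm] at this
      exact this
    have hn1 : 1 ≤ Y.card := Finset.card_pos.2 hYne
    have hone : ∀ x ∈ Y, dg G (Z \ H) x ≤ 1 := by
      intro x hx
      have hk := hKey {x} (Finset.singleton_subset_iff.2 (hYH hx))
      have hc5 := q3 {x}
      rw [fix_e2_single] at hk hc5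
      rw [Finset.sum_singleton, Finset.card_singleton] at hk
      omega
    have htwo : ∀ x ∈ Y, 3 - (L' x).card ≤ 2 := by
      intro x hx
      have e1 := hpt x hx
      have e2 := hone x hx
      have e3 := fix_dg_single G v x
      omega
    have hcase : Y.card = 1 ∨ Y.card = 2 := by omega
    rcases hcase with hc1 | hc2
    · obtain ⟨x, hx⟩ := Finset.card_eq_one.1 hc1
      have : r ≤ 2 := by
        rw [hrdef, hx, Finset.sum_singleton]
        exact htwo x (by rw [hx]; exact Finset.mem_singleton_self x)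
      omega
    · obtain ⟨x, y, hxy, hY⟩ := Finset.card_eq_two.1 hc2
      have hxY : x ∈ Y := by rw [hY]; simp
      have hyY : y ∈ Y := by rw [hY]; simp
      have hsum : r = (3 - (L' x).card) + (3 - (L' y).card) := by
        rw [hrdef, hY, Finset.sum_pair hxy]
      have t1 := htwo x hxY
      have t2 := htwo y hyY
      have t3 : 1 ≤ dg G {v} x := by
        have e1 := hpt x hxY
        have e2 := hone x hxY
        omega
      have t4 : 1 ≤ dg G {v} y := by
        have e1 := hpt y hyY
        have e2 := hone y hyY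
        omega
      have a1 := fix_dg_single_adj G v x t3
      have a2 := fix_dg_single_adj G v y t4
      obtain ⟨a, ha, b, hb, hab⟩ := hYc.2 {x} (Finset.singleton_subset_iff.2 hxY)
        (Finset.singleton_nonempty x) (by
          intro h
          have := congrArg Finset.card h
          rw [Finset.card_singleton] at this
          omega)
      rw [Finset.mem_singleton] at ha
      rw [hY, Finset.mem_sdiff, Finset.mem_insert, Finset.mem_singleton,
        Finset.mem_singleton] at hb
      subst ha
      have hby : b = y := by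
        rcases hb.1 with h | h
        · exact absurd h hb.2
        · exact h
      subst hby
      exact hG.1 a b v hab a2 a1.symm

end Pool.Agent.FX
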