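import Pool.Agent.FX.StmG

/-!
# MP_07b392_co, project FX, row AR5: (FIX), version A
-/

set_option autoImplicit false

namespace Pool.Agent.FX

open Classical

universe u v

theorem fixA_dg_single {V : Type u} (G : SimpleGraph V) (a x : V) : dg G {a} x ≤ 1 := by
  unfold dg nb
  exact (Finset.card_filter_le _ _).trans (by simp)

/-- row AR5 -/
theorem fixA (_h1 : SBas.{u}) (h2 : SCrit.{u, v}) (h3 : SExt.{u, v}) (h4 : SLemA.{u, v})
    (h5 : SForbA.{u, v}) : SFixA.{u, v} := by
  intro V C _ G hG hPI Z H hHZ hKey v hv L hL3 hLs hLv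
  obtain ⟨c, hc⟩ := Finset.card_pos.1 (show 0 < (L v).card by omega)
  set L1 : V → Finset C := Function.update L v {c} with hL1
  have hL1v : L1 v = {c} := by rw [hL1, Function.update_self]
  have hL1n : ∀ x, x ≠ v → L1 x = L x := fun x hx => by rw [hL1, Function.update_of_ne hx]
  by_contra hn
  have hn1 : ¬ Col G L1 H := by
    rintro ⟨φ, hφ1, hφ2⟩
    refine hn ⟨φ, fun x hx => ?_, hφ2⟩
    have h := hφ1 x hx
    by_cases hxv : x = v
    · subst hxv
      rw [hL1v, Finset.mem_singleton] at h
      rw [h]
      exact hc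
    · rw [hL1n x hxv] at h
      exact h
  have hL13 : ∀ x ∈ H, (L1 x).card ≤ 3 := by
    intro x hx
    by_cases hxv : x = v
    · subst hxv
      rw [hL1v, Finset.card_singleton]
      omega
    · rw [hL1n x hxv]
      exact hL3 x hx
  obtain ⟨c1, _, c3⟩ := h2 V C G L1
  obtain ⟨Y, hYH, hCr⟩ := c1 _ hn1
  obtain ⟨hYne, hYc, hYd, _⟩ := c3 Y hCr
  by_cases hvY : v ∈ Y
  · have hd1 : 1 ≤ dg G Y v := by
      have := hYd v hvY
      rw [hL1v, Finset.card_singleton] at this
      exact this
    rcases Nat.lt_or_ge (dg G Y v) 2 with hd | hd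
    · -- one neighbour
      have hd' : dg G Y v = 1 := by omega
      obtain ⟨u, hu⟩ := Finset.card_eq_one.1 hd'
      have huY : u ∈ Y ∧ G.Adj v u := by
        have : u ∈ nb G Y v := by rw [hu]; exact Finset.mem_singleton_self u
        exact Finset.mem_filter.1 this
      have huv : u ≠ v := huY.2.ne'
      have hdis : Disjoint ({v} : Finset V) (Y.erase v) := by
        rw [Finset.disjoint_singleton_left]
        exact Finset.notMem_erase v Y
      obtain ⟨x1, x2⟩ := h3 V C G L1 {v} (Y.erase v) (fun _ => c) hdis
        (by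
          intro x hx
          rw [Finset.mem_singleton] at hx
          subst hx
          rw [hL1v]
          exact Finset.mem_singleton_self c)
        (by
          intro x hx y hy hxy
          rw [Finset.mem_singleton] at hx hy
          subst hx; subst hy
          exact absurd hxy (G.loopless.irrefl _))
      have hY : {v} ∪ Y.erase v = Y := by
        rw [← Finset.insert_eq, Finset.insert_erase hvY]
      rw [hY] at x1
      refine hCr.1 (x1 ?_)
      have hBH : Y.erase v ⊆ H := (Finset.erase_subset _ _).trans hYH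
      refine h5 V C G hG hPI Z H hHZ hKey (Y.erase v) hBH u
        (fun x => L1 x \ (nb G {v} x).image fun _ => c) ?_ ?_ ?_
      · intro x hx
        exact (Finset.card_le_card Finset.sdiff_subset).trans (hL13 x (hBH hx))
      · intro x hx hxu
        have hxv : x ≠ v := (Finset.mem_erase.1 hx).1
        have hxY : x ∈ Y := (Finset.mem_erase.1 hx).2
        have hnb : nb G {v} x = ∅ := by
          unfold nb
          rw [Finset.filter_eq_empty_iff]
          intro y hy hxy
          rw [Finset.mem_singleton] at hy
          subst hy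
          apply hxu
          have : x ∈ nb G Y y := Finset.mem_filter.2 ⟨hxY, hxy.symm⟩
          rw [hu, Finset.mem_singleton] at this
          exact this
        have hs := hLs x (hBH hx) hxv
        show 3 ≤ (L1 x \ (nb G {v} x).image fun _ => c).card + dg G (Z \ H) x
        rw [hnb, Finset.image_empty, Finset.sdiff_empty, hL1n x hxv]
        exact hs
      · intro huB
        have hs := hLs u (hBH huB) huv
        have e2 := x2 u
        have e3 := fixA_dg_single G v u
        rw [hL1n u huv] at e2
        show 2 ≤ (L1 u \ (nb G {v} u).image fun _ => c).card + dg G (Z \ H) u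
        rw [hL1n u huv]
        omega
    · -- at least two neighbours
      have hL1Y3 : ∀ x ∈ Y, (L1 x).card ≤ 3 := fun x hx => hL13 x (hYH hx)
      have hLem := (h4 V C G L1 Y hG hCr hL1Y3).2
        ⟨v, hvY, by rw [hL1v, Finset.card_singleton], hd⟩
      have hK := hKey Y hYH
      have hp := hPI Y hYc
      have hr : ∑ x ∈ Y, (3 - (L1 x).card) ≤ 2 + ∑ x ∈ Y, dg G (Z \ H) x := by
        rw [← Finset.add_sum_erase Y _ hvY, ← Finset.add_sum_erase Y (fun x => dg G (Z \ H) x) hvY]
        have e1 : 3 - (L1 v).card = 2 := by rw [hL1v, Finset.card_singleton]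
        have e2 : ∑ x ∈ Y.erase v, (3 - (L1 x).card) ≤ ∑ x ∈ Y.erase v, dg G (Z \ H) x := by
          refine Finset.sum_le_sum fun x hx => ?_
          have hxv : x ≠ v := (Finset.mem_erase.1 hx).1
          have hs := hLs x (hYH (Finset.mem_erase.1 hx).2) hxv
          rw [hL1n x hxv]
          omega
        omega
      have ho : ∑ x ∈ Y, dg G (Z \ H) x ≤ 1 := by omega
      have hr3 : ∑ x ∈ Y, (3 - (L1 x).card) ≤ 3 := by omega
      omega
  · refine hCr.1 (h5 V C G hG hPI Z H hHZ hKey Y hYH v L1 ?_ ?_ ?_)
    · exact fun x hx => hL13 x (hYH hx)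
    · intro x hx hxv
      rw [hL1n x hxv]
      exact hLs x (hYH hx) hxv
    · exact fun h => absurd h hvY

end Pool.Agent.FX
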