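import Pool.Agent.FX.Stm

/-!
# MP_07b392_co, project FX, F2: from a random colouring to weighted flexibility
-/

set_option autoImplicit false

namespace Pool.Agent.FX

open Classical

universe u v

theorem flex_avg {V : Type u} {C : Type v} (I : Finset (V → C)) (p : (V → C) → ℝ)
    (x : V) (S : Finset C) (f : C → ℝ) (hI : ∀ φ ∈ I, φ x ∈ S) (hf : ∀ c ∈ S, 0 ≤ f c) (ε : ℝ)
    (h : ∀ c ∈ S, ε ≤ ∑ φ ∈ I.filter (fun φ => φ x = c), p φ) :
    ε * ∑ c ∈ S, f c ≤ ∑ φ ∈ I, p φ * f (φ x) := by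
  have h1 : ∑ φ ∈ I, p φ * f (φ x) =
      ∑ c ∈ S, ∑ φ ∈ I.filter (fun φ => φ x = c), p φ * f (φ x) :=
    (Finset.sum_fiberwise_of_maps_to (g := fun φ : V → C => φ x) hI
      (fun φ => p φ * f (φ x))).symm
  rw [h1, Finset.mul_sum]
  refine Finset.sum_le_sum fun c hc => ?_
  have h2 : ∑ φ ∈ I.filter (fun φ => φ x = c), p φ * f (φ x) =
      (∑ φ ∈ I.filter (fun φ => φ x = c), p φ) * f c := by
    rw [Finset.sum_mul]
    refine Finset.sum_congr rfl fun φ hφ => ?_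
    rw [(Finset.mem_filter.mp hφ).2]
  rw [h2]
  exact mul_le_mul_of_nonneg_right (h c hc) (hf c hc)

theorem flex (h1 : SRan.{u, v}) : SFlex.{u, v} := by
  intro b V _ C G hR L hL w hw
  rcases isEmpty_or_nonempty V with hV | hV
  · refine ⟨fun x => (IsEmpty.false x).elim, fun x => (IsEmpty.false x).elim,
      fun x => (IsEmpty.false x).elim, ?_⟩
    rw [Finset.univ_eq_empty, Finset.sum_empty, Finset.sum_empty, mul_zero]
  · obtain ⟨x0⟩ := hV
    have hne : (L x0).Nonempty := by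
      rw [← Finset.card_pos, hL]
      norm_num
    obtain ⟨c0, _⟩ := hne
    have : Nonempty C := ⟨c0⟩
    obtain ⟨I, p, hp, hs, hI1, hI2, hI3⟩ := h1 b V C G hR L hL
    by_contra hcon
    push Not at hcon
    have hlt : ∀ φ ∈ I, ∑ x, w x (φ x) < (1 / 3 : ℝ) ^ (2 * b) * ∑ x, ∑ c ∈ L x, w x c :=
      fun φ hφ => hcon φ (hI1 φ hφ) (hI2 φ hφ)
    generalize hW : (1 / 3 : ℝ) ^ (2 * b) * ∑ x, ∑ c ∈ L x, w x c = W at hlt
    have h2 : W ≤ ∑ φ ∈ I, p φ * ∑ x, w x (φ x) := by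
      have h3 : ∑ φ ∈ I, p φ * ∑ x, w x (φ x) = ∑ x, ∑ φ ∈ I, p φ * w x (φ x) := by
        rw [Finset.sum_comm]
        exact Finset.sum_congr rfl fun φ _ => Finset.mul_sum _ _ _
      rw [h3, ← hW, Finset.mul_sum]
      exact Finset.sum_le_sum fun x _ => flex_avg I p x (L x) (w x) (fun φ hφ => hI1 φ hφ x)
        (hw x) _ (hI3 x)
    have h4 : ∃ φ ∈ I, 0 < p φ := by
      by_contra hc
      push Not at hc
      have : ∑ φ ∈ I, p φ ≤ 0 := Finset.sum_nonpos hc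
      rw [hs] at this
      norm_num at this
    obtain ⟨ψ, hψ, hψ0⟩ := h4
    have h5 : ∑ φ ∈ I, p φ * ∑ x, w x (φ x) < ∑ φ ∈ I, p φ * W := by
      refine Finset.sum_lt_sum (fun φ hφ => mul_le_mul_of_nonneg_left (hlt φ hφ).le (hp φ hφ))
        ⟨ψ, hψ, mul_lt_mul_of_pos_left (hlt ψ hψ) hψ0⟩
    rw [← Finset.sum_mul, hs, one_mul] at h5
    exact absurd h5 (not_lt.mpr h2)

end Pool.Agent.FX
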