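import Pool.Agent.FX.StmG

/-!
# MP_07b392_co, project FX, row A-R4: (FORB), version A
-/

set_option autoImplicit false

namespace Pool.Agent.FX

open Classical

universe u v

/-- A-R4 -/
theorem forbA (h1 : SCrit.{u, v}) (h2 : SLemA.{u, v}) : SForbA.{u, v} := by
  intro V C _ G hg hpi Z H _ hkey X hXH v L hL3 hL hv
  by_contra hcol
  obtain ⟨Y, hYX, hcr⟩ := (h1 V C G L).1 X hcol
  have hcn : Cn G Y := ((h1 V C G L).2.2 Y hcr).2.1
  have hlem := (h2 V C G L Y hg hcr (fun x hx => hL3 x (hYX hx))).1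
  have hk := hkey Y (hYX.trans hXH)
  have hp := hpi Y hcn
  have hr : ∑ x ∈ Y, (3 - (L x).card) ≤
      ∑ x ∈ Y, dg G (Z \ H) x + if v ∈ Y then 1 else 0 := by
    have e : (if v ∈ Y then 1 else 0 : ℕ) = ∑ x ∈ Y, if x = v then 1 else 0 := by
      rw [Finset.sum_ite_eq']
    rw [e, ← Finset.sum_add_distrib]
    apply Finset.sum_le_sum
    intro x hx
    by_cases hxv : x = v
    · subst hxv
      have := hv (hYX hx)
      rw [if_pos rfl]
      omega
    · have := hL x (hYX hx) hxv
      rw [if_neg hxv]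
      omega
  by_cases hvY : v ∈ Y
  · rw [if_pos hvY] at hr
    omega
  · rw [if_neg hvY] at hr
    omega

end Pool.Agent.FX
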