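import Pool.Agent.FX.StmG

/-!
# MP_07b392_co, project FX, row GR4: (FORB), general version
-/

set_option autoImplicit false

namespace Pool.Agent.FX

open Classical

universe u v

theorem forbG_e2_single {V : Type u} (G : SimpleGraph V) (Y : Finset V) (h : Y.card = 1) :
    e2 G Y = 0 := by
  obtain ⟨a, rfl⟩ := Finset.card_eq_one.1 h
  unfold e2
  rw [Finset.sum_singleton]
  unfold dg nb
  rw [Finset.card_eq_zero, Finset.filter_eq_empty_iff]
  intro y hy hay
  rw [Finset.mem_singleton] at hy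
  subst hy
  exact G.loopless.irrefl _ hay

/-- row GR4 -/
theorem forbG (h1 : SCrit.{u, v}) (h2 : SLemGG.{u, v}) : SForbG.{u, v} := by
  intro V C _ G F hG hF hPI Z H _ hKey X hXH v L hL3 hLs hLv
  by_contra hn
  obtain ⟨c1, _, c3⟩ := h1 V C G L
  obtain ⟨Y, hYX, hCr⟩ := c1 _ hn
  obtain ⟨hYne, hYc, _, _⟩ := c3 Y hCr
  have hLem := (h2 V C G F L Y hG hF hCr fun x hx => hL3 x (hYX hx)).1
  have hK := hKey Y (hYX.trans hXH)
  by_cases hvY : v ∈ Y
  · have hr : ∑ x ∈ Y, (3 - (L x).card) ≤ 1 + ∑ x ∈ Y, dg G (Z \ H) x := by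
      rw [← Finset.add_sum_erase Y _ hvY, ← Finset.add_sum_erase Y (fun x => dg G (Z \ H) x) hvY]
      have a1 := hLv (hYX hvY)
      have a2 : ∑ x ∈ Y.erase v, (3 - (L x).card) ≤ ∑ x ∈ Y.erase v, dg G (Z \ H) x := by
        refine Finset.sum_le_sum fun x hx => ?_
        have hs := hLs x (hYX (Finset.mem_erase.1 hx).2) (Finset.mem_erase.1 hx).1
        omega
      omega
    have hpos : 0 < Y.card := hYne.card_pos
    rcases Nat.lt_or_ge Y.card 2 with hc | hc
    · have hc1 : Y.card = 1 := by omega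
      have he := forbG_e2_single G Y hc1
      omega
    · have hp := hPI Y hYc hc
      omega
  · have hr : ∑ x ∈ Y, (3 - (L x).card) ≤ ∑ x ∈ Y, dg G (Z \ H) x := by
      refine Finset.sum_le_sum fun x hx => ?_
      have hs := hLs x (hYX hx) (fun h => hvY (h ▸ hx))
      omega
    omega

end Pool.Agent.FX
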