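import Pool.Agent.FX.Stm

/-!
# MP_07b392_co, project FX, row H2: planar graphs are hyperfinite
-/

set_option autoImplicit false

namespace Pool.Agent.FX

open Classical
open Pool.Agent.H41.Fire (IsPlanar)

universe u

/-- a set of vertices of one component with levels in a window of length `k` -/
def hyQ {V : Type u} (G : SimpleGraph V) (lev : V → ℕ) (r k : ℕ) (U : Finset V) : Prop :=
  (∀ a ∈ U, r ≤ lev a ∧ lev a < r + k) ∧ ∀ a ∈ U, ∀ b ∈ U, G.Reachable a b

theorem hy_cn {V : Type u} (G : SimpleGraph V) (X A B : Finset V) (hX : Cn G X)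
    (hAB : X ⊆ A ∪ B) (hno : ∀ a ∈ A, ∀ b ∈ B, ¬ G.Adj a b) : X ⊆ A ∨ X ⊆ B := by
  by_cases h0 : (X ∩ A).Nonempty
  · by_cases h1 : X ∩ A = X
    · left
      rw [← h1]
      exact Finset.inter_subset_right
    · obtain ⟨a, ha, b, hb, hab⟩ := hX.2 (X ∩ A) Finset.inter_subset_left h0 h1
      rw [Finset.mem_inter] at ha
      rw [Finset.mem_sdiff, Finset.mem_inter] at hb
      have hb' := hAB hb.1
      rw [Finset.mem_union] at hb'
      rcases hb' with hb' | hb'
      · exact absurd ⟨hb.1, hb'⟩ hb.2
      · exact absurd hab (hno a ha.2 b hb')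
  · right
    intro x hx
    have hx' := hAB hx
    rw [Finset.mem_union] at hx'
    rcases hx' with hx' | hx'
    · exact absurd ⟨x, Finset.mem_inter.2 ⟨hx, hx'⟩⟩ h0
    · exact hx'

theorem hy_claim {V : Type u} (G : SimpleGraph V) (lev : V → ℕ) (k K : ℕ) (hK : 12 ≤ K) (r : ℕ)
    (h : ∀ U : Finset V, hyQ G lev r k U → ∃ S A B : Finset V,
      S ∪ (A ∪ B) = U ∧ S.card + (A.card + B.card) = U.card ∧ S.card ≤ 2 * k ∧
      3 * A.card ≤ 2 * U.card + 3 ∧ 3 * B.card ≤ 2 * U.card + 3 ∧
      ∀ a ∈ A, ∀ b ∈ B, ¬ G.Adj a b) :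
    ∀ (n : ℕ) (U : Finset V), U.card = n → hyQ G lev r k U → ∃ S ⊆ U,
      (∀ X ⊆ U \ S, Cn G X → X.card ≤ K) ∧ (U.card ≤ K → S = ∅) ∧
      (K < U.card → K * S.card + 2 * k * K ≤ 8 * k * U.card) := by
  intro n
  induction n using Nat.strong_induction_on with
  | _ n ih =>
    intro U hU hQ
    by_cases hc : U.card ≤ K
    · refine ⟨∅, Finset.empty_subset _, ?_, fun _ => rfl, fun h' => absurd h' (by omega)⟩
      intro X hX _
      exact (Finset.card_le_card (hX.trans Finset.sdiff_subset)).trans hc
    · obtain ⟨S0, A, B, hun, hcard, hs, ha, hb, hno⟩ := h U hQ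
      have hAU : A ⊆ U := by
        rw [← hun]
        exact Finset.subset_union_left.trans Finset.subset_union_right
      have hBU : B ⊆ U := by
        rw [← hun]
        exact Finset.subset_union_right.trans Finset.subset_union_right
      have hSU : S0 ⊆ U := by
        rw [← hun]
        exact Finset.subset_union_left
      have hQA : hyQ G lev r k A :=
        ⟨fun a h => hQ.1 a (hAU h), fun a h b h' => hQ.2 a (hAU h) b (hAU h')⟩
      have hQB : hyQ G lev r k B :=
        ⟨fun a h => hQ.1 a (hBU h), fun a h b h' => hQ.2 a (hBU h) b (hBU h')⟩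
      obtain ⟨SA, hSA, hXA, hA0, hA1⟩ := ih A.card (by omega) A rfl hQA
      obtain ⟨SB, hSB, hXB, hB0, hB1⟩ := ih B.card (by omega) B rfl hQB
      refine ⟨S0 ∪ (SA ∪ SB), ?_, ?_, fun h' => absurd h' hc, fun _ => ?_⟩
      · exact Finset.union_subset hSU (Finset.union_subset (hSA.trans hAU) (hSB.trans hBU))
      · intro X hX hC
        have hX' : X ⊆ A ∪ B := by
          intro x hx
          have hx1 := hX hx
          rw [Finset.mem_sdiff, Finset.mem_union] at hx1
          have hx2 := hx1.1
          rw [← hun, Finset.mem_union] at hx2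
          rcases hx2 with hx2 | hx2
          · exact absurd (Or.inl hx2) hx1.2
          · exact hx2
        rcases hy_cn G X A B hC hX' hno with h2 | h2
        · apply hXA X _ hC
          intro x hx
          have hx1 := hX hx
          rw [Finset.mem_sdiff, Finset.mem_union, Finset.mem_union] at hx1
          exact Finset.mem_sdiff.2 ⟨h2 hx, fun hh => hx1.2 (Or.inr (Or.inl hh))⟩
        · apply hXB X _ hC
          intro x hx
          have hx1 := hX hx
          rw [Finset.mem_sdiff, Finset.mem_union, Finset.mem_union] at hx1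
          exact Finset.mem_sdiff.2 ⟨h2 hx, fun hh => hx1.2 (Or.inr (Or.inr hh))⟩
      · have c1 := Finset.card_union_le S0 (SA ∪ SB)
        have c2 := Finset.card_union_le SA SB
        have c3 : (S0 ∪ (SA ∪ SB)).card ≤ S0.card + (SA.card + SB.card) := by omega
        have e1 := Nat.mul_le_mul_left K c3
        have e2 := Nat.mul_le_mul_left K hs
        generalize (S0 ∪ (SA ∪ SB)).card = s at *
        rcases le_or_gt A.card K with h3 | h3 <;> rcases le_or_gt B.card K with h4 | h4
        · have f1 : SA.card = 0 := by rw [hA0 h3]; exact Finset.card_empty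
          have f2 : SB.card = 0 := by rw [hB0 h4]; exact Finset.card_empty
          rw [f1, f2] at e1
          have f3 : K ≤ 2 * U.card := by omega
          have f4 := Nat.mul_le_mul_left (4 * k) f3
          nlinarith
        · have f1 : SA.card = 0 := by rw [hA0 h3]; exact Finset.card_empty
          have f2 := hB1 h4
          rw [f1] at e1
          have f3 : K + 4 * B.card ≤ 4 * U.card := by omega
          have f4 := Nat.mul_le_mul_left (2 * k) f3
          nlinarith
        · have f1 : SB.card = 0 := by rw [hB0 h4]; exact Finset.card_empty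
          have f2 := hA1 h3
          rw [f1] at e1
          have f3 : K + 4 * A.card ≤ 4 * U.card := by omega
          have f4 := Nat.mul_le_mul_left (2 * k) f3
          nlinarith
        · have f1 := hA1 h3
          have f2 := hB1 h4
          have f3 : A.card + B.card ≤ U.card := by omega
          have f4 := Nat.mul_le_mul_left (8 * k) f3
          nlinarith

theorem hy_claim2 {V : Type u} (G : SimpleGraph V) (lev : V → ℕ) (k K : ℕ) (hK : 12 ≤ K) (r : ℕ)
    (h : ∀ U : Finset V, hyQ G lev r k U → ∃ S A B : Finset V,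
      S ∪ (A ∪ B) = U ∧ S.card + (A.card + B.card) = U.card ∧ S.card ≤ 2 * k ∧
      3 * A.card ≤ 2 * U.card + 3 ∧ 3 * B.card ≤ 2 * U.card + 3 ∧
      ∀ a ∈ A, ∀ b ∈ B, ¬ G.Adj a b) (U : Finset V) (hU : hyQ G lev r k U) :
    ∃ S ⊆ U, (∀ X ⊆ U \ S, Cn G X → X.card ≤ K) ∧ K * S.card ≤ 8 * k * U.card := by
  obtain ⟨S, h1, h2, h3, h4⟩ := hy_claim G lev k K hK r h U.card U rfl hU
  refine ⟨S, h1, h2, ?_⟩
  rcases le_or_gt U.card K with h5 | h5
  · rw [h3 h5, Finset.card_empty, Nat.mul_zero]
    exact Nat.zero_le _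
  · exact (Nat.le_add_right _ _).trans (h4 h5)

theorem hy_level {V : Type u} (lev : V → ℕ) (Z : Finset V) :
    ∃ i < 800, 800 * (Z.filter fun z => lev z % 800 = i).card ≤ Z.card := by
  have h0 : ∑ i ∈ Finset.range 800, 800 * (Z.filter fun z => lev z % 800 = i).card ≤
      ∑ _i ∈ Finset.range 800, Z.card := by
    rw [← Finset.mul_sum, ← Finset.card_eq_sum_card_fiberwise (f := fun z => lev z % 800)
      (s := Z) (t := Finset.range 800), Finset.sum_const, Finset.card_range, smul_eq_mul]
    intro z _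
    simp only [Finset.coe_range, Set.mem_Iio]
    exact Nat.mod_lt _ (by norm_num)
  obtain ⟨i, hi, hi2⟩ := Finset.exists_le_of_sum_le ⟨0, Finset.mem_range.2 (by norm_num)⟩ h0
  exact ⟨i, Finset.mem_range.1 hi, hi2⟩

theorem hyp (h1 : SSep.{u}) : SHyp.{u} := by
  intro V _ G hP Z
  obtain ⟨lev, hlev, hsep⟩ := h1 V G hP
  obtain ⟨i, hi, hiZ⟩ := hy_level lev Z
  set S1 := Z.filter fun z => lev z % 800 = i with hS1
  have hnot : ∀ z ∈ Z \ S1, lev z % 800 ≠ i := by
    intro z hz h2
    rw [Finset.mem_sdiff] at hz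
    exact hz.2 (Finset.mem_filter.2 ⟨hz.1, h2⟩)
  set w : V → G.ConnectedComponent × ℕ := fun z =>
    (G.connectedComponentMk z, (lev z + (799 - i)) / 800) with hwdef
  have hw : ∀ a b, G.Adj a b → lev a % 800 ≠ i → lev b % 800 ≠ i → w a = w b := by
    intro a b hab ha hb
    have g1 := hlev a b hab
    have g2 := hlev b a hab.symm
    have g3 : (lev a + (799 - i)) / 800 = (lev b + (799 - i)) / 800 := by omega
    have g4 : G.connectedComponentMk a = G.connectedComponentMk b :=
      SimpleGraph.ConnectedComponent.sound hab.reachable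
    simp only [hwdef, g3, g4]
  have hcl : ∀ c : G.ConnectedComponent × ℕ, ∃ S ⊆ (Z \ S1).filter (fun z => w z = c),
      (∀ X ⊆ (Z \ S1).filter (fun z => w z = c) \ S, Cn G X → X.card ≤ KK) ∧
      KK * S.card ≤ 8 * 800 * ((Z \ S1).filter (fun z => w z = c)).card := by
    intro c
    apply hy_claim2 G lev 800 KK (by norm_num [KK]) (800 * c.2 - (799 - i))
    · intro U hU
      exact hsep _ 800 U hU.1 hU.2
    · constructor
      · intro a ha
        have ha2 := (Finset.mem_filter.1 ha).2
        have ha3 : (lev a + (799 - i)) / 800 = c.2 := by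
          rw [← ha2]
        omega
      · intro a ha b hb
        have ha2 := (Finset.mem_filter.1 ha).2
        have hb2 := (Finset.mem_filter.1 hb).2
        have hc : w a = w b := ha2.trans hb2.symm
        have hc2 : G.connectedComponentMk a = G.connectedComponentMk b := congrArg Prod.fst hc
        exact SimpleGraph.ConnectedComponent.exact hc2
  choose Sc hSc1 hSc2 hSc3 using hcl
  set I := (Z \ S1).image w with hI
  refine ⟨S1 ∪ I.biUnion Sc, ?_, ?_, ?_⟩
  · apply Finset.union_subset (Finset.filter_subset _ _)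
    intro x hx
    obtain ⟨c, _, hc⟩ := Finset.mem_biUnion.1 hx
    exact (Finset.mem_sdiff.1 (Finset.mem_filter.1 (hSc1 c hc)).1).1
  · have k1 : (I.biUnion Sc).card ≤ ∑ c ∈ I, (Sc c).card := Finset.card_biUnion_le
    have k2 : KK * ∑ c ∈ I, (Sc c).card ≤
        8 * 800 * ∑ c ∈ I, ((Z \ S1).filter (fun z => w z = c)).card := by
      rw [Finset.mul_sum, Finset.mul_sum]
      exact Finset.sum_le_sum fun c _ => hSc3 c
    have k3 : (Z \ S1).card = ∑ c ∈ I, ((Z \ S1).filter (fun z => w z = c)).card := by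
      apply Finset.card_eq_sum_card_fiberwise
      intro z hz
      exact Finset.mem_coe.2 (Finset.mem_image_of_mem w hz)
    rw [← k3] at k2
    have k4 : (Z \ S1).card ≤ Z.card := Finset.card_le_card Finset.sdiff_subset
    have k5 := Finset.card_union_le S1 (I.biUnion Sc)
    have k6 : KK = 6400 * 800 := rfl
    rw [k6] at k2
    omega
  · intro X hX hC
    obtain ⟨x0, hx0⟩ := hC.1
    have hXZ : ∀ x ∈ X, x ∈ Z \ S1 := by
      intro x hx
      have h2 := hX hx
      rw [Finset.mem_sdiff, Finset.mem_union] at h2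
      exact Finset.mem_sdiff.2 ⟨h2.1, fun h3 => h2.2 (Or.inl h3)⟩
    have hall : X.filter (fun x => w x = w x0) = X := by
      by_contra hne
      obtain ⟨a, ha, b, hb, hab⟩ := hC.2 (X.filter fun x => w x = w x0)
        (Finset.filter_subset _ _) ⟨x0, Finset.mem_filter.2 ⟨hx0, rfl⟩⟩ hne
      rw [Finset.mem_filter] at ha
      rw [Finset.mem_sdiff, Finset.mem_filter] at hb
      apply hb.2
      refine ⟨hb.1, ?_⟩
      rw [← ha.2]
      exact (hw a b hab (hnot a (hXZ a ha.1)) (hnot b (hXZ b hb.1))).symm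
    apply hSc2 (w x0) X _ hC
    intro x hx
    have hwx : w x = w x0 := by
      rw [← hall] at hx
      exact (Finset.mem_filter.1 hx).2
    have h2 := hX hx
    rw [Finset.mem_sdiff, Finset.mem_union] at h2
    refine Finset.mem_sdiff.2 ⟨Finset.mem_filter.2 ⟨hXZ x hx, hwx⟩, fun h3 => h2.2 (Or.inr ?_)⟩
    exact Finset.mem_biUnion.2 ⟨w x0, Finset.mem_image_of_mem w (hXZ x0 hx0), h3⟩

end Pool.Agent.FX
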