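import Pool.Agent.FX.Stm

/-!
# MP_07b392_co, project FX: general version, a family `F` of edge-disjoint 5-cycles and few others
-/

set_option autoImplicit false

namespace Pool.Agent.FX

open Classical
open Pool.Agent.H41.Fire (IsPlanar Rotation cycles)

universe u v

variable {V : Type u} {C : Type v}

/-- the members of the family `F` inside `X` -/
noncomputable def pg (F : Set (Finset V)) (X : Finset V) : Finset (Finset V) :=
  X.powerset.filter fun P => P ∈ F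

/-- number of members of `F` inside `X` -/
noncomputable def cg (F : Set (Finset V)) (X : Finset V) : ℕ := (pg F X).card

/-- `F` is a family of pairwise edge-disjoint 5-cycles -/
def EF (G : SimpleGraph V) (F : Set (Finset V)) : Prop :=
  (∀ P ∈ F, Pe G P) ∧ ∀ P ∈ F, ∀ Q ∈ F, P ≠ Q →
    ∀ a b, a ∈ P → b ∈ P → a ∈ Q → b ∈ Q → ¬ G.Adj a b

/-- number of 5-cycles inside `X` that are not in `F` -/
noncomputable def bg (G : SimpleGraph V) (F : Set (Finset V)) (X : Finset V) : ℕ :=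
  ((pe G X).filter fun P => P ∉ F).card

/-- connected sets contain few 5-cycles outside `F` -/
def Few (G : SimpleGraph V) (F : Set (Finset V)) : Prop :=
  ∀ X : Finset V, Cn G X → 100 * bg G F X ≤ 300 + X.card

/-- the members of `F` in the graph `Z` that meet `H` -/
noncomputable def pmg (F : Set (Finset V)) (Z H : Finset V) : Finset (Finset V) :=
  (pg F Z).filter fun P => (P ∩ H).Nonempty

/-- the potential, times 400 -/
noncomputable def PsG (G : SimpleGraph V) (F : Set (Finset V)) (Z H : Finset V) : ℤ :=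
  602 * (H.card : ℤ) + 100 * ((pmg F Z H).card : ℤ) - 200 * (e2 G H : ℤ) - 400 * (bd G Z H : ℤ)

/-- the key inequality for the subsets of `H` in the graph `Z` -/
def KeyG (G : SimpleGraph V) (F : Set (Finset V)) (Z H : Finset V) : Prop :=
  ∀ X ⊆ H, 200 * e2 G X + 350 * ∑ x ∈ X, dg G (Z \ H) x ≤ 602 * X.card + 100 * cg F X

/-- B2 -/
def SPe1G : Prop := ∀ (V : Type u) (G : SimpleGraph V) (F : Set (Finset V)), EF G F →
  (∀ (X : Finset V) (x : V), 2 * ((pg F X).filter fun P => x ∈ P).card ≤ dg G X x) ∧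
  (∀ X : Finset V, 5 * cg F X = ∑ x ∈ X, ((pg F X).filter fun P => x ∈ P).card) ∧
  (∀ X : Finset V, 10 * cg F X ≤ e2 G X) ∧
  (∀ (X : Finset V) (v : V), v ∉ X → 2 * cg F (insert v X) ≤ 2 * cg F X + dg G X v)

/-- B3 -/
def SPe2G : Prop := ∀ (V : Type u) (G : SimpleGraph V) (F : Set (Finset V)), G5 G → EF G F →
  ∀ Z H X : Finset V, H ⊆ Z → X ⊆ H →
    2 * ((pg F Z).filter fun P => (P ∩ H).Nonempty ∧ P ∩ H ⊆ X ∧ ¬ P ⊆ X).card ≤
      ∑ x ∈ X, dg G (Z \ H) x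

/-- C6: Lemma G, and its version with a bonus for a vertex with one colour and two neighbours -/
def SLemGG : Prop := ∀ (V : Type u) (C : Type v) [Nonempty C] (G : SimpleGraph V)
  (F : Set (Finset V)) (L : V → Finset C) (Y : Finset V), G5 G → EF G F → Cr G L Y →
  (∀ x ∈ Y, (L x).card ≤ 3) →
  602 * Y.card + 100 * cg F Y + 76 ≤ 200 * e2 G Y + 238 * ∑ x ∈ Y, (3 - (L x).card) ∧
  ((∃ v ∈ Y, (L v).card = 1 ∧ 2 ≤ dg G Y v) →
    602 * Y.card + 100 * cg F Y + 251 ≤ 200 * e2 G Y + 238 * ∑ x ∈ Y, (3 - (L x).card))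

/-- the planar inequality for connected sets -/
def PIG (V : Type u) (G : SimpleGraph V) (F : Set (Finset V)) : Prop :=
  ∀ X : Finset V, Cn G X → 2 ≤ X.card → 200 * e2 G X + 702 ≤ 602 * X.card + 100 * cg F X

/-- P8: the planar inequalities for a graph with few 5-cycles outside `F` -/
def SPlaG : Prop := ∀ (V : Type u) [Fintype V] (G : SimpleGraph V) (F : Set (Finset V)),
  IsPlanar G → G5 G → EF G F → Few G F → PIG V G F ∧
    ∀ X : Finset V, 200 * e2 G X ≤ 601 * X.card + 100 * cg F X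

/-- R1 -/
def SPosG : Prop := ∀ (V : Type u) (G : SimpleGraph V) (F : Set (Finset V)), EF G F →
  (∀ X : Finset V, 200 * e2 G X ≤ 601 * X.card + 100 * cg F X) → ∀ (K : ℕ) (Z S : Finset V),
    Z.Nonempty → S ⊆ Z → 800 * S.card ≤ Z.card → (∀ X ⊆ Z \ S, Cn G X → X.card ≤ K) →
      ∃ H ⊆ Z, H.card ≤ K ∧ 0 < PsG G F Z H

/-- R2 -/
def SPsiG : Prop := ∀ (V : Type u) (G : SimpleGraph V) (F : Set (Finset V)), G5 G → EF G F →
  ∀ Z H X : Finset V, H ⊆ Z → X ⊆ H → PsG G F Z (H \ X) ≤ PsG G F Z H →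
    200 * e2 G X + 350 * ∑ x ∈ X, dg G (Z \ H) x ≤ 602 * X.card + 100 * cg F X

/-- R3 -/
def SKeyG : Prop := ∀ (V : Type u) (G : SimpleGraph V) (F : Set (Finset V)), G5 G → EF G F →
  ∀ (K : ℕ) (Z : Finset V), (∃ H ⊆ Z, H.card ≤ K ∧ 0 < PsG G F Z H) →
    ∃ H ⊆ Z, H.Nonempty ∧ H.card ≤ K ∧ KeyG G F Z H

/-- R4: (FORB), for subsets -/
def SForbG : Prop := ∀ (V : Type u) (C : Type v) [Nonempty C] (G : SimpleGraph V)
  (F : Set (Finset V)), G5 G → EF G F → PIG V G F → ∀ Z H : Finset V, H ⊆ Z → KeyG G F Z H →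
  ∀ X ⊆ H, ∀ v : V, ∀ L : V → Finset C, (∀ x ∈ X, (L x).card ≤ 3) →
    (∀ x ∈ X, x ≠ v → 3 ≤ (L x).card + dg G (Z \ H) x) →
    (v ∈ X → 2 ≤ (L v).card + dg G (Z \ H) v) → Col G L X

/-- R5: (FIX) -/
def SFixG : Prop := ∀ (V : Type u) (C : Type v) [Nonempty C] (G : SimpleGraph V)
  (F : Set (Finset V)), G5 G → EF G F → PIG V G F → ∀ Z H : Finset V, H ⊆ Z → KeyG G F Z H →
  ∀ v ∈ H, ∀ L : V → Finset C, (∀ x ∈ H, (L x).card ≤ 3) →
    (∀ x ∈ H, x ≠ v → 3 ≤ (L x).card + dg G (Z \ H) x) → 1 ≤ (L v).card → Col G L H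

/-- H2: hyperfiniteness with a parameter -/
def SHypK : Prop := ∀ k : ℕ, 800 ≤ k → ∀ (V : Type u) [Fintype V] (G : SimpleGraph V),
  IsPlanar G → ∀ Z : Finset V, ∃ S ⊆ Z, k * S.card ≤ 2 * Z.card ∧
    ∀ X ⊆ Z \ S, Cn G X → X.card ≤ 8 * k * k

/-- the bound for the size of the parts -/
def K2 : ℕ := 8 * 1600 * 1600

/-- F3: the main theorem in internal form -/
def SMainG : Prop := ∀ (V : Type u) [Fintype V] (C : Type v) (G : SimpleGraph V)
  (F : Set (Finset V)), IsPlanar G → G5 G → EF G F → Few G F →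
  WFlex V C G ((1 / 3 : ℝ) ^ (2 * K2))

/-! ### version A: at most `|X| / 4 + 6` 5-cycles inside every connected set `X` -/

/-- the density condition -/
def Den (G : SimpleGraph V) : Prop := ∀ X : Finset V, Cn G X → 4 * c5 G X ≤ 24 + X.card

/-- the potential, times 800 -/
noncomputable def PsA (G : SimpleGraph V) (Z H : Finset V) : ℤ :=
  1252 * (H.card : ℤ) - 400 * (e2 G H : ℤ) - 800 * (bd G Z H : ℤ)

/-- the key inequality -/
def KeyA (G : SimpleGraph V) (Z H : Finset V) : Prop :=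
  ∀ X ⊆ H, 400 * e2 G X + 800 * ∑ x ∈ X, dg G (Z \ H) x ≤ 1252 * X.card

/-- A-C6 -/
def SLemA : Prop := ∀ (V : Type u) (C : Type v) [Nonempty C] (G : SimpleGraph V)
  (L : V → Finset C) (Y : Finset V), G5 G → Cr G L Y → (∀ x ∈ Y, (L x).card ≤ 3) →
  1252 * Y.card + 174 ≤ 400 * e2 G Y + 487 * ∑ x ∈ Y, (3 - (L x).card) ∧
  ((∃ v ∈ Y, (L v).card = 1 ∧ 2 ≤ dg G Y v) →
    1252 * Y.card + 522 ≤ 400 * e2 G Y + 487 * ∑ x ∈ Y, (3 - (L x).card))

/-- the planar inequality for connected sets -/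
def PIA (V : Type u) (G : SimpleGraph V) : Prop :=
  ∀ X : Finset V, Cn G X → 400 * e2 G X + 1000 ≤ 1250 * X.card

/-- A-P8 -/
def SPlaA : Prop := ∀ (V : Type u) [Fintype V] (G : SimpleGraph V), IsPlanar G → G5 G →
  Den G → PIA V G ∧ ∀ X : Finset V, 400 * e2 G X ≤ 1250 * X.card

/-- A-R1 -/
def SPosA : Prop := ∀ (V : Type u) (G : SimpleGraph V),
  (∀ X : Finset V, 400 * e2 G X ≤ 1250 * X.card) → ∀ (K : ℕ) (Z S : Finset V),
    Z.Nonempty → S ⊆ Z → 800 * S.card ≤ Z.card → (∀ X ⊆ Z \ S, Cn G X → X.card ≤ K) →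
      ∃ H ⊆ Z, H.card ≤ K ∧ 0 < PsA G Z H

/-- A-R3 -/
def SKeyA : Prop := ∀ (V : Type u) (G : SimpleGraph V) (K : ℕ) (Z : Finset V),
  (∃ H ⊆ Z, H.card ≤ K ∧ 0 < PsA G Z H) → ∃ H ⊆ Z, H.Nonempty ∧ H.card ≤ K ∧ KeyA G Z H

/-- A-R4 -/
def SForbA : Prop := ∀ (V : Type u) (C : Type v) [Nonempty C] (G : SimpleGraph V),
  G5 G → PIA V G → ∀ Z H : Finset V, H ⊆ Z → KeyA G Z H →
  ∀ X ⊆ H, ∀ v : V, ∀ L : V → Finset C, (∀ x ∈ X, (L x).card ≤ 3) →
    (∀ x ∈ X, x ≠ v → 3 ≤ (L x).card + dg G (Z \ H) x) →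
    (v ∈ X → 2 ≤ (L v).card + dg G (Z \ H) v) → Col G L X

/-- A-R5 -/
def SFixA : Prop := ∀ (V : Type u) (C : Type v) [Nonempty C] (G : SimpleGraph V),
  G5 G → PIA V G → ∀ Z H : Finset V, H ⊆ Z → KeyA G Z H →
  ∀ v ∈ H, ∀ L : V → Finset C, (∀ x ∈ H, (L x).card ≤ 3) →
    (∀ x ∈ H, x ≠ v → 3 ≤ (L x).card + dg G (Z \ H) x) → 1 ≤ (L v).card → Col G L H

/-- A-F3 -/
def SMainA : Prop := ∀ (V : Type u) [Fintype V] (C : Type v) (G : SimpleGraph V),
  IsPlanar G → G5 G → Den G → WFlex V C G ((1 / 3 : ℝ) ^ (2 * K2))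

/-- `P` is the vertex set of a 5-cycle -/
def Five (G : SimpleGraph V) (P : Finset V) : Prop :=
  ∃ (a : V) (p : G.Walk a a), p.IsCycle ∧ p.length = 5 ∧ ∀ x, x ∈ P ↔ x ∈ p.support

/-- F4: girth, 5-cycles and connected sets in terms of Mathlib -/
def SCycG : Prop := ∀ (V : Type u) (G : SimpleGraph V), 5 ≤ G.egirth →
  G5 G ∧ (∀ P : Finset V, Five G P ↔ Pe G P) ∧
  ∀ X : Finset V, Cn G X ↔ (G.induce (X : Set V)).Connected

end Pool.Agent.FX
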