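import Pool.Agent.FX.Hyp
import Pool.Agent.FX.StmG

/-!
# MP_07b392_co, project FX, row H2K: planar graphs are hyperfinite, with a parameter
-/

set_option autoImplicit false

namespace Pool.Agent.FX

open Classical
open Pool.Agent.H41.Fire (IsPlanar)

universe u

theorem hk_level {V : Type u} (k : ℕ) (hk : 0 < k) (lev : V → ℕ) (Z : Finset V) :
    ∃ i < k, k * (Z.filter fun z => lev z % k = i).card ≤ Z.card := by
  have h0 : ∑ i ∈ Finset.range k, k * (Z.filter fun z => lev z % k = i).card ≤
      ∑ _i ∈ Finset.range k, Z.card := by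
    rw [← Finset.mul_sum, ← Finset.card_eq_sum_card_fiberwise (f := fun z => lev z % k)
      (s := Z) (t := Finset.range k), Finset.sum_const, Finset.card_range, smul_eq_mul]
    intro z _
    simp only [Finset.coe_range, Set.mem_Iio]
    exact Nat.mod_lt _ hk
  obtain ⟨i, hi, hi2⟩ := Finset.exists_le_of_sum_le ⟨0, Finset.mem_range.2 hk⟩ h0
  exact ⟨i, Finset.mem_range.1 hi, hi2⟩

/-- the window does not change between the levels `a` and `a + 1` -/
theorem hk_div (k i a : ℕ) (hi : i < k) (ha : a % k ≠ i) :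
    (a + 1 + (k - 1 - i)) / k = (a + (k - 1 - i)) / k := by
  have e : a + 1 + (k - 1 - i) = (a + (k - 1 - i)) + 1 := by omega
  rw [e, Nat.succ_div, if_neg, Nat.add_zero]
  rintro ⟨t, ht⟩
  apply ha
  have ht0 : t ≠ 0 := by
    rintro rfl
    rw [Nat.mul_zero] at ht
    omega
  obtain ⟨s, rfl⟩ := Nat.exists_eq_succ_of_ne_zero ht0
  have h1 : a = k * s + i := by
    rw [Nat.mul_succ] at ht
    omega
  rw [h1, Nat.mul_add_mod, Nat.mod_eq_of_lt hi]

theorem hypK (h1 : SSep.{u}) : SHypK.{u} := by
  intro k hk V _ G hP Z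
  obtain ⟨lev, hlev, hsep⟩ := h1 V G hP
  obtain ⟨i, hi, hiZ⟩ := hk_level k (by omega) lev Z
  set S1 := Z.filter fun z => lev z % k = i with hS1
  have hnot : ∀ z ∈ Z \ S1, lev z % k ≠ i := by
    intro z hz h2
    rw [Finset.mem_sdiff] at hz
    exact hz.2 (Finset.mem_filter.2 ⟨hz.1, h2⟩)
  set w : V → G.ConnectedComponent × ℕ := fun z =>
    (G.connectedComponentMk z, (lev z + (k - 1 - i)) / k) with hwdef
  have hw : ∀ a b, G.Adj a b → lev a % k ≠ i → lev b % k ≠ i → w a = w b := by
    intro a b hab ha hb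
    have g1 := hlev a b hab
    have g2 := hlev b a hab.symm
    have g3 : (lev a + (k - 1 - i)) / k = (lev b + (k - 1 - i)) / k := by
      have g5 : lev a = lev b ∨ lev a = lev b + 1 ∨ lev b = lev a + 1 := by omega
      rcases g5 with g5 | g5 | g5
      · rw [g5]
      · rw [g5]
        exact hk_div k i (lev b) hi hb
      · rw [g5]
        exact (hk_div k i (lev a) hi ha).symm
    have g4 : G.connectedComponentMk a = G.connectedComponentMk b :=
      SimpleGraph.ConnectedComponent.sound hab.reachable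
    simp only [hwdef, g3, g4]
  have hcl : ∀ c : G.ConnectedComponent × ℕ, ∃ S ⊆ (Z \ S1).filter (fun z => w z = c),
      (∀ X ⊆ (Z \ S1).filter (fun z => w z = c) \ S, Cn G X → X.card ≤ 8 * k * k) ∧
      8 * k * k * S.card ≤ 8 * k * ((Z \ S1).filter (fun z => w z = c)).card := by
    intro c
    apply hy_claim2 G lev k (8 * k * k) (by nlinarith) (k * c.2 - (k - 1 - i))
    · intro U hU
      exact hsep _ k U hU.1 hU.2
    · constructor
      · intro a ha
        have ha2 := (Finset.mem_filter.1 ha).2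
        have ha3 : (lev a + (k - 1 - i)) / k = c.2 := by
          rw [← ha2]
        have ha4 : k * c.2 ≤ lev a + (k - 1 - i) := by
          rw [← ha3]
          exact Nat.mul_div_le _ _
        have ha5 : lev a + (k - 1 - i) < k * c.2 + k := by
          rw [← ha3]
          exact Nat.lt_mul_div_succ _ (by omega)
        generalize k * c.2 = P at *
        omega
      · intro a ha b hb
        have ha2 := (Finset.mem_filter.1 ha).2
        have hb2 := (Finset.mem_filter.1 hb).2
        have hc : w a = w b := ha2.trans hb2.symm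
        have hc2 : G.connectedComponentMk a = G.connectedComponentMk b := congrArg Prod.fst hc
        exact SimpleGraph.ConnectedComponent.exact hc2
  choose Sc hSc1 hSc2 hSc3 using hcl
  set I := (Z \ S1).image w with hI
  refine ⟨S1 ∪ I.biUnion Sc, ?_, ?_, ?_⟩
  · apply Finset.union_subset (Finset.filter_subset _ _)
    intro x hx
    obtain ⟨c, _, hc⟩ := Finset.mem_biUnion.1 hx
    exact (Finset.mem_sdiff.1 (Finset.mem_filter.1 (hSc1 c hc)).1).1
  · have k1 : (I.biUnion Sc).card ≤ ∑ c ∈ I, (Sc c).card := Finset.card_biUnion_le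
    have k2 : 8 * k * k * ∑ c ∈ I, (Sc c).card ≤
        8 * k * ∑ c ∈ I, ((Z \ S1).filter (fun z => w z = c)).card := by
      rw [Finset.mul_sum, Finset.mul_sum]
      exact Finset.sum_le_sum fun c _ => hSc3 c
    have k3 : (Z \ S1).card = ∑ c ∈ I, ((Z \ S1).filter (fun z => w z = c)).card := by
      apply Finset.card_eq_sum_card_fiberwise
      intro z hz
      exact Finset.mem_coe.2 (Finset.mem_image_of_mem w hz)
    rw [← k3, Nat.mul_assoc (8 * k)] at k2
    have k6 : k * ∑ c ∈ I, (Sc c).card ≤ (Z \ S1).card :=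
      Nat.le_of_mul_le_mul_left k2 (by omega)
    have k4 : (Z \ S1).card ≤ Z.card := Finset.card_le_card Finset.sdiff_subset
    have k5 := Finset.card_union_le S1 (I.biUnion Sc)
    have k7 : k * (S1 ∪ I.biUnion Sc).card ≤ k * (S1.card + ∑ c ∈ I, (Sc c).card) :=
      Nat.mul_le_mul_left k (k5.trans (Nat.add_le_add_left k1 _))
    rw [Nat.mul_add] at k7
    omega
  · intro X hX hC
    obtain ⟨x0, hx0⟩ := hC.1
    have hXZ : ∀ x ∈ X, x ∈ Z \ S1 := by
      intro x hx
      have h2 := hX hx
      rw [Finset.mem_sdiff, Finset.mem_union] at h2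
      exact Finset.mem_sdiff.2 ⟨h2.1, fun h3 => h2.2 (Or.inl h3)⟩
    have hall : X.filter (fun x => w x = w x0) = X := by
      by_contra hne
      obtain ⟨a, ha, b, hb, hab⟩ := hC.2 (X.filter fun x => w x = w x0)
        (Finset.filter_subset _ _) ⟨x0, Finset.mem_filter.2 ⟨hx0, rfl⟩⟩ hne
      rw [Finset.mem_filter] at ha
      rw [Finset.mem_sdiff, Finset.mem_filter] at hb
      apply hb.2
      refine ⟨hb.1, ?_⟩
      rw [← ha.2]
      exact (hw a b hab (hnot a (hXZ a ha.1)) (hnot b (hXZ b hb.1))).symm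
    apply hSc2 (w x0) X _ hC
    intro x hx
    have hwx : w x = w x0 := by
      rw [← hall] at hx
      exact (Finset.mem_filter.1 hx).2
    have h2 := hX hx
    rw [Finset.mem_sdiff, Finset.mem_union] at h2
    refine Finset.mem_sdiff.2 ⟨Finset.mem_filter.2 ⟨hXZ x hx, hwx⟩, fun h3 => h2.2 (Or.inr ?_)⟩
    exact Finset.mem_biUnion.2 ⟨w x0, Finset.mem_image_of_mem w (hXZ x0 hx0), h3⟩

end Pool.Agent.FX
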