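import Pool.Agent.FX.StmG

/-!
# MP_07b392_co, project FX, row AR3: the key inequality, version A
-/

set_option autoImplicit false

namespace Pool.Agent.FX

open Classical

universe u v

/-- the change of the number of boundary edges -/
theorem keyA_bd (h1 : SBas.{u}) {V : Type u} (G : SimpleGraph V) {Z H X : Finset V} (hH : H ⊆ Z)
    (hX : X ⊆ H) : bd G Z H + ∑ x ∈ X, dg G (H \ X) x =
      bd G Z (H \ X) + ∑ x ∈ X, dg G (Z \ H) x := by
  have e1 : bd G Z H = ∑ x ∈ H \ X, dg G (Z \ H) x + ∑ x ∈ X, dg G (Z \ H) x :=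
    (Finset.sum_sdiff hX).symm
  have hXZ : X ⊆ Z \ (H \ X) := by
    intro x hx
    rw [Finset.mem_sdiff, Finset.mem_sdiff]
    exact ⟨hH (hX hx), fun h => h.2 hx⟩
  have hZ : (Z \ (H \ X)) \ X = Z \ H := by
    ext x
    simp only [Finset.mem_sdiff]
    constructor
    · rintro ⟨⟨a, b⟩, c⟩
      exact ⟨a, fun h => b ⟨h, c⟩⟩
    · rintro ⟨a, b⟩
      exact ⟨⟨a, fun h => b h.1⟩, fun h => b (hX h)⟩
  have e2 : bd G Z (H \ X) = ∑ x ∈ H \ X, dg G X x + ∑ x ∈ H \ X, dg G (Z \ H) x := by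
    rw [← Finset.sum_add_distrib]
    apply Finset.sum_congr rfl
    intro x _
    have := (h1 V G).2.2.2.2 (Z \ (H \ X)) X x hXZ
    rw [hZ] at this
    exact this
  have e3 := (h1 V G).2.2.2.1 H X hX
  omega

/-- the change of the potential -/
theorem keyA_psi (h1 : SBas.{u}) {V : Type u} (G : SimpleGraph V) {Z H X : Finset V}
    (hH : H ⊆ Z) (hX : X ⊆ H) (h : PsA G Z (H \ X) ≤ PsA G Z H) :
    400 * e2 G X + 800 * ∑ x ∈ X, dg G (Z \ H) x ≤ 1252 * X.card := by
  have a1 := keyA_bd h1 G hH hX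
  have a2 := (h1 V G).2.2.1 H X hX
  have a3 : (H \ X).card + X.card = H.card := Finset.card_sdiff_add_card_eq_card hX
  unfold PsA at h
  generalize (∑ x ∈ X, dg G (Z \ H) x) = o at *
  generalize (∑ x ∈ X, dg G (H \ X) x) = q at *
  generalize bd G Z H = b1 at *
  generalize bd G Z (H \ X) = b2 at *
  generalize e2 G H = c1 at *
  generalize e2 G (H \ X) = c2 at *
  generalize e2 G X = c3 at *
  generalize H.card = d1 at *
  generalize (H \ X).card = d2 at *
  generalize X.card = d3 at *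
  omega

/-- A-R3: a small set with the key inequality -/
theorem keyA (h1 : SBas.{u}) : SKeyA.{u} := by
  intro V G K Z hex
  obtain ⟨H0, hH0, hc0, hp0⟩ := hex
  have hne : (Z.powerset.filter fun H => H.card ≤ K).Nonempty :=
    ⟨H0, Finset.mem_filter.2 ⟨Finset.mem_powerset.2 hH0, hc0⟩⟩
  obtain ⟨H, hHm, hmax⟩ := Finset.exists_max_image _ (fun H => PsA G Z H) hne
  obtain ⟨hHZ, hHK⟩ := Finset.mem_filter.1 hHm
  have hHZ' : H ⊆ Z := Finset.mem_powerset.1 hHZ
  have hpos : 0 < PsA G Z H :=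
    lt_of_lt_of_le hp0 (hmax H0 (Finset.mem_filter.2 ⟨Finset.mem_powerset.2 hH0, hc0⟩))
  refine ⟨H, hHZ', ?_, hHK, ?_⟩
  · rw [Finset.nonempty_iff_ne_empty]
    intro he
    subst he
    simp [PsA, e2, bd] at hpos
  · intro X hX
    apply keyA_psi h1 G hHZ' hX
    apply hmax
    refine Finset.mem_filter.2 ⟨Finset.mem_powerset.2 (Finset.sdiff_subset.trans hHZ'), ?_⟩
    exact (Finset.card_le_card Finset.sdiff_subset).trans hHK

end Pool.Agent.FX
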