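import Pool.Agent.FX.StmG

/-!
# MP_07b392_co, project FX, row GR3: a small set with the key inequality, general version
-/

set_option autoImplicit false

namespace Pool.Agent.FX

open Classical

universe u

/-- the potential of the empty set -/
theorem keyG_empty {V : Type u} (G : SimpleGraph V) (F : Set (Finset V)) (Z : Finset V) :
    PsG G F Z ∅ = 0 := by
  have h1 : pmg F Z ∅ = ∅ := by
    unfold pmg
    apply Finset.filter_eq_empty_iff.2
    intro P _
    simp
  have h2 : e2 G ∅ = 0 := by simp [e2]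
  have h3 : bd G Z ∅ = 0 := by simp [bd]
  unfold PsG
  rw [h1, h2, h3]
  simp

/-- a small set with maximal potential -/
theorem keyG_max {V : Type u} (G : SimpleGraph V) (F : Set (Finset V)) (K : ℕ) (Z : Finset V) :
    ∃ H ⊆ Z, H.card ≤ K ∧ ∀ H' ⊆ Z, H'.card ≤ K → PsG G F Z H' ≤ PsG G F Z H := by
  have hne : (Z.powerset.filter fun H => H.card ≤ K).Nonempty := by
    refine ⟨∅, ?_⟩
    rw [Finset.mem_filter, Finset.mem_powerset]
    exact ⟨Finset.empty_subset _, by simp⟩
  obtain ⟨H, hH, hmax⟩ := Finset.exists_max_image _ (fun H => PsG G F Z H) hne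
  rw [Finset.mem_filter, Finset.mem_powerset] at hH
  refine ⟨H, hH.1, hH.2, ?_⟩
  intro H' hH' hc
  exact hmax H' (Finset.mem_filter.2 ⟨Finset.mem_powerset.2 hH', hc⟩)

/-- GR3 -/
theorem keyG (h1 : SPsiG.{u}) : SKeyG.{u} := by
  intro V G F hg hF K Z hex
  obtain ⟨H0, hH0, hc0, hp0⟩ := hex
  obtain ⟨H, hH, hc, hmax⟩ := keyG_max G F K Z
  have hpos : 0 < PsG G F Z H := lt_of_lt_of_le hp0 (hmax H0 hH0 hc0)
  refine ⟨H, hH, ?_, hc, ?_⟩
  · rw [Finset.nonempty_iff_ne_empty]
    intro h0
    rw [h0, keyG_empty] at hpos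
    exact absurd hpos (lt_irrefl 0)
  · intro X hX
    apply h1 V G F hg hF Z H X hH hX
    apply hmax
    · exact Finset.sdiff_subset.trans hH
    · exact (Finset.card_le_card Finset.sdiff_subset).trans hc

end Pool.Agent.FX
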