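import Pool.Agent.FX.StmG

/-!
# MP_07b392_co, project FX: Lemma G without pentagons (version A)
-/

set_option autoImplicit false

namespace Pool.Agent.FX

open Classical

universe u v

theorem lemA_arith (n0 n1 E r r0 s1 : ℕ) (hi : E + r = 3 * n0 + s1) (h1 : 4 * n1 ≤ s1)
    (hr : r0 ≤ r) (hii : 0 < n0 → 18 * n0 + 10 ≤ 5 * (E + 2 * r0)) (hn : 0 < n0 + n1) :
    1252 * (n0 + n1) + 174 ≤ 400 * E + 487 * r ∧
      (r0 + 2 ≤ r → 1252 * (n0 + n1) + 522 ≤ 400 * E + 487 * r) := by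
  rcases Nat.eq_zero_or_pos n0 with h0 | h0
  · subst h0
    constructor
    · omega
    · intro h
      omega
  · have := hii h0
    constructor
    · omega
    · intro h
      omega

theorem lemA (h1 : SBas.{u}) (h3 : SCrit.{u, v}) (h4 : SThE2.{u, v}) : SLemA.{u, v} := by
  intro V C _ G L Y hG hCr hL
  obtain ⟨-, -, hb3, -, hb5⟩ := h1 V G
  obtain ⟨-, -, hc⟩ := h3 V C G L
  obtain ⟨hne, -, hdeg, -⟩ := hc Y hCr
  set Y0 : Finset V := Y.filter fun x => dg G Y x = (L x).card with hY0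
  set Y1 : Finset V := Y.filter fun x => ¬ dg G Y x = (L x).card with hY1
  have hY0s : Y0 ⊆ Y := Finset.filter_subset _ _
  have hsplit : ∀ f : V → ℕ, ∑ x ∈ Y, f x = ∑ x ∈ Y0, f x + ∑ x ∈ Y1, f x := fun f =>
    (Finset.sum_filter_add_sum_filter_not Y _ f).symm
  have hcard : Y.card = Y0.card + Y1.card := by
    rw [Finset.card_eq_sum_ones, Finset.card_eq_sum_ones, Finset.card_eq_sum_ones, hsplit]
  have hE : e2 G Y = ∑ x ∈ Y0, dg G Y x + ∑ x ∈ Y1, dg G Y x := hsplit _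
  have hr := hsplit fun x => 3 - (L x).card
  have h00 : ∑ x ∈ Y0, dg G Y x + ∑ x ∈ Y0, (3 - (L x).card) = 3 * Y0.card := by
    rw [← Finset.sum_add_distrib, Finset.card_eq_sum_ones, Finset.mul_sum]
    refine Finset.sum_congr rfl fun x hx => ?_
    have hx' := Finset.mem_filter.1 hx
    have := hL x hx'.1
    have := hx'.2
    omega
  have h11 : 4 * Y1.card ≤ ∑ x ∈ Y1, dg G Y x + ∑ x ∈ Y1, (3 - (L x).card) := by
    rw [← Finset.sum_add_distrib, Finset.card_eq_sum_ones, Finset.mul_sum]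
    refine Finset.sum_le_sum fun x hx => ?_
    have hx' := Finset.mem_filter.1 hx
    have h5 := hL x hx'.1
    have h6 := hx'.2
    have h7 := hdeg x hx'.1
    omega
  have hii : 0 < Y0.card → 18 * Y0.card + 10 ≤
      5 * (e2 G Y + 2 * ∑ x ∈ Y0, (3 - (L x).card)) := by
    intro hpos
    have hth := h4 V C G L Y hG hCr hL Y0 hY0 (Finset.card_pos.1 hpos)
    have h31 := hb3 Y Y0 hY0s
    have h32 : ∑ x ∈ Y0, dg G Y x = e2 G Y0 + ∑ x ∈ Y0, dg G (Y \ Y0) x := by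
      unfold e2
      rw [← Finset.sum_add_distrib]
      exact Finset.sum_congr rfl fun x _ => hb5 Y Y0 x hY0s
    omega
  have hnn : 0 < Y0.card + Y1.card := by
    rw [← hcard]
    exact Finset.card_pos.2 hne
  have hA := lemA_arith Y0.card Y1.card (e2 G Y) (∑ x ∈ Y, (3 - (L x).card))
    (∑ x ∈ Y0, (3 - (L x).card))
    (∑ x ∈ Y1, dg G Y x + ∑ x ∈ Y1, (3 - (L x).card)) (by omega) h11 (by omega) hii hnn
  rw [hcard]
  refine ⟨hA.1, ?_⟩
  rintro ⟨v, hv, hLv, hdv⟩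
  refine hA.2 ?_
  have hv1 : v ∈ Y1 := Finset.mem_filter.2 ⟨hv, by omega⟩
  have h2 : 3 - (L v).card ≤ ∑ x ∈ Y1, (3 - (L x).card) :=
    Finset.single_le_sum (f := fun x => 3 - (L x).card) (fun _ _ => Nat.zero_le _) hv1
  omega

end Pool.Agent.FX
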