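import Pool.Agent.FX.Stm

/-!
# MP_07b392_co, project FX: Lemma G
-/

set_option autoImplicit false

namespace Pool.Agent.FX

open Classical

universe u v

theorem lemG_arith (n0 n1 c E r s1 : ℕ) (hi : E + r = 3 * n0 + s1) (h1 : 4 * n1 ≤ s1)
    (hii : 0 < n0 → 18 * n0 + 10 ≤ 5 * (E + 2 * r)) (hiii : 10 * c ≤ 2 * n0 + s1)
    (hn : 0 < n0 + n1) : 602 * (n0 + n1) + 100 * c + 76 ≤ 200 * E + 238 * r := by
  rcases Nat.eq_zero_or_pos n0 with h0 | h0
  · subst h0
    omega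
  · have := hii h0
    omega

theorem lemG (h1 : SBas.{u}) (h2 : SPe1.{u}) (h3 : SCrit.{u, v}) (h4 : SThE2.{u, v}) :
    SLemG.{u, v} := by
  intro V C _ G L Y hG hED hCr hL
  obtain ⟨-, -, hb3, -, hb5⟩ := h1 V G
  obtain ⟨hp1, hp2, -, -⟩ := h2 V G hED
  obtain ⟨-, -, hc⟩ := h3 V C G L
  obtain ⟨hne, -, hdeg, -⟩ := hc Y hCr
  set Y0 : Finset V := Y.filter fun x => dg G Y x = (L x).card with hY0
  set Y1 : Finset V := Y.filter fun x => ¬ dg G Y x = (L x).card with hY1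
  have hY0s : Y0 ⊆ Y := Finset.filter_subset _ _
  have hsplit : ∀ f : V → ℕ, ∑ x ∈ Y, f x = ∑ x ∈ Y0, f x + ∑ x ∈ Y1, f x := fun f =>
    (Finset.sum_filter_add_sum_filter_not Y _ f).symm
  have hcard : Y.card = Y0.card + Y1.card := by
    rw [Finset.card_eq_sum_ones, Finset.card_eq_sum_ones, Finset.card_eq_sum_ones, hsplit]
  have hE : e2 G Y = ∑ x ∈ Y0, dg G Y x + ∑ x ∈ Y1, dg G Y x := hsplit _
  have hr := hsplit fun x => 3 - (L x).card
  have h00 : ∑ x ∈ Y0, dg G Y x + ∑ x ∈ Y0, (3 - (L x).card) = 3 * Y0.card := by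
    rw [← Finset.sum_add_distrib, Finset.card_eq_sum_ones, Finset.mul_sum]
    refine Finset.sum_congr rfl fun x hx => ?_
    have hx' := Finset.mem_filter.1 hx
    have := hL x hx'.1
    have := hx'.2
    omega
  have h11 : 4 * Y1.card ≤ ∑ x ∈ Y1, dg G Y x + ∑ x ∈ Y1, (3 - (L x).card) := by
    rw [← Finset.sum_add_distrib, Finset.card_eq_sum_ones, Finset.mul_sum]
    refine Finset.sum_le_sum fun x hx => ?_
    have hx' := Finset.mem_filter.1 hx
    have h5 := hL x hx'.1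
    have h6 := hx'.2
    have h7 := hdeg x hx'.1
    omega
  have hii : 0 < Y0.card → 18 * Y0.card + 10 ≤
      5 * (e2 G Y + 2 * ∑ x ∈ Y, (3 - (L x).card)) := by
    intro hpos
    have hth := h4 V C G L Y hG hCr hL Y0 hY0 (Finset.card_pos.1 hpos)
    have h31 := hb3 Y Y0 hY0s
    have h32 : ∑ x ∈ Y0, dg G Y x = e2 G Y0 + ∑ x ∈ Y0, dg G (Y \ Y0) x := by
      unfold e2
      rw [← Finset.sum_add_distrib]
      exact Finset.sum_congr rfl fun x _ => hb5 Y Y0 x hY0s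
    omega
  have hiii : 10 * c5 G Y ≤ 2 * Y0.card +
      (∑ x ∈ Y1, dg G Y x + ∑ x ∈ Y1, (3 - (L x).card)) := by
    have h51 := hp2 Y
    rw [hsplit] at h51
    have h52 : ∑ x ∈ Y0, ((pe G Y).filter fun P => x ∈ P).card ≤ Y0.card := by
      rw [Finset.card_eq_sum_ones Y0]
      refine Finset.sum_le_sum fun x hx => ?_
      have hx' := Finset.mem_filter.1 hx
      have h5 := hL x hx'.1
      have h6 := hx'.2
      have h7 := hp1 Y x
      omega
    have h53 : 2 * ∑ x ∈ Y1, ((pe G Y).filter fun P => x ∈ P).card ≤ ∑ x ∈ Y1, dg G Y x := by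
      rw [Finset.mul_sum]
      exact Finset.sum_le_sum fun x _ => hp1 Y x
    omega
  have hnn : 0 < Y0.card + Y1.card := by
    rw [← hcard]
    exact Finset.card_pos.2 hne
  have := lemG_arith Y0.card Y1.card (c5 G Y) (e2 G Y) (∑ x ∈ Y, (3 - (L x).card))
    (∑ x ∈ Y1, dg G Y x + ∑ x ∈ Y1, (3 - (L x).card)) (by omega) h11 hii hiii hnn
  rw [hcard]
  exact this

end Pool.Agent.FX
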