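import Pool.Agent.FX.Stm

/-!
# MP_07b392_co, project FX: the main theorem from the rows (F3)
-/

set_option autoImplicit false

namespace Pool.Agent.FX

open Classical
open Pool.Agent.H41.Fire (IsPlanar)

universe u v

/-- a set with fewer than five vertices contains no pentagon -/
theorem f3_c5_small {V : Type u} (G : SimpleGraph V) (X : Finset V) (h : X.card < 5) :
    c5 G X = 0 := by
  unfold c5
  rw [Finset.card_eq_zero]
  unfold pe
  rw [Finset.filter_eq_empty_iff]
  intro P hP hPe
  have h1 : P.card ≤ X.card := Finset.card_le_card (Finset.mem_powerset.1 hP)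
  have h2 : P.card = 5 := hPe.1
  omega

/-- the vertices of a set with the key inequality have at most one neighbour outside -/
theorem f3_out {V : Type u} (G : SimpleGraph V) (Z H : Finset V) (h : Key G Z H) :
    ∀ x ∈ H, dg G (Z \ H) x ≤ 1 := by
  intro x hx
  have h1 := h {x} (Finset.singleton_subset_iff.2 hx)
  rw [Finset.sum_singleton, Finset.card_singleton,
    f3_c5_small G {x} (by rw [Finset.card_singleton]; norm_num)] at h1
  omega

theorem f3_rob {V : Type u} {C : Type v} [Nonempty C] (G : SimpleGraph V) (h5 : G5 G)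
    (hed : ED G) (hPI : PI V G) (forb : SForb.{u, v}) (fix : SFix.{u, v}) (Z H : Finset V)
    (hHZ : H ⊆ Z) (hne : H.Nonempty) (hkey : Key G Z H) : Rob C G Z H where
  sub := hHZ
  ne := hne
  out := f3_out G Z H hkey
  forb := fun v hv L h1 h2 h3 => forb V C G h5 hed hPI Z H hHZ hkey v hv L h1 h2 h3
  fix := fun v hv L h1 h2 h3 => fix V C G h5 hed hPI Z H hHZ hkey v hv L h1 h2 h3

/-- no colours: the statement is empty -/
theorem f3_empty {V : Type u} [Fintype V] {C : Type v} (hC : ¬ Nonempty C)
    (G : SimpleGraph V) (ε : ℝ) : WFlex V C G ε := by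
  intro L hL w _
  by_cases hV : Nonempty V
  · obtain ⟨x⟩ := hV
    have h1 : (L x).Nonempty := by
      rw [← Finset.card_pos, hL x]
      norm_num
    exact absurd ⟨h1.choose⟩ hC
  · have hV' : IsEmpty V := not_nonempty_iff.1 hV
    refine ⟨fun x => (hV'.false x).elim, fun x => (hV'.false x).elim,
      fun x => (hV'.false x).elim, ?_⟩
    rw [Finset.univ_eq_empty, Finset.sum_empty, Finset.sum_empty, mul_zero]

/-- F3: the main theorem in internal form -/
theorem main3 (hyp : SHyp.{u}) (pla : SPla.{u}) (eul : SEul.{u}) (pos : SPos.{u})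
    (key : SKey.{u}) (forb : SForb.{u, v}) (fix : SFix.{u, v}) (flex : SFlex.{u, v}) :
    SMain.{u, v} := by
  intro V _ C G hp h5 hed
  by_cases hC : Nonempty C
  · refine flex KK V C G fun Z hZ => ?_
    obtain ⟨S, hSZ, hS, hX⟩ := hyp V G hp Z
    obtain ⟨pla1, pla2⟩ := pla V G hp h5
    obtain ⟨H, hHZ, hne, hHK, hkey⟩ :=
      key V G h5 hed KK Z (pos V G hed pla2 KK Z S hZ hSZ hS hX)
    exact ⟨H, hHK, f3_rob G h5 hed ⟨pla1, eul V G hp h5⟩ forb fix Z H hHZ hne hkey⟩
  · exact f3_empty hC G _

end Pool.Agent.FX
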