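import Pool.Agent.FX.StmG

/-!
# MP_07b392_co, project FX: the main theorem, version A (A-F3)
-/

set_option autoImplicit false

namespace Pool.Agent.FX

open Classical
open Pool.Agent.H41.Fire (IsPlanar)

universe u v

/-- the vertices of a set with the key inequality have at most one neighbour outside -/
theorem fa3_out {V : Type u} (G : SimpleGraph V) (Z H : Finset V) (h : KeyA G Z H) :
    ∀ x ∈ H, dg G (Z \ H) x ≤ 1 := by
  intro x hx
  have h1 := h {x} (Finset.singleton_subset_iff.2 hx)
  rw [Finset.sum_singleton, Finset.card_singleton] at h1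
  omega

theorem fa3_rob {V : Type u} {C : Type v} [Nonempty C] (G : SimpleGraph V) (h5 : G5 G)
    (hPI : PIA V G) (forb : SForbA.{u, v}) (fix : SFixA.{u, v}) (Z H : Finset V)
    (hHZ : H ⊆ Z) (hne : H.Nonempty) (hkey : KeyA G Z H) : Rob C G Z H where
  sub := hHZ
  ne := hne
  out := fa3_out G Z H hkey
  forb := fun v _ L h1 h2 h3 => forb V C G h5 hPI Z H hHZ hkey H (Finset.Subset.refl H) v L h1 h2
    (fun _ => h3)
  fix := fun v hv L h1 h2 h3 => fix V C G h5 hPI Z H hHZ hkey v hv L h1 h2 h3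

/-- no colours: the statement is empty -/
theorem fa3_empty {V : Type u} [Fintype V] {C : Type v} (hC : ¬ Nonempty C)
    (G : SimpleGraph V) (ε : ℝ) : WFlex V C G ε := by
  intro L hL w _
  by_cases hV : Nonempty V
  · obtain ⟨x⟩ := hV
    have h1 : (L x).Nonempty := by
      rw [← Finset.card_pos, hL x]
      norm_num
    exact absurd ⟨h1.choose⟩ hC
  · have hV' : IsEmpty V := not_nonempty_iff.1 hV
    refine ⟨fun x => (hV'.false x).elim, fun x => (hV'.false x).elim,
      fun x => (hV'.false x).elim, ?_⟩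
    rw [Finset.univ_eq_empty, Finset.sum_empty, Finset.sum_empty, mul_zero]

/-- A-F3: the main theorem, version A, in internal form -/
theorem mainA (hyp : SHypK.{u}) (pla : SPlaA.{u}) (pos : SPosA.{u}) (key : SKeyA.{u})
    (forb : SForbA.{u, v}) (fix : SFixA.{u, v}) (flex : SFlex.{u, v}) : SMainA.{u, v} := by
  intro V _ C G hp h5 hden
  by_cases hC : Nonempty C
  · refine flex K2 V C G fun Z hZ => ?_
    obtain ⟨S, hSZ, hS, hX⟩ := hyp 1600 (by norm_num) V G hp Z
    obtain ⟨pla1, pla2⟩ := pla V G hp h5 hden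
    have hS' : 800 * S.card ≤ Z.card := by omega
    obtain ⟨H, hHZ, hne, hHK, hkey⟩ :=
      key V G K2 Z (pos V G pla2 K2 Z S hZ hSZ hS' (fun X hXZ hXc => hX X hXZ hXc))
    exact ⟨H, hHK, fa3_rob G h5 pla1 forb fix Z H hHZ hne hkey⟩
  · exact fa3_empty hC G _

end Pool.Agent.FX
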