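import Pool.Agent.FX.Edge
import Pool.Agent.FX.Main

/-!
# MP_07b392_co, project FX: main theorem for the edge density condition
-/

set_option autoImplicit false

namespace Pool.Agent.FX

open Classical
open Pool.Agent.H41.Fire (IsPlanar)

universe u v

theorem mainE (hyp : SHypK.{u}) (pos : SPosA.{u}) (key : SKeyA.{u}) (forb : SForbA.{u, v})
    (fix : SFixA.{u, v}) (flex : SFlex.{u, v}) (V : Type u) [Fintype V] (C : Type v)
    (G : SimpleGraph V) (hG : IsPlanar G) (h5 : G5 G) (hPI : PIA V G)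
    (hall : ∀ X : Finset V, 400 * e2 G X ≤ 1250 * X.card) :
    WFlex V C G ((1 / 3 : ℝ) ^ (2 * K2)) := by
  by_cases hC : Nonempty C
  · apply flex K2 V C G
    intro Z hZ
    obtain ⟨S, hSZ, hS, hX⟩ := hyp 1600 (by norm_num) V G hG Z
    obtain ⟨H0, hH0, hc0, hp0⟩ := pos V G hall K2 Z S hZ hSZ (by omega) hX
    obtain ⟨H, hHZ, hne, hc, hk⟩ := key V G K2 Z ⟨H0, hH0, hc0, hp0⟩
    refine ⟨H, hc, hHZ, hne, ?_, ?_, ?_⟩
    · intro x hx
      have h1 := hk {x} (Finset.singleton_subset_iff.2 hx)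
      rw [Finset.sum_singleton, Finset.card_singleton] at h1
      omega
    · exact fun v hv L h1 h2 h3 => forb V C G h5 hPI Z H hHZ hk H (Finset.Subset.refl _) v L h1 h2
        (fun _ => h3)
    · exact fun v hv L h1 h2 h3 => fix V C G h5 hPI Z H hHZ hk v hv L h1 h2 h3
  · exact f3_empty hC G _

end Pool.Agent.FX
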