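import Pool.Agent.FX.Main
import Pool.Agent.FX.StmG

/-!
# MP_07b392_co, project FX: the general main theorem from the rows (GF3)
-/

set_option autoImplicit false

namespace Pool.Agent.FX

open Classical
open Pool.Agent.H41.Fire (IsPlanar)

universe u v

/-- a set with fewer than five vertices contains no member of the family -/
theorem f3g_small {V : Type u} (G : SimpleGraph V) (F : Set (Finset V)) (hF : EF G F)
    (X : Finset V) (h : X.card < 5) : cg F X = 0 := by
  unfold cg
  rw [Finset.card_eq_zero]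
  unfold pg
  rw [Finset.filter_eq_empty_iff]
  intro P hP hPF
  have h1 : P.card ≤ X.card := Finset.card_le_card (Finset.mem_powerset.1 hP)
  have h2 : P.card = 5 := (hF.1 P hPF).1
  omega

/-- the vertices of a set with the key inequality have at most one neighbour outside -/
theorem f3g_out {V : Type u} (G : SimpleGraph V) (F : Set (Finset V)) (hF : EF G F)
    (Z H : Finset V) (h : KeyG G F Z H) : ∀ x ∈ H, dg G (Z \ H) x ≤ 1 := by
  intro x hx
  have h1 := h {x} (Finset.singleton_subset_iff.2 hx)
  rw [Finset.sum_singleton, Finset.card_singleton,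
    f3g_small G F hF {x} (by rw [Finset.card_singleton]; norm_num)] at h1
  omega

theorem f3g_rob {V : Type u} {C : Type v} [Nonempty C] (G : SimpleGraph V)
    (F : Set (Finset V)) (h5 : G5 G) (hF : EF G F) (hPI : PIG V G F) (forb : SForbG.{u, v})
    (fix : SFixG.{u, v}) (Z H : Finset V) (hHZ : H ⊆ Z) (hne : H.Nonempty)
    (hkey : KeyG G F Z H) : Rob C G Z H where
  sub := hHZ
  ne := hne
  out := f3g_out G F hF Z H hkey
  forb := fun v _ L h1 h2 h3 =>
    forb V C G F h5 hF hPI Z H hHZ hkey H (Finset.Subset.refl H) v L h1 h2 (fun _ => h3)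
  fix := fun v hv L h1 h2 h3 => fix V C G F h5 hF hPI Z H hHZ hkey v hv L h1 h2 h3

/-- F3: the main theorem in internal form -/
theorem mainG (hyp : SHypK.{u}) (pla : SPlaG.{u}) (pos : SPosG.{u}) (key : SKeyG.{u})
    (forb : SForbG.{u, v}) (fix : SFixG.{u, v}) (flex : SFlex.{u, v}) : SMainG.{u, v} := by
  intro V _ C G F hp h5 hF hfew
  by_cases hC : Nonempty C
  · refine flex K2 V C G fun Z hZ => ?_
    obtain ⟨S, hSZ, hS, hX⟩ := hyp 1600 (by norm_num) V G hp Z
    obtain ⟨pla1, pla2⟩ := pla V G F hp h5 hF hfew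
    obtain ⟨H, hHZ, hne, hHK, hkey⟩ :=
      key V G F h5 hF K2 Z (pos V G F hF pla2 K2 Z S hZ hSZ (by omega) hX)
    exact ⟨H, hHK, f3g_rob G F h5 hF pla1 forb fix Z H hHZ hne hkey⟩
  · exact f3_empty hC G _

end Pool.Agent.FX
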