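import Pool.Agent.FX.Stm

/-!
# MP_07b392_co, project FX, row B2: pentagons through a vertex
-/

set_option autoImplicit false

namespace Pool.Agent.FX

open Classical

universe u

variable {V : Type u}

theorem pe1_mem {G : SimpleGraph V} {X P : Finset V} : P ∈ pe G X ↔ P ⊆ X ∧ Pe G P := by
  simp [pe]

theorem pe1_star {G : SimpleGraph V} (hE : ED G) (X : Finset V) (x : V) :
    2 * ((pe G X).filter fun P => x ∈ P).card ≤ dg G X x := by
  set S := (pe G X).filter fun P => x ∈ P with hS
  have hS1 : ∀ P ∈ S, P ⊆ X ∧ Pe G P ∧ x ∈ P := fun P hP => by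
    rw [hS, Finset.mem_filter, pe1_mem] at hP
    exact ⟨hP.1.1, hP.1.2, hP.2⟩
  have hd : ∀ P ∈ S, ∀ Q ∈ S, P ≠ Q → Disjoint (nb G P x) (nb G Q x) := by
    intro P hP Q hQ hne
    rw [Finset.disjoint_left]
    intro y hy hy'
    rw [nb, Finset.mem_filter] at hy hy'
    exact hE P Q (hS1 P hP).2.1 (hS1 Q hQ).2.1 hne x y (hS1 P hP).2.2 hy.1 (hS1 Q hQ).2.2 hy'.1
      hy.2
  have h1 : (S.biUnion fun P => nb G P x).card = ∑ P ∈ S, (nb G P x).card :=
    Finset.card_biUnion hd
  have h2 : ∑ P ∈ S, (nb G P x).card = ∑ P ∈ S, 2 :=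
    Finset.sum_congr rfl fun P hP => (hS1 P hP).2.1.2 x (hS1 P hP).2.2
  have h3 : (S.biUnion fun P => nb G P x) ⊆ nb G X x := by
    intro y hy
    obtain ⟨P, hP, hy⟩ := Finset.mem_biUnion.1 hy
    rw [nb, Finset.mem_filter] at hy ⊢
    exact ⟨(hS1 P hP).1 hy.1, hy.2⟩
  have h4 := Finset.card_le_card h3
  rw [h1, h2, Finset.sum_const, smul_eq_mul] at h4
  rw [dg]
  omega

theorem pe1_count (G : SimpleGraph V) (X : Finset V) :
    5 * c5 G X = ∑ x ∈ X, ((pe G X).filter fun P => x ∈ P).card := by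
  have h1 : ∀ x ∈ X, ((pe G X).filter fun P => x ∈ P).card =
      ∑ P ∈ pe G X, if x ∈ P then 1 else 0 := fun x _ => by
    rw [Finset.card_filter]
  rw [Finset.sum_congr rfl h1, Finset.sum_comm]
  have h2 : ∀ P ∈ pe G X, (∑ x ∈ X, if x ∈ P then 1 else 0) = 5 := fun P hP => by
    rw [← Finset.card_filter]
    have hP' := pe1_mem.1 hP
    have : (X.filter fun x => x ∈ P) = P := by
      ext y
      rw [Finset.mem_filter]
      exact ⟨fun h => h.2, fun h => ⟨hP'.1 h, h⟩⟩
    rw [this]
    exact hP'.2.1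
  rw [Finset.sum_congr rfl h2, Finset.sum_const, smul_eq_mul, c5, mul_comm]

/-- B2 -/
theorem pe1 (_h1 : SBas.{u}) : SPe1.{u} := by
  intro V G hE
  refine ⟨pe1_star hE, pe1_count G, fun X => ?_, fun X v hv => ?_⟩
  · have h1 := pe1_count G X
    have h2 : ∑ x ∈ X, 2 * ((pe G X).filter fun P => x ∈ P).card ≤ e2 G X :=
      Finset.sum_le_sum fun x _ => pe1_star hE X x
    rw [← Finset.mul_sum, ← h1] at h2
    omega
  · have h1 := pe1_star hE (insert v X) v
    have h2 : dg G (insert v X) v = dg G X v := by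
      have : nb G (insert v X) v = nb G X v := by
        ext y
        rw [nb, nb, Finset.mem_filter, Finset.mem_filter, Finset.mem_insert]
        constructor
        · rintro ⟨h | h, h'⟩
          · exact absurd h'.ne (by simp [h])
          · exact ⟨h, h'⟩
        · exact fun h => ⟨Or.inr h.1, h.2⟩
      rw [dg, dg, this]
    have h3 : ((pe G (insert v X)).filter fun P => ¬ v ∈ P).card ≤ c5 G X := by
      refine Finset.card_le_card fun P hP => ?_
      rw [Finset.mem_filter, pe1_mem] at hP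
      rw [pe1_mem]
      refine ⟨fun y hy => ?_, hP.1.2⟩
      rcases Finset.mem_insert.1 (hP.1.1 hy) with h | h
      · exact absurd (h ▸ hy) hP.2
      · exact h
    have h4 := Finset.card_filter_add_card_filter_not (s := pe G (insert v X)) (fun P => v ∈ P)
    rw [h2] at h1
    rw [c5]
    omega

end Pool.Agent.FX
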