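import Pool.Agent.FX.Stm

/-!
# MP_07b392_co, project FX, row B3: pentagons across a boundary
-/

set_option autoImplicit false

namespace Pool.Agent.FX

open Classical

universe u

theorem pe2_three {V : Type u} (G : SimpleGraph V) (A : Finset V) (x : V) (hx : x ∈ A)
    (h : dg G A x = 2) : 3 ≤ A.card := by
  have h1 : nb G A x ⊆ A.erase x := by
    intro y hy
    rw [nb, Finset.mem_filter] at hy
    exact Finset.mem_erase.2 ⟨fun e => (G.ne_of_adj hy.2) e.symm, hy.1⟩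
  have h2 := Finset.card_le_card h1
  rw [Finset.card_erase_of_mem hx] at h2
  unfold dg at h
  omega

theorem pe2_first {V : Type u} (G : SimpleGraph V) (h1 : SBas.{u}) (P A : Finset V)
    (hP : Pe G P) (hA : A ⊆ P) (hne : A.Nonempty) (hn : A ≠ P) :
    2 ≤ ∑ x ∈ A, dg G (P \ A) x := by
  obtain ⟨b1, -, -, b4, b5⟩ := h1 V G
  by_contra hlt
  have e1 : ∑ x ∈ A, dg G P x = 2 * A.card := by
    rw [Finset.sum_congr rfl (fun x hx => hP.2 x (hA hx))]
    simp [mul_comm]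
  have e3 : ∑ x ∈ A, dg G P x = e2 G A + ∑ x ∈ A, dg G (P \ A) x := by
    rw [Finset.sum_congr rfl (fun x _ => b5 P A x hA), Finset.sum_add_distrib]
    rfl
  obtain ⟨k, hk⟩ := b1 A
  have s0 : ∑ x ∈ A, dg G (P \ A) x = 0 := by omega
  have s1 : ∑ x ∈ P \ A, dg G A x = 0 := by rw [← b4 P A hA]; exact s0
  obtain ⟨x, hx⟩ := hne
  have hx0 : dg G (P \ A) x = 0 := (Finset.sum_eq_zero_iff.1 s0) x hx
  have hx2 : dg G A x = 2 := by
    have t1 := b5 P A x hA
    have t2 := hP.2 x (hA hx)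
    omega
  have c1 := pe2_three G A x hx hx2
  have hB : (P \ A).Nonempty := by
    rw [Finset.sdiff_nonempty]
    intro h
    exact hn (Finset.Subset.antisymm hA h)
  obtain ⟨y, hy⟩ := hB
  have hy0 : dg G A y = 0 := (Finset.sum_eq_zero_iff.1 s1) y hy
  have hy2 : dg G (P \ A) y = 2 := by
    have t1 := b5 P A y hA
    have t2 := hP.2 y (Finset.mem_sdiff.1 hy).1
    omega
  have c2 := pe2_three G (P \ A) y hy hy2
  have c3 := Finset.card_sdiff_add_card_eq_card hA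
  have c4 := hP.1
  omega

theorem pe2_card {V : Type u} (G : SimpleGraph V) (A B : Finset V) :
    ((A ×ˢ B).filter fun q => G.Adj q.1 q.2).card = ∑ x ∈ A, dg G B x := by
  rw [Finset.card_filter, Finset.sum_product]
  refine Finset.sum_congr rfl fun x _ => ?_
  unfold dg nb
  rw [Finset.card_filter]

theorem pe2_second {V : Type u} (G : SimpleGraph V) (h1 : SBas.{u}) (hE : ED G)
    (Z H X : Finset V) :
    2 * ((pe G Z).filter fun P => (P ∩ H).Nonempty ∧ P ∩ H ⊆ X ∧ ¬ P ⊆ X).card ≤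
      ∑ x ∈ X, dg G (Z \ H) x := by
  set F := (pe G Z).filter fun P => (P ∩ H).Nonempty ∧ P ∩ H ⊆ X ∧ ¬ P ⊆ X with hF
  have hT := pe2_card G X (Z \ H)
  set T : Finset (V × V) := (X ×ˢ (Z \ H)).filter fun q => G.Adj q.1 q.2 with hTd
  have hE2 : ∀ P ∈ F, 2 ≤ (T.filter fun q => q.1 ∈ P ∧ q.2 ∈ P).card := by
    intro P hP
    rw [hF, Finset.mem_filter, pe, Finset.mem_filter, Finset.mem_powerset] at hP
    obtain ⟨⟨hPZ, hPe⟩, hne, hsub, hnot⟩ := hP
    have hfst := pe2_first G h1 P (P ∩ H) hPe Finset.inter_subset_left hne (by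
      intro h
      rw [h] at hsub
      exact hnot hsub)
    rw [← pe2_card] at hfst
    refine le_trans hfst (Finset.card_le_card ?_)
    intro q hq
    rw [Finset.mem_filter, Finset.mem_product] at hq
    obtain ⟨⟨ha, hb⟩, hadj⟩ := hq
    have hb' := Finset.mem_sdiff.1 hb
    have hbH : q.2 ∉ H := fun h => hb'.2 (Finset.mem_inter.2 ⟨hb'.1, h⟩)
    rw [Finset.mem_filter, hTd, Finset.mem_filter, Finset.mem_product]
    exact ⟨⟨⟨hsub ha, Finset.mem_sdiff.2 ⟨hPZ hb'.1, hbH⟩⟩, hadj⟩,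
      (Finset.mem_inter.1 ha).1, hb'.1⟩
  have hdis : ∀ P ∈ F, ∀ Q ∈ F, P ≠ Q →
      Disjoint (T.filter fun q => q.1 ∈ P ∧ q.2 ∈ P) (T.filter fun q => q.1 ∈ Q ∧ q.2 ∈ Q) := by
    intro P hP Q hQ hPQ
    rw [Finset.disjoint_left]
    intro q hq hq'
    rw [Finset.mem_filter] at hq hq'
    rw [hF, Finset.mem_filter, pe, Finset.mem_filter] at hP hQ
    have hadj : G.Adj q.1 q.2 := by
      have := hq.1
      rw [hTd, Finset.mem_filter] at this
      exact this.2
    exact hE P Q hP.1.2 hQ.1.2 hPQ q.1 q.2 hq.2.1 hq.2.2 hq'.2.1 hq'.2.2 hadj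
  calc 2 * F.card = ∑ P ∈ F, 2 := by simp [mul_comm]
    _ ≤ ∑ P ∈ F, (T.filter fun q => q.1 ∈ P ∧ q.2 ∈ P).card := Finset.sum_le_sum hE2
    _ = (F.biUnion fun P => T.filter fun q => q.1 ∈ P ∧ q.2 ∈ P).card :=
        (Finset.card_biUnion hdis).symm
    _ ≤ T.card := Finset.card_le_card
        (Finset.biUnion_subset.2 fun P _ => Finset.filter_subset _ _)
    _ = _ := hT

theorem pe2 (h1 : SBas.{u}) : SPe2.{u} := by
  intro V G _ hE
  exact ⟨fun P A hP hA hne hn => pe2_first G h1 P A hP hA hne hn,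
    fun Z H X _ _ => pe2_second G h1 hE Z H X⟩

end Pool.Agent.FX
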