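import Pool.Agent.FX.StmG
import Pool.Agent.FX.Pe2

/-!
# MP_07b392_co, project FX, row G3: members of the family across a boundary
-/

set_option autoImplicit false

namespace Pool.Agent.FX

open Classical

universe u

theorem pe2G_second {V : Type u} (G : SimpleGraph V) (D : Set (Finset V)) (h1 : SBas.{u})
    (hE : EF G D) (Z H X : Finset V) :
    2 * ((pg D Z).filter fun P => (P ∩ H).Nonempty ∧ P ∩ H ⊆ X ∧ ¬ P ⊆ X).card ≤
      ∑ x ∈ X, dg G (Z \ H) x := by
  set F := (pg D Z).filter fun P => (P ∩ H).Nonempty ∧ P ∩ H ⊆ X ∧ ¬ P ⊆ X with hF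
  have hT := pe2_card G X (Z \ H)
  set T : Finset (V × V) := (X ×ˢ (Z \ H)).filter fun q => G.Adj q.1 q.2 with hTd
  have hE2 : ∀ P ∈ F, 2 ≤ (T.filter fun q => q.1 ∈ P ∧ q.2 ∈ P).card := by
    intro P hP
    rw [hF, Finset.mem_filter, pg, Finset.mem_filter, Finset.mem_powerset] at hP
    obtain ⟨⟨hPZ, hPD⟩, hne, hsub, hnot⟩ := hP
    have hfst := pe2_first G h1 P (P ∩ H) (hE.1 P hPD) Finset.inter_subset_left hne (by
      intro h
      rw [h] at hsub
      exact hnot hsub)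
    rw [← pe2_card] at hfst
    refine le_trans hfst (Finset.card_le_card ?_)
    intro q hq
    rw [Finset.mem_filter, Finset.mem_product] at hq
    obtain ⟨⟨ha, hb⟩, hadj⟩ := hq
    have hb' := Finset.mem_sdiff.1 hb
    have hbH : q.2 ∉ H := fun h => hb'.2 (Finset.mem_inter.2 ⟨hb'.1, h⟩)
    rw [Finset.mem_filter, hTd, Finset.mem_filter, Finset.mem_product]
    exact ⟨⟨⟨hsub ha, Finset.mem_sdiff.2 ⟨hPZ hb'.1, hbH⟩⟩, hadj⟩,
      (Finset.mem_inter.1 ha).1, hb'.1⟩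
  have hdis : ∀ P ∈ F, ∀ Q ∈ F, P ≠ Q →
      Disjoint (T.filter fun q => q.1 ∈ P ∧ q.2 ∈ P) (T.filter fun q => q.1 ∈ Q ∧ q.2 ∈ Q) := by
    intro P hP Q hQ hPQ
    rw [Finset.disjoint_left]
    intro q hq hq'
    rw [Finset.mem_filter] at hq hq'
    rw [hF, Finset.mem_filter, pg, Finset.mem_filter] at hP hQ
    have hadj : G.Adj q.1 q.2 := by
      have := hq.1
      rw [hTd, Finset.mem_filter] at this
      exact this.2
    exact hE.2 P hP.1.2 Q hQ.1.2 hPQ q.1 q.2 hq.2.1 hq.2.2 hq'.2.1 hq'.2.2 hadj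
  calc 2 * F.card = ∑ P ∈ F, 2 := by simp [mul_comm]
    _ ≤ ∑ P ∈ F, (T.filter fun q => q.1 ∈ P ∧ q.2 ∈ P).card := Finset.sum_le_sum hE2
    _ = (F.biUnion fun P => T.filter fun q => q.1 ∈ P ∧ q.2 ∈ P).card :=
        (Finset.card_biUnion hdis).symm
    _ ≤ T.card := Finset.card_le_card
        (Finset.biUnion_subset.2 fun P _ => Finset.filter_subset _ _)
    _ = _ := hT

/-- B3, general version -/
theorem pe2G (h1 : SBas.{u}) : SPe2G.{u} := by
  intro V G F _ hE Z H X _ _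
  exact pe2G_second G F h1 hE Z H X

end Pool.Agent.FX
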