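import Pool.Agent.FX.Stm

/-!
# MP_07b392_co, project FX, row P7: number of edges of connected and of arbitrary sets
-/

set_option autoImplicit false

namespace Pool.Agent.FX

open Classical
open Pool.Agent.H41.Fire (IsPlanar)

universe u

/-- the connected case -/
theorem pla_conn (h1 : SBas.{u}) (h2 : SEul.{u}) (V : Type u) [Fintype V] (G : SimpleGraph V)
    (hp : IsPlanar G) (hg : G5 G) (X : Finset V) (hX : Cn G X) :
    2 * e2 G X + 6 ≤ 6 * X.card + c5 G X := by
  by_cases hc : 2 * X.card ≤ e2 G X
  · have := h2 V G hp hg X hX hc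
    omega
  · obtain ⟨m, hm⟩ := (h1 V G).1 X
    have hpos : 0 < X.card := hX.1.card_pos
    omega

/-- the empty set has no edges -/
theorem pla_e2_empty {V : Type u} (G : SimpleGraph V) : e2 G ∅ = 0 := by
  simp [e2]

/-- pentagons in disjoint sets are different -/
theorem pla_c5_add {V : Type u} (G : SimpleGraph V) (X A : Finset V) (hA : A ⊆ X) :
    c5 G A + c5 G (X \ A) ≤ c5 G X := by
  have hd : Disjoint (pe G A) (pe G (X \ A)) := by
    rw [Finset.disjoint_left]
    intro P hP hQ
    have h1 := (Finset.mem_filter.1 hP)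
    have h2 := (Finset.mem_filter.1 hQ)
    have hPA : P ⊆ A := Finset.mem_powerset.1 h1.1
    have hPB : P ⊆ X \ A := Finset.mem_powerset.1 h2.1
    have hne : P.Nonempty := by
      rw [← Finset.card_pos, h1.2.1]
      norm_num
    obtain ⟨x, hx⟩ := hne
    exact (Finset.mem_sdiff.1 (hPB hx)).2 (hPA hx)
  have hsub : pe G A ∪ pe G (X \ A) ⊆ pe G X := by
    intro P hP
    rcases Finset.mem_union.1 hP with h | h
    · have h1 := (Finset.mem_filter.1 h)
      exact Finset.mem_filter.2
        ⟨Finset.mem_powerset.2 ((Finset.mem_powerset.1 h1.1).trans hA), h1.2⟩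
    · have h1 := (Finset.mem_filter.1 h)
      exact Finset.mem_filter.2
        ⟨Finset.mem_powerset.2 ((Finset.mem_powerset.1 h1.1).trans Finset.sdiff_subset), h1.2⟩
  have := Finset.card_le_card hsub
  rw [Finset.card_union_of_disjoint hd] at this
  exact this

/-- a nonempty set that is not connected splits in two parts without edges between them -/
theorem pla_split {V : Type u} (G : SimpleGraph V) (X : Finset V) (hne : X.Nonempty)
    (hX : ¬ Cn G X) : ∃ A ⊆ X, A.Nonempty ∧ A ≠ X ∧ ∀ a ∈ A, ∀ b ∈ X \ A, ¬ G.Adj a b := by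
  by_contra hcon
  apply hX
  refine ⟨hne, ?_⟩
  intro A hA hAne hAX
  by_contra hno
  apply hcon
  refine ⟨A, hA, hAne, hAX, ?_⟩
  intro a ha b hb hab
  exact hno ⟨a, ha, b, hb, hab⟩

/-- arbitrary sets -/
theorem pla_all (h1 : SBas.{u}) (h2 : SEul.{u}) (V : Type u) [Fintype V] (G : SimpleGraph V)
    (hp : IsPlanar G) (hg : G5 G) :
    ∀ (n : ℕ) (X : Finset V), X.card ≤ n → 2 * e2 G X ≤ 6 * X.card + c5 G X := by
  intro n
  induction n with
  | zero =>
    intro X hX
    have : X = ∅ := by
      rw [← Finset.card_eq_zero]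
      omega
    subst this
    rw [pla_e2_empty]
    omega
  | succ n ih =>
    intro X hX
    rcases X.eq_empty_or_nonempty with h0 | hne
    · subst h0
      rw [pla_e2_empty]
      omega
    by_cases hc : Cn G X
    · have := pla_conn h1 h2 V G hp hg X hc
      omega
    · obtain ⟨A, hA, hAne, hAX, hno⟩ := pla_split G X hne hc
      have hcard : (X \ A).card + A.card = X.card := Finset.card_sdiff_add_card_eq_card hA
      have hA1 : 0 < A.card := hAne.card_pos
      have hA2 : A.card < X.card := Finset.card_lt_card (lt_of_le_of_ne hA hAX)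
      have i1 := ih A (by omega)
      have i2 := ih (X \ A) (by omega)
      have hsum : ∑ x ∈ A, dg G (X \ A) x = 0 := by
        apply Finset.sum_eq_zero
        intro x hx
        unfold dg nb
        rw [Finset.card_eq_zero]
        apply Finset.filter_eq_empty_iff.2
        intro y hy
        exact hno x hx y hy
      have he := (h1 V G).2.2.1 X A hA
      rw [hsum] at he
      have hc5 := pla_c5_add G X A hA
      omega

/-- P7 -/
theorem pla (h1 : SBas.{u}) (h2 : SEul.{u}) : SPla.{u} := by
  intro V _ G hp hg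
  exact ⟨fun X hX => pla_conn h1 h2 V G hp hg X hX,
    fun X => pla_all h1 h2 V G hp hg X.card X le_rfl⟩

end Pool.Agent.FX
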