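import Pool.Agent.FX.StmG
import Pool.Agent.FX.Pla

/-!
# MP_07b392_co, project FX, row A-P8: number of edges, density condition
-/

set_option autoImplicit false

namespace Pool.Agent.FX

open Classical
open Pool.Agent.H41.Fire (IsPlanar)

universe u

/-- the connected case -/
theorem plaA_conn (h1 : SBas.{u}) (h2 : SEul.{u}) (V : Type u) [Fintype V]
    (G : SimpleGraph V) (hp : IsPlanar G) (hg : G5 G) (hd : Den G) : PIA V G := by
  intro X hX
  have hden := hd X hX
  have hpos : 0 < X.card := hX.1.card_pos
  by_cases hc : 2 * X.card ≤ e2 G X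
  · have h := h2 V G hp hg X hX hc
    omega
  · obtain ⟨m, hm⟩ := (h1 V G).1 X
    omega

/-- arbitrary sets -/
theorem plaA_all (h1 : SBas.{u}) (V : Type u) (G : SimpleGraph V) (hP : PIA V G) :
    ∀ (n : ℕ) (X : Finset V), X.card ≤ n → 400 * e2 G X ≤ 1250 * X.card := by
  intro n
  induction n with
  | zero =>
    intro X hX
    have h0 : X = ∅ := by
      rw [← Finset.card_eq_zero]
      omega
    subst h0
    rw [pla_e2_empty]
    omega
  | succ n ih =>
    intro X hX
    rcases X.eq_empty_or_nonempty with h0 | hne
    · subst h0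
      rw [pla_e2_empty]
      omega
    by_cases hc : Cn G X
    · have := hP X hc
      omega
    · obtain ⟨A, hA, hAne, hAX, hno⟩ := pla_split G X hne hc
      have hcard : (X \ A).card + A.card = X.card := Finset.card_sdiff_add_card_eq_card hA
      have hA1 : 0 < A.card := hAne.card_pos
      have hA2 : A.card < X.card := Finset.card_lt_card (lt_of_le_of_ne hA hAX)
      have i1 := ih A (by omega)
      have i2 := ih (X \ A) (by omega)
      have hsum : ∑ x ∈ A, dg G (X \ A) x = 0 := by
        apply Finset.sum_eq_zero
        intro x hx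
        unfold dg nb
        rw [Finset.card_eq_zero]
        apply Finset.filter_eq_empty_iff.2
        intro y hy
        exact hno x hx y hy
      have he := (h1 V G).2.2.1 X A hA
      rw [hsum] at he
      omega

/-- A-P8 -/
theorem plaA (h1 : SBas.{u}) (h2 : SEul.{u}) : SPlaA.{u} := by
  intro V _ G hp hg hd
  exact ⟨plaA_conn h1 h2 V G hp hg hd,
    fun X => plaA_all h1 V G (plaA_conn h1 h2 V G hp hg hd) X.card X le_rfl⟩

end Pool.Agent.FX
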