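import Pool.Agent.FX.StmG

/-!
# MP_07b392_co, project FX, row FX-AR1: a small set with positive potential (version A)
-/

set_option autoImplicit false

namespace Pool.Agent.FX

open Classical

universe u

variable {V : Type u}

theorem posA_dg_zero {G : SimpleGraph V} {B : Finset V} {x : V}
    (h : ∀ b ∈ B, ¬ G.Adj x b) : dg G B x = 0 := by
  unfold dg nb
  rw [Finset.card_eq_zero, Finset.filter_eq_empty_iff]
  intro y hy
  exact h y hy

theorem posA_empty (G : SimpleGraph V) (Z : Finset V) : PsA G Z ∅ = 0 := by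
  simp [PsA, e2, bd]

/-- the sum over the boundary for a part without edges to the rest -/
theorem posA_bd_part (h1 : SBas.{u}) (G : SimpleGraph V) (Z W A : Finset V) (hW : W ⊆ Z)
    (hA : A ⊆ W) (hno : ∀ a ∈ A, ∀ b ∈ W \ A, ¬ G.Adj a b) :
    bd G Z A = ∑ x ∈ A, dg G (Z \ W) x := by
  unfold bd
  refine Finset.sum_congr rfl fun x hx => ?_
  have hsub : W \ A ⊆ Z \ A := Finset.sdiff_subset_sdiff hW (Finset.Subset.refl A)
  have h5 := (h1 V G).2.2.2.2 (Z \ A) (W \ A) x hsub
  have h0 : dg G (W \ A) x = 0 := posA_dg_zero fun b hb => hno x hx b hb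
  have hset : (Z \ A) \ (W \ A) = Z \ W := by
    ext y
    simp only [Finset.mem_sdiff]
    constructor
    · rintro ⟨⟨hZ, hA'⟩, hn⟩
      exact ⟨hZ, fun hw => hn ⟨hw, hA'⟩⟩
    · rintro ⟨hZ, hn⟩
      exact ⟨⟨hZ, fun ha => hn (hA ha)⟩, fun hh => hn hh.1⟩
  rw [h5, h0, hset, zero_add]

/-- the potential is additive for a splitting without edges between the parts -/
theorem posA_split (h1 : SBas.{u}) (G : SimpleGraph V) (Z W A : Finset V) (hW : W ⊆ Z)
    (hA : A ⊆ W) (hno : ∀ a ∈ A, ∀ b ∈ W \ A, ¬ G.Adj a b) :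
    PsA G Z W = PsA G Z A + PsA G Z (W \ A) := by
  have hbA := posA_bd_part h1 G Z W A hW hA hno
  have hno' : ∀ a ∈ W \ A, ∀ b ∈ W \ (W \ A), ¬ G.Adj a b := by
    intro a ha b hb hab
    have hbA' : b ∈ A := by
      rw [Finset.mem_sdiff, Finset.mem_sdiff] at hb
      by_contra hc
      exact hb.2 ⟨hb.1, hc⟩
    exact hno b hbA' a ha hab.symm
  have hbB := posA_bd_part h1 G Z W (W \ A) hW Finset.sdiff_subset hno'
  have hcard : W.card = A.card + (W \ A).card := by
    rw [Finset.card_sdiff_of_subset hA]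
    have := Finset.card_le_card hA
    omega
  have hsum : ∑ x ∈ A, dg G (W \ A) x = 0 := by
    refine Finset.sum_eq_zero fun x hx => ?_
    exact posA_dg_zero fun b hb => hno x hx b hb
  have he := (h1 V G).2.2.1 W A hA
  rw [hsum] at he
  have hbW : bd G Z W = bd G Z A + bd G Z (W \ A) := by
    rw [hbA, hbB]
    unfold bd
    rw [add_comm]
    exact (Finset.sum_sdiff hA).symm
  unfold PsA
  rw [hcard, he, hbW]
  push_cast
  ring

/-- the potential of `Z \ S` -/
theorem posA_start (h1 : SBas.{u}) (G : SimpleGraph V)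
    (hD : ∀ X : Finset V, 400 * e2 G X ≤ 1250 * X.card) (Z S : Finset V) (hZ : Z.Nonempty)
    (hS : S ⊆ Z) (hc : 800 * S.card ≤ Z.card) : 0 < PsA G Z (Z \ S) := by
  have h3 := (h1 V G).2.2.1 Z S hS
  have h4 := (h1 V G).2.2.2.1 Z S hS
  have hset : Z \ (Z \ S) = S := by
    ext y
    simp only [Finset.mem_sdiff]
    constructor
    · rintro ⟨hz, hn⟩
      by_contra hs
      exact hn ⟨hz, hs⟩
    · intro hs
      exact ⟨hS hs, fun h => h.2 hs⟩
  have hbd : bd G Z (Z \ S) = ∑ x ∈ S, dg G (Z \ S) x := by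
    unfold bd
    rw [hset]
    exact h4.symm
  have hcard : (Z \ S).card + S.card = Z.card := Finset.card_sdiff_add_card_eq_card hS
  have hpos : 0 < Z.card := Finset.card_pos.mpr hZ
  have hDZ := hD Z
  unfold PsA
  rw [hbd]
  generalize (∑ x ∈ S, dg G (Z \ S) x) = b at *
  generalize e2 G (Z \ S) = e at *
  generalize e2 G S = e' at *
  generalize e2 G Z = ez at *
  generalize (Z \ S).card = w at *
  generalize S.card = s at *
  generalize Z.card = z at *
  omega

theorem posA_ind (h1 : SBas.{u}) (G : SimpleGraph V) (K : ℕ) (Z S : Finset V)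
    (hK : ∀ X ⊆ Z \ S, Cn G X → X.card ≤ K) : ∀ (n : ℕ) (W : Finset V), W.card = n →
      W ⊆ Z \ S → 0 < PsA G Z W → ∃ H ⊆ Z, H.card ≤ K ∧ 0 < PsA G Z H := by
  intro n
  induction n using Nat.strong_induction_on with
  | _ n ih =>
    intro W hn hWS hpos
    have hWZ : W ⊆ Z := hWS.trans Finset.sdiff_subset
    by_cases hC : Cn G W
    · exact ⟨W, hWZ, hK W hWS hC, hpos⟩
    · have hne : W.Nonempty := by
        rw [Finset.nonempty_iff_ne_empty]
        intro h0
        rw [h0, posA_empty] at hpos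
        exact lt_irrefl _ hpos
      have hex : ∃ A ⊆ W, A.Nonempty ∧ A ≠ W ∧ ∀ a ∈ A, ∀ b ∈ W \ A, ¬ G.Adj a b := by
        by_contra hcon
        apply hC
        refine ⟨hne, fun A hA hAne hAW => ?_⟩
        by_contra hc
        apply hcon
        refine ⟨A, hA, hAne, hAW, fun a ha b hb hab => hc ⟨a, ha, b, hb, hab⟩⟩
      obtain ⟨A, hA, hAne, hAW, hno⟩ := hex
      have hsp := posA_split h1 G Z W A hWZ hA hno
      have hcA : 0 < A.card := Finset.card_pos.mpr hAne
      have hcB : (W \ A).card + A.card = W.card := Finset.card_sdiff_add_card_eq_card hA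
      have hcB' : 0 < (W \ A).card := by
        rw [Finset.card_pos]
        rw [Finset.nonempty_iff_ne_empty]
        intro h0
        rw [Finset.sdiff_eq_empty_iff_subset] at h0
        exact hAW (Finset.Subset.antisymm hA h0)
      rcases lt_or_ge 0 (PsA G Z A) with hp | hp
      · exact ih A.card (by omega) A rfl (hA.trans hWS) hp
      · have hp' : 0 < PsA G Z (W \ A) := by omega
        exact ih (W \ A).card (by omega) (W \ A) rfl (Finset.sdiff_subset.trans hWS) hp'

theorem posA (h1 : SBas.{u}) : SPosA.{u} := by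
  intro V G hD K Z S hZ hS hc hK
  exact posA_ind h1 G K Z S hK (Z \ S).card (Z \ S) rfl (Finset.Subset.refl _)
    (posA_start h1 G hD Z S hZ hS hc)

end Pool.Agent.FX
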