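import Pool.Agent.FX.StmG

/-!
# MP_07b392_co, project FX, row FX-GR1: a small set with positive potential, general version
-/

set_option autoImplicit false

namespace Pool.Agent.FX

open Classical

universe u v

variable {V : Type u}

theorem posG_ps_empty (G : SimpleGraph V) (F : Set (Finset V)) (Z : Finset V) :
    PsG G F Z ∅ = 0 := by
  simp [PsG, pmg, e2, bd]

theorem posG_bd_split (G : SimpleGraph V) {Z W A : Finset V} (hA : A ⊆ W)
    (hno : ∀ a ∈ A, ∀ b ∈ W \ A, ¬ G.Adj a b) :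
    bd G Z W = bd G Z A + bd G Z (W \ A) := by
  have hs : bd G Z W = ∑ x ∈ A, dg G (Z \ W) x + ∑ x ∈ W \ A, dg G (Z \ W) x := by
    unfold bd
    rw [add_comm, Finset.sum_sdiff hA]
  have ha : ∑ x ∈ A, dg G (Z \ W) x = bd G Z A := by
    unfold bd
    refine Finset.sum_congr rfl fun x hx => ?_
    unfold dg
    refine congrArg Finset.card ?_
    ext y
    simp only [nb, Finset.mem_filter, Finset.mem_sdiff]
    constructor
    · rintro ⟨⟨h1, h2⟩, h3⟩
      exact ⟨⟨h1, fun h => h2 (hA h)⟩, h3⟩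
    · rintro ⟨⟨h1, h2⟩, h3⟩
      exact ⟨⟨h1, fun h => hno x hx y (Finset.mem_sdiff.2 ⟨h, h2⟩) h3⟩, h3⟩
  have hb : ∑ x ∈ W \ A, dg G (Z \ W) x = bd G Z (W \ A) := by
    unfold bd
    refine Finset.sum_congr rfl fun x hx => ?_
    unfold dg
    refine congrArg Finset.card ?_
    ext y
    simp only [nb, Finset.mem_filter, Finset.mem_sdiff]
    constructor
    · rintro ⟨⟨h1, h2⟩, h3⟩
      exact ⟨⟨h1, fun h => h2 h.1⟩, h3⟩
    · rintro ⟨⟨h1, h2⟩, h3⟩
      refine ⟨⟨h1, fun h => ?_⟩, h3⟩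
      by_cases hy : y ∈ A
      · exact hno y hy x hx h3.symm
      · exact h2 ⟨h, hy⟩
  rw [hs, ha, hb]

theorem posG_e2_split (h1 : SBas.{u}) (G : SimpleGraph V) {W A : Finset V} (hA : A ⊆ W)
    (hno : ∀ a ∈ A, ∀ b ∈ W \ A, ¬ G.Adj a b) :
    e2 G W = e2 G A + e2 G (W \ A) := by
  have h := (h1 V G).2.2.1 W A hA
  have h0 : ∑ x ∈ A, dg G (W \ A) x = 0 := by
    refine Finset.sum_eq_zero fun x hx => ?_
    unfold dg nb
    rw [Finset.card_eq_zero, Finset.filter_eq_empty_iff]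
    intro y hy
    exact hno x hx y hy
  omega

theorem posG_pm_split (F : Set (Finset V)) {Z W A : Finset V} :
    (pmg F Z W).card ≤ (pmg F Z A).card + (pmg F Z (W \ A)).card := by
  refine (Finset.card_le_card ?_).trans (Finset.card_union_le _ _)
  intro P hP
  simp only [pmg, Finset.mem_filter, Finset.mem_union] at hP ⊢
  obtain ⟨h, x, hx⟩ := hP
  rw [Finset.mem_inter] at hx
  by_cases hxA : x ∈ A
  · exact Or.inl ⟨h, x, Finset.mem_inter.2 ⟨hx.1, hxA⟩⟩
  · exact Or.inr ⟨h, x, Finset.mem_inter.2 ⟨hx.1, Finset.mem_sdiff.2 ⟨hx.2, hxA⟩⟩⟩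

theorem posG_split (h1 : SBas.{u}) (G : SimpleGraph V) (F : Set (Finset V)) {Z W A : Finset V}
    (hA : A ⊆ W) (hno : ∀ a ∈ A, ∀ b ∈ W \ A, ¬ G.Adj a b) :
    PsG G F Z W ≤ PsG G F Z A + PsG G F Z (W \ A) := by
  have e1 := posG_bd_split G (Z := Z) hA hno
  have e2' := posG_e2_split h1 G hA hno
  have e3 := posG_pm_split F (Z := Z) (W := W) (A := A)
  have e4 : (W \ A).card + A.card = W.card := Finset.card_sdiff_add_card_eq_card hA
  unfold PsG
  rw [e1, e2']
  push_cast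
  have e3' : ((pmg F Z W).card : ℤ) ≤ (pmg F Z A).card + (pmg F Z (W \ A)).card := by
    exact_mod_cast e3
  have e4' : ((W \ A).card : ℤ) + A.card = W.card := by exact_mod_cast e4
  linarith

theorem posG_conn (h1 : SBas.{u}) (G : SimpleGraph V) (F : Set (Finset V)) (Z : Finset V) :
    ∀ (n : ℕ) (W : Finset V), W.card ≤ n → 0 < PsG G F Z W →
      ∃ H ⊆ W, Cn G H ∧ 0 < PsG G F Z H := by
  intro n
  induction n with
  | zero =>
    intro W hW hp
    have : W = ∅ := Finset.card_eq_zero.1 (Nat.le_zero.1 hW)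
    rw [this, posG_ps_empty] at hp
    exact absurd hp (lt_irrefl _)
  | succ n ih =>
    intro W hW hp
    by_cases hc : Cn G W
    · exact ⟨W, subset_rfl, hc, hp⟩
    have hne : W.Nonempty := by
      rw [Finset.nonempty_iff_ne_empty]
      intro h
      rw [h, posG_ps_empty] at hp
      exact absurd hp (lt_irrefl _)
    have hc' : ∃ A ⊆ W, A.Nonempty ∧ A ≠ W ∧ ∀ a ∈ A, ∀ b ∈ W \ A, ¬ G.Adj a b := by
      by_contra hcon
      apply hc
      refine ⟨hne, fun A hA hAn hAW => ?_⟩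
      by_contra hcon2
      apply hcon
      refine ⟨A, hA, hAn, hAW, fun a ha b hb hab => hcon2 ⟨a, ha, b, hb, hab⟩⟩
    obtain ⟨A, hA, hAn, hAW, hno⟩ := hc'
    have hs := posG_split h1 G F (Z := Z) hA hno
    have hcA : A.card < W.card := Finset.card_lt_card (Finset.ssubset_iff_subset_ne.2 ⟨hA, hAW⟩)
    have hcB : (W \ A).card < W.card := by
      have e4 : (W \ A).card + A.card = W.card := Finset.card_sdiff_add_card_eq_card hA
      have : 0 < A.card := hAn.card_pos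
      omega
    rcases lt_or_ge 0 (PsG G F Z A) with hp1 | hp1
    · obtain ⟨H, hH, h2, h3⟩ := ih A (by omega) hp1
      exact ⟨H, hH.trans hA, h2, h3⟩
    · have hp2 : 0 < PsG G F Z (W \ A) := by linarith
      obtain ⟨H, hH, h2, h3⟩ := ih (W \ A) (by omega) hp2
      exact ⟨H, hH.trans Finset.sdiff_subset, h2, h3⟩

theorem posG_start (h1 : SBas.{u}) (h2 : SPe1G.{u}) (G : SimpleGraph V) (F : Set (Finset V))
    (hF : EF G F) (hpl : ∀ X : Finset V, 200 * e2 G X ≤ 601 * X.card + 100 * cg F X)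
    {Z S : Finset V} (hZ : Z.Nonempty) (hS : S ⊆ Z) (hc : 800 * S.card ≤ Z.card) :
    0 < PsG G F Z (Z \ S) := by
  have hbd : bd G Z (Z \ S) = ∑ x ∈ S, dg G (Z \ S) x := by
    rw [(h1 V G).2.2.2.1 Z S hS]
    unfold bd
    rw [Finset.sdiff_sdiff_eq_self hS]
  have he := (h1 V G).2.2.1 Z S hS
  rw [← hbd] at he
  have hpm : cg F Z ≤ cg F S + (pmg F Z (Z \ S)).card := by
    unfold cg
    refine (Finset.card_le_card ?_).trans (Finset.card_union_le _ _)
    intro P hP
    by_cases hPS : P ⊆ S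
    · refine Finset.mem_union_left _ ?_
      simp only [pg, Finset.mem_filter, Finset.mem_powerset] at hP ⊢
      exact ⟨hPS, hP.2⟩
    · refine Finset.mem_union_right _ ?_
      rw [Finset.not_subset] at hPS
      obtain ⟨x, hx, hxS⟩ := hPS
      have hP' := hP
      simp only [pg, Finset.mem_filter, Finset.mem_powerset] at hP'
      exact Finset.mem_filter.2 ⟨hP, x, Finset.mem_inter.2 ⟨hx, Finset.mem_sdiff.2
        ⟨hP'.1 hx, hxS⟩⟩⟩
  have h10 := (h2 V G F hF).2.2.1 S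
  have hplZ := hpl Z
  have hcard : (Z \ S).card + S.card = Z.card := Finset.card_sdiff_add_card_eq_card hS
  have hpos : 0 < Z.card := hZ.card_pos
  unfold PsG
  have a1 : (e2 G Z : ℤ) = e2 G S + e2 G (Z \ S) + 2 * bd G Z (Z \ S) := by exact_mod_cast he
  have a2 : (cg F Z : ℤ) ≤ cg F S + (pmg F Z (Z \ S)).card := by exact_mod_cast hpm
  have a3 : (10 : ℤ) * cg F S ≤ e2 G S := by exact_mod_cast h10
  have a4 : (200 : ℤ) * e2 G Z ≤ 601 * Z.card + 100 * cg F Z := by exact_mod_cast hplZ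
  have a5 : ((Z \ S).card : ℤ) + S.card = Z.card := by exact_mod_cast hcard
  have a6 : (0 : ℤ) < Z.card := by exact_mod_cast hpos
  have a7 : (800 : ℤ) * S.card ≤ Z.card := by exact_mod_cast hc
  have a8 : (0 : ℤ) ≤ cg F S := by positivity
  linarith

theorem posG (h1 : SBas.{u}) (h2 : SPe1G.{u}) : SPosG.{u} := by
  intro V G F hF hpl K Z S hZ hS hc hK
  have h0 := posG_start h1 h2 G F hF hpl hZ hS hc
  obtain ⟨H, hH, hcn, hp⟩ := posG_conn h1 G F Z (Z \ S).card (Z \ S) le_rfl h0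
  exact ⟨H, hH.trans Finset.sdiff_subset, hK H hH hcn, hp⟩

end Pool.Agent.FX
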