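import Pool.Agent.FX.Stm

/-!
# MP_07b392_co, project FX: the change of the potential
-/

set_option autoImplicit false

namespace Pool.Agent.FX

open Classical
open Pool.Agent.H41.Fire (IsPlanar Rotation cycles rev)

universe u v

theorem ps_pm {V : Type u} (G : SimpleGraph V) (Z H X : Finset V) :
    (pm G Z H).card ≤ (pm G Z (H \ X)).card + (c5 G X +
      ((pe G Z).filter fun P => (P ∩ H).Nonempty ∧ P ∩ H ⊆ X ∧ ¬ P ⊆ X).card) := by
  have hsub : pm G Z H ⊆ pm G Z (H \ X) ∪ (pe G X ∪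
      (pe G Z).filter fun P => (P ∩ H).Nonempty ∧ P ∩ H ⊆ X ∧ ¬ P ⊆ X) := by
    intro P hP
    have hP' : P ∈ pe G Z ∧ (P ∩ H).Nonempty := by
      simpa only [pm, Finset.mem_filter] using hP
    by_cases h1 : (P ∩ (H \ X)).Nonempty
    · apply Finset.mem_union_left
      simp only [pm, Finset.mem_filter]
      exact ⟨hP'.1, h1⟩
    · have h2 : P ∩ H ⊆ X := by
        intro x hx
        by_contra hxX
        apply h1
        refine ⟨x, ?_⟩
        rw [Finset.mem_inter] at hx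
        rw [Finset.mem_inter, Finset.mem_sdiff]
        exact ⟨hx.1, hx.2, hxX⟩
      apply Finset.mem_union_right
      by_cases h3 : P ⊆ X
      · apply Finset.mem_union_left
        have h4 : P ∈ pe G Z := hP'.1
        simp only [pe, Finset.mem_filter, Finset.mem_powerset] at h4 ⊢
        exact ⟨h3, h4.2⟩
      · apply Finset.mem_union_right
        rw [Finset.mem_filter]
        exact ⟨hP'.1, hP'.2, h2, h3⟩
  calc (pm G Z H).card ≤ (pm G Z (H \ X) ∪ (pe G X ∪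
      (pe G Z).filter fun P => (P ∩ H).Nonempty ∧ P ∩ H ⊆ X ∧ ¬ P ⊆ X)).card :=
        Finset.card_le_card hsub
    _ ≤ (pm G Z (H \ X)).card + (pe G X ∪
      (pe G Z).filter fun P => (P ∩ H).Nonempty ∧ P ∩ H ⊆ X ∧ ¬ P ⊆ X).card :=
        Finset.card_union_le _ _
    _ ≤ (pm G Z (H \ X)).card + (c5 G X +
      ((pe G Z).filter fun P => (P ∩ H).Nonempty ∧ P ∩ H ⊆ X ∧ ¬ P ⊆ X).card) :=
        Nat.add_le_add_left (Finset.card_union_le _ _) _

theorem ps_bd {V : Type u} (h1 : SBas.{u}) (G : SimpleGraph V) (Z H X : Finset V)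
    (hHZ : H ⊆ Z) (hXH : X ⊆ H) :
    bd G Z (H \ X) + ∑ x ∈ X, dg G (Z \ H) x =
      bd G Z H + ∑ x ∈ X, dg G (H \ X) x := by
  obtain ⟨-, -, -, h4, h5⟩ := h1 V G
  have hX1 : X ⊆ Z \ (H \ X) := by
    intro x hx
    rw [Finset.mem_sdiff, Finset.mem_sdiff]
    exact ⟨hHZ (hXH hx), fun h => h.2 hx⟩
  have hX2 : (Z \ (H \ X)) \ X = Z \ H := by
    ext x
    simp only [Finset.mem_sdiff]
    constructor
    · rintro ⟨⟨hz, hn⟩, hx⟩
      exact ⟨hz, fun hh => hn ⟨hh, hx⟩⟩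
    · rintro ⟨hz, hn⟩
      exact ⟨⟨hz, fun hh => hn hh.1⟩, fun hx => hn (hXH hx)⟩
  have e1 : bd G Z (H \ X) = ∑ x ∈ H \ X, dg G X x + ∑ x ∈ H \ X, dg G (Z \ H) x := by
    unfold bd
    rw [← Finset.sum_add_distrib]
    apply Finset.sum_congr rfl
    intro x _
    rw [h5 (Z \ (H \ X)) X x hX1, hX2]
  have e2' : bd G Z H = ∑ x ∈ H \ X, dg G (Z \ H) x + ∑ x ∈ X, dg G (Z \ H) x := by
    unfold bd
    exact (Finset.sum_sdiff hXH).symm
  have e3 := h4 H X hXH
  omega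

/-- R2: the change of the potential -/
theorem psi (h1 : SBas.{u}) (h2 : SPe2.{u}) : SPsi.{u} := by
  intro V G hG hE Z H X hHZ hXH hle
  have hp := ps_pm G Z H X
  have hb := ps_bd h1 G Z H X hHZ hXH
  have hm := (h2 V G hG hE).2 Z H X hHZ hXH
  have he := (h1 V G).2.2.1 H X hXH
  have hc : (H \ X).card + X.card = H.card := Finset.card_sdiff_add_card_eq_card hXH
  unfold Ps at hle
  set m := ((pe G Z).filter fun P => (P ∩ H).Nonempty ∧ P ∩ H ⊆ X ∧ ¬ P ⊆ X).card with hmdef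
  set o := ∑ x ∈ X, dg G (Z \ H) x with hodef
  set q := ∑ x ∈ X, dg G (H \ X) x with hqdef
  omega

end Pool.Agent.FX
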