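import Pool.Agent.FX.StmG

/-!
# MP_07b392_co, project FX, general version, row FX-GR2: the change of the potential
-/

set_option autoImplicit false

namespace Pool.Agent.FX

open Classical

universe u

variable {V : Type u}

/-- the members of `F` in `Z` that meet `H`: those that meet `H \ X`, those that meet `H` only in
`X` and leave `X`, and those inside `X` -/
theorem psiG_card (F : Set (Finset V)) (Z H X : Finset V) :
    (pmg F Z H).card ≤ (pmg F Z (H \ X)).card +
      ((pg F Z).filter fun P => (P ∩ H).Nonempty ∧ P ∩ H ⊆ X ∧ ¬ P ⊆ X).card + cg F X := by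
  have hsub : pmg F Z H ⊆ (pmg F Z (H \ X) ∪
      ((pg F Z).filter fun P => (P ∩ H).Nonempty ∧ P ∩ H ⊆ X ∧ ¬ P ⊆ X)) ∪ pg F X := by
    intro P hP
    obtain ⟨hPZ, hne⟩ := Finset.mem_filter.1 hP
    have hPF : P ∈ F := (Finset.mem_filter.1 hPZ).2
    by_cases hX : P ⊆ X
    · exact Finset.mem_union_right _ (Finset.mem_filter.2 ⟨Finset.mem_powerset.2 hX, hPF⟩)
    · by_cases hm : P ∩ H ⊆ X
      · exact Finset.mem_union_left _ (Finset.mem_union_right _
          (Finset.mem_filter.2 ⟨hPZ, hne, hm, hX⟩))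
      · obtain ⟨x, hx, hxX⟩ := Finset.not_subset.1 hm
        obtain ⟨hxP, hxH⟩ := Finset.mem_inter.1 hx
        exact Finset.mem_union_left _ (Finset.mem_union_left _ (Finset.mem_filter.2
          ⟨hPZ, ⟨x, Finset.mem_inter.2 ⟨hxP, Finset.mem_sdiff.2 ⟨hxH, hxX⟩⟩⟩⟩))
  refine (Finset.card_le_card hsub).trans ((Finset.card_union_le _ _).trans ?_)
  exact Nat.add_le_add_right (Finset.card_union_le _ _) _

theorem psiG (h1 : SBas.{u}) (h2 : SPe2G.{u}) : SPsiG.{u} := by
  intro V G F hG hF Z H X hHZ hXH hP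
  obtain ⟨-, -, b3, b4, b5⟩ := h1 V G
  have hcut := h2 V G F hG hF Z H X hHZ hXH
  have hcd := psiG_card F Z H X
  have he2 := b3 H X hXH
  have hsym := b4 H X hXH
  have hcardH : (H \ X).card + X.card = H.card := Finset.card_sdiff_add_card_eq_card hXH
  have hb1 : bd G Z H = ∑ x ∈ H \ X, dg G (Z \ H) x + ∑ x ∈ X, dg G (Z \ H) x :=
    (Finset.sum_sdiff hXH).symm
  have hb2 : bd G Z (H \ X) = ∑ x ∈ H \ X, dg G X x + ∑ x ∈ H \ X, dg G (Z \ H) x := by
    have hs : X ⊆ Z \ (H \ X) := by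
      intro x hx
      refine Finset.mem_sdiff.2 ⟨hHZ (hXH hx), fun h => (Finset.mem_sdiff.1 h).2 hx⟩
    have hd : (Z \ (H \ X)) \ X = Z \ H := by
      ext x
      simp only [Finset.mem_sdiff]
      constructor
      · rintro ⟨⟨hz, h⟩, hx⟩
        exact ⟨hz, fun hH => h ⟨hH, hx⟩⟩
      · rintro ⟨hz, h⟩
        exact ⟨⟨hz, fun h' => h h'.1⟩, fun hx => h (hXH hx)⟩
    unfold bd
    rw [← Finset.sum_add_distrib]
    refine Finset.sum_congr rfl fun x _ => ?_
    rw [b5 (Z \ (H \ X)) X x hs, hd]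
  unfold PsG at hP
  rw [hb1, hb2, he2, hsym, ← hcardH] at hP
  push_cast at hP
  zify at hcut hcd ⊢
  linarith

end Pool.Agent.FX
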