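import Pool.Agent.FX.Stm

/-!
# MP_07b392_co, project FX: a random colouring (F1)

Strong induction on the coloured set `Z`: a robust part `H` of `Z` is coloured uniformly at random
from the extensions of a random colouring of `Z \ H`.
-/

set_option autoImplicit false

namespace Pool.Agent.FX

open Classical

universe u v

/-- push forward of a finite family of weights -/
theorem ran_push {A : Type*} [DecidableEq A] (J : Finset A) (q : A → ℝ) (E : A → Finset A) (F : A → ℝ) :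
    ∑ φ ∈ J.biUnion E, (∑ ψ ∈ J, if φ ∈ E ψ then q ψ / ((E ψ).card : ℝ) else 0) * F φ =
      ∑ ψ ∈ J, q ψ * ((∑ φ ∈ E ψ, F φ) / ((E ψ).card : ℝ)) := by
  have h1 : ∑ φ ∈ J.biUnion E, (∑ ψ ∈ J, if φ ∈ E ψ then q ψ / ((E ψ).card : ℝ) else 0) * F φ =
      ∑ φ ∈ J.biUnion E, ∑ ψ ∈ J, if φ ∈ E ψ then q ψ / ((E ψ).card : ℝ) * F φ else 0 := by
    refine Finset.sum_congr rfl fun φ _ => ?_
    rw [Finset.sum_mul]
    refine Finset.sum_congr rfl fun ψ _ => ?_
    split_ifs
    · rfl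
    · rw [zero_mul]
  rw [h1, Finset.sum_comm]
  refine Finset.sum_congr rfl fun ψ hψ => ?_
  rw [← Finset.sum_filter]
  have h2 : (J.biUnion E).filter (fun φ => φ ∈ E ψ) = E ψ := by
    ext φ
    simp only [Finset.mem_filter, Finset.mem_biUnion]
    exact ⟨fun h => h.2, fun h => ⟨⟨ψ, hψ, h⟩, h⟩⟩
  rw [h2, ← Finset.mul_sum]
  ring

/-- an average is at least the inverse of the number of terms -/
theorem ran_avg {A : Type*} (E : Finset A) (F : A → ℝ) (b : ℕ) (hE : E.card ≤ 3 ^ b)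
    (h0 : ∀ φ ∈ E, 0 ≤ F φ) (h1 : ∃ φ ∈ E, F φ = 1) :
    (1 / 3 : ℝ) ^ b ≤ (∑ φ ∈ E, F φ) / (E.card : ℝ) := by
  obtain ⟨φ, hφ, hF⟩ := h1
  have h2 : (1 : ℝ) ≤ ∑ φ ∈ E, F φ := by
    rw [← hF]
    exact Finset.single_le_sum h0 hφ
  have h3 : (0 : ℝ) < E.card := Nat.cast_pos.2 (Finset.card_pos.2 ⟨φ, hφ⟩)
  have h4 : (E.card : ℝ) ≤ 3 ^ b := by exact_mod_cast hE
  rw [le_div_iff₀ h3]
  calc (1 / 3 : ℝ) ^ b * E.card ≤ (1 / 3 : ℝ) ^ b * 3 ^ b :=
        mul_le_mul_of_nonneg_left h4 (by positivity)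
    _ = 1 := by rw [← mul_pow]; norm_num
    _ ≤ _ := h2

/-- a constant average -/
theorem ran_const {A : Type*} (E : Finset A) (F : A → ℝ) (r : ℝ) (hE : E.Nonempty)
    (h : ∀ φ ∈ E, F φ = r) : (∑ φ ∈ E, F φ) / (E.card : ℝ) = r := by
  have h3 : (0 : ℝ) < E.card := Nat.cast_pos.2 (Finset.card_pos.2 hE)
  rw [Finset.sum_congr rfl h, Finset.sum_const, nsmul_eq_mul, mul_comm, mul_div_assoc,
    div_self h3.ne', mul_one]

variable {V : Type u} {C : Type v}

/-- the remaining lists -/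
noncomputable def ranL (G : SimpleGraph V) (L : V → Finset C) (Z : Finset V) (ψ : V → C) (x : V) :
    Finset C := L x \ (nb G Z x).image ψ

theorem ranL_sub (G : SimpleGraph V) (L : V → Finset C) (Z : Finset V) (ψ : V → C) (x : V) :
    ranL G L Z ψ x ⊆ L x := Finset.sdiff_subset

theorem ranL_card (G : SimpleGraph V) (L : V → Finset C) (Z : Finset V) (ψ : V → C) (x : V)
    (hL : (L x).card = 3) : (ranL G L Z ψ x).card ≤ 3 ∧
      3 ≤ (ranL G L Z ψ x).card + dg G Z x := by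
  constructor
  · rw [← hL]
    exact Finset.card_le_card (ranL_sub G L Z ψ x)
  · have h1 : (L x).card ≤ (ranL G L Z ψ x).card + ((nb G Z x).image ψ).card := by
      refine le_trans (Finset.card_le_card (t := ranL G L Z ψ x ∪ (nb G Z x).image ψ) ?_)
        (Finset.card_union_le _ _)
      intro c hc
      by_cases h : c ∈ (nb G Z x).image ψ
      · exact Finset.mem_union_right _ h
      · exact Finset.mem_union_left _ (Finset.mem_sdiff.2 ⟨hc, h⟩)
    have h2 : ((nb G Z x).image ψ).card ≤ (nb G Z x).card := Finset.card_image_le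
    unfold dg
    omega

/-- the extensions of `ψ` to `H` -/
noncomputable def ranE [Fintype V] (G : SimpleGraph V) (L : V → Finset C) (Z H : Finset V)
    (ψ : V → C) : Finset (V → C) :=
  (Fintype.piFinset fun x => if x ∈ H then ranL G L Z ψ x else {ψ x}).filter fun φ =>
    ∀ x ∈ H, ∀ y ∈ H, G.Adj x y → φ x ≠ φ y

theorem mem_ranE [Fintype V] (G : SimpleGraph V) (L : V → Finset C) (Z H : Finset V)
    (ψ φ : V → C) : φ ∈ ranE G L Z H ψ ↔ (∀ x ∈ H, φ x ∈ ranL G L Z ψ x) ∧
      (∀ x, x ∉ H → φ x = ψ x) ∧ ∀ x ∈ H, ∀ y ∈ H, G.Adj x y → φ x ≠ φ y := by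
  unfold ranE
  rw [Finset.mem_filter, Fintype.mem_piFinset]
  constructor
  · rintro ⟨h1, h2⟩
    refine ⟨fun x hx => ?_, fun x hx => ?_, h2⟩
    · have := h1 x
      rwa [if_pos hx] at this
    · have := h1 x
      rw [if_neg hx] at this
      exact Finset.mem_singleton.1 this
  · rintro ⟨h1, h2, h3⟩
    refine ⟨fun x => ?_, h3⟩
    by_cases hx : x ∈ H
    · rw [if_pos hx]
      exact h1 x hx
    · rw [if_neg hx]
      exact Finset.mem_singleton.2 (h2 x hx)

theorem card_ranE [Fintype V] (G : SimpleGraph V) (L : V → Finset C) (Z H : Finset V)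
    (ψ : V → C) (b : ℕ) (hb : H.card ≤ b) (hL : ∀ x, (L x).card = 3) :
    (ranE G L Z H ψ).card ≤ 3 ^ b := by
  refine le_trans (Finset.card_filter_le _ _) ?_
  rw [Fintype.card_piFinset]
  have h1 : ∀ x ∈ (Finset.univ : Finset V),
      (if x ∈ H then ranL G L Z ψ x else {ψ x}).card ≤ if x ∈ H then 3 else 1 := by
    intro x _
    split_ifs with h
    · exact (ranL_card G L Z ψ x (hL x)).1
    · exact (Finset.card_singleton _).le
  refine le_trans (Finset.prod_le_prod' h1) ?_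
  rw [Finset.prod_ite, Finset.prod_const, Finset.prod_const_one, mul_one]
  have h2 : (Finset.univ.filter fun x : V => x ∈ H) = H := by
    ext x
    simp
  rw [h2]
  exact Nat.pow_le_pow_right (by norm_num) hb

/-- extensions with prescribed sublists -/
theorem ex_ranE [Fintype V] (G : SimpleGraph V) (L L' : V → Finset C) (Z H : Finset V)
    (ψ : V → C) (h : ∀ x ∈ H, L' x ⊆ ranL G L Z ψ x) (hc : Col G L' H) :
    ∃ φ ∈ ranE G L Z H ψ, ∀ x ∈ H, φ x ∈ L' x := by
  obtain ⟨φ, h1, h2⟩ := hc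
  refine ⟨fun x => if x ∈ H then φ x else ψ x, ?_, ?_⟩
  · rw [mem_ranE]
    refine ⟨fun x hx => ?_, fun x hx => ?_, fun x hx y hy hxy => ?_⟩
    · show (if x ∈ H then φ x else ψ x) ∈ _
      rw [if_pos hx]
      exact h x hx (h1 x hx)
    · show (if x ∈ H then φ x else ψ x) = _
      rw [if_neg hx]
    · show (if x ∈ H then φ x else ψ x) ≠ (if y ∈ H then φ y else ψ y)
      rw [if_pos hx, if_pos hy]
      exact h2 x hx y hy hxy
  · intro x hx
    show (if x ∈ H then φ x else ψ x) ∈ _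
    rw [if_pos hx]
    exact h1 x hx

/-- (A): an extension that avoids `c` at `x` -/
theorem ranA [Fintype V] (G : SimpleGraph V) (L : V → Finset C) (Z H : Finset V)
    (hR : Rob C G Z H) (hL : ∀ x, (L x).card = 3) (ψ : V → C) (x : V) (hx : x ∈ H) (c : C) :
    ∃ φ ∈ ranE G L (Z \ H) H ψ, φ x ≠ c := by
  have key := hR.forb x hx (fun y => if y = x then (ranL G L (Z \ H) ψ x).erase c
    else ranL G L (Z \ H) ψ y)
  have hc : Col G (fun y => if y = x then (ranL G L (Z \ H) ψ x).erase c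
    else ranL G L (Z \ H) ψ y) H := by
    apply key
    · intro y _
      show (if y = x then (ranL G L (Z \ H) ψ x).erase c else ranL G L (Z \ H) ψ y).card ≤ 3
      split_ifs with h
      · exact le_trans (Finset.card_erase_le) (ranL_card G L (Z \ H) ψ x (hL x)).1
      · exact (ranL_card G L (Z \ H) ψ y (hL y)).1
    · intro y _ hyx
      show 3 ≤ (if y = x then (ranL G L (Z \ H) ψ x).erase c else ranL G L (Z \ H) ψ y).card + _
      rw [if_neg hyx]
      exact (ranL_card G L (Z \ H) ψ y (hL y)).2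
    · show 2 ≤ (if x = x then (ranL G L (Z \ H) ψ x).erase c else ranL G L (Z \ H) ψ x).card + _
      rw [if_pos rfl]
      have h1 := (ranL_card G L (Z \ H) ψ x (hL x)).2
      have h2 := Finset.pred_card_le_card_erase (s := ranL G L (Z \ H) ψ x) (a := c)
      omega
  obtain ⟨φ, h1, h2⟩ := ex_ranE G L _ (Z \ H) H ψ (fun y _ => by
    show (if y = x then (ranL G L (Z \ H) ψ x).erase c else ranL G L (Z \ H) ψ y) ⊆ _
    split_ifs with h
    · rw [h]
      exact Finset.erase_subset _ _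
    · exact Finset.Subset.refl _) hc
  refine ⟨φ, h1, ?_⟩
  have h3 := h2 x hx
  change φ x ∈ (if x = x then (ranL G L (Z \ H) ψ x).erase c else ranL G L (Z \ H) ψ x) at h3
  rw [if_pos rfl] at h3
  exact (Finset.mem_erase.1 h3).1

/-- (B): an extension with colour `c` at `x` -/
theorem ranB [Fintype V] (G : SimpleGraph V) (L : V → Finset C) (Z H : Finset V)
    (hR : Rob C G Z H) (hL : ∀ x, (L x).card = 3) (ψ : V → C) (x : V) (hx : x ∈ H) (c : C)
    (hcx : c ∈ ranL G L (Z \ H) ψ x) :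
    ∃ φ ∈ ranE G L (Z \ H) H ψ, φ x = c := by
  have key := hR.fix x hx (fun y => if y = x then {c} else ranL G L (Z \ H) ψ y)
  have hc : Col G (fun y => if y = x then {c} else ranL G L (Z \ H) ψ y) H := by
    apply key
    · intro y _
      show (if y = x then {c} else ranL G L (Z \ H) ψ y).card ≤ 3
      split_ifs with h
      · rw [Finset.card_singleton]
        norm_num
      · exact (ranL_card G L (Z \ H) ψ y (hL y)).1
    · intro y _ hyx
      show 3 ≤ (if y = x then {c} else ranL G L (Z \ H) ψ y).card + _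
      rw [if_neg hyx]
      exact (ranL_card G L (Z \ H) ψ y (hL y)).2
    · show 1 ≤ (if x = x then {c} else ranL G L (Z \ H) ψ x).card
      rw [if_pos rfl, Finset.card_singleton]
  obtain ⟨φ, h1, h2⟩ := ex_ranE G L _ (Z \ H) H ψ (fun y _ => by
    show (if y = x then {c} else ranL G L (Z \ H) ψ y) ⊆ _
    split_ifs with h
    · rw [h]
      exact Finset.singleton_subset_iff.2 hcx
    · exact Finset.Subset.refl _) hc
  refine ⟨φ, h1, ?_⟩
  have h3 := h2 x hx
  change φ x ∈ (if x = x then {c} else ranL G L (Z \ H) ψ x) at h3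
  rw [if_pos rfl] at h3
  exact Finset.mem_singleton.1 h3

/-- a random colouring of `Z` -/
def RanC (b : ℕ) (G : SimpleGraph V) (L : V → Finset C) (Z : Finset V) : Prop :=
  ∃ (I : Finset (V → C)) (p : (V → C) → ℝ), (∀ φ ∈ I, 0 ≤ p φ) ∧ ∑ φ ∈ I, p φ = 1 ∧
    (∀ φ ∈ I, ∀ x ∈ Z, φ x ∈ L x) ∧ (∀ φ ∈ I, ∀ x ∈ Z, ∀ y ∈ Z, G.Adj x y → φ x ≠ φ y) ∧
    (∀ x ∈ Z, ∀ c, (1 / 3 : ℝ) ^ b ≤ ∑ φ ∈ I, p φ * if φ x = c then 0 else 1) ∧
    ∀ x ∈ Z, ∀ c ∈ L x, (1 / 3 : ℝ) ^ (2 * b) ≤ ∑ φ ∈ I, p φ * if φ x = c then 1 else 0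

/-- the induction step -/
theorem ran_step [Fintype V] (b : ℕ) (G : SimpleGraph V) (L : V → Finset C)
    (hL : ∀ x, (L x).card = 3) (Z H : Finset V) (hb : H.card ≤ b) (hR : Rob C G Z H)
    (ih : RanC b G L (Z \ H)) : RanC b G L Z := by
  obtain ⟨J, q, q0, q1, qL, qp, qa, qb⟩ := ih
  obtain ⟨v0, hv0⟩ := hR.ne
  have hne : ∀ ψ : V → C, (ranE G L (Z \ H) H ψ).Nonempty := by
    intro ψ
    obtain ⟨φ, h, _⟩ := ranA G L Z H hR hL ψ v0 hv0 (ψ v0)
    exact ⟨φ, h⟩
  have hcd : ∀ ψ : V → C, (ranE G L (Z \ H) H ψ).card ≤ 3 ^ b :=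
    fun ψ => card_ranE G L (Z \ H) H ψ b hb hL
  refine ⟨J.biUnion (ranE G L (Z \ H) H), fun φ => ∑ ψ ∈ J, if φ ∈ ranE G L (Z \ H) H ψ then
    q ψ / ((ranE G L (Z \ H) H ψ).card : ℝ) else 0, ?_, ?_, ?_, ?_, ?_, ?_⟩
  · intro φ _
    refine Finset.sum_nonneg fun ψ hψ => ?_
    split_ifs
    · exact div_nonneg (q0 ψ hψ) (Nat.cast_nonneg _)
    · exact le_refl _
  · have h := ran_push J q (ranE G L (Z \ H) H) (fun _ => 1)
    simp only [mul_one] at h
    refine Eq.trans h (Eq.trans (Finset.sum_congr rfl fun ψ _ => ?_) q1)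
    rw [ran_const _ _ 1 (hne ψ) (fun _ _ => rfl), mul_one]
  · intro φ hφ x hx
    obtain ⟨ψ, hψ, hφ⟩ := Finset.mem_biUnion.1 hφ
    rw [mem_ranE] at hφ
    by_cases hxH : x ∈ H
    · exact ranL_sub G L (Z \ H) ψ x (hφ.1 x hxH)
    · rw [hφ.2.1 x hxH]
      exact qL ψ hψ x (Finset.mem_sdiff.2 ⟨hx, hxH⟩)
  · intro φ hφ x hx y hy hxy
    obtain ⟨ψ, hψ, hφ⟩ := Finset.mem_biUnion.1 hφ
    rw [mem_ranE] at hφ
    have cross : ∀ a ∈ H, ∀ d ∈ Z \ H, G.Adj a d → φ a ≠ φ d := by
      intro a ha d hd had he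
      have h1 := hφ.1 a ha
      rw [he, hφ.2.1 d (Finset.mem_sdiff.1 hd).2] at h1
      exact (Finset.mem_sdiff.1 h1).2 (Finset.mem_image.2 ⟨d, Finset.mem_filter.2 ⟨hd, had⟩, rfl⟩)
    by_cases hxH : x ∈ H
    · by_cases hyH : y ∈ H
      · exact hφ.2.2 x hxH y hyH hxy
      · exact cross x hxH y (Finset.mem_sdiff.2 ⟨hy, hyH⟩) hxy
    · by_cases hyH : y ∈ H
      · exact (cross y hyH x (Finset.mem_sdiff.2 ⟨hx, hxH⟩) hxy.symm).symm
      · rw [hφ.2.1 x hxH, hφ.2.1 y hyH]
        exact qp ψ hψ x (Finset.mem_sdiff.2 ⟨hx, hxH⟩) y (Finset.mem_sdiff.2 ⟨hy, hyH⟩) hxy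
  · intro x hx c
    refine le_trans ?_ (le_of_eq (ran_push J q (ranE G L (Z \ H) H)
      (fun φ => if φ x = c then 0 else 1)).symm)
    by_cases hxH : x ∈ H
    · calc (1 / 3 : ℝ) ^ b = ∑ ψ ∈ J, q ψ * (1 / 3 : ℝ) ^ b := by
            rw [← Finset.sum_mul, q1, one_mul]
        _ ≤ _ := Finset.sum_le_sum fun ψ hψ => mul_le_mul_of_nonneg_left (by
            obtain ⟨φ, h1, h2⟩ := ranA G L Z H hR hL ψ x hxH c
            exact ran_avg _ _ b (hcd ψ) (fun φ _ => by split_ifs <;> norm_num)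
              ⟨φ, h1, if_neg h2⟩) (q0 ψ hψ)
    · refine le_trans (qa x (Finset.mem_sdiff.2 ⟨hx, hxH⟩) c) (le_of_eq ?_)
      refine Finset.sum_congr rfl fun ψ _ => ?_
      rw [ran_const _ _ (if ψ x = c then 0 else 1) (hne ψ) (fun φ hφ => by
        rw [mem_ranE] at hφ
        rw [hφ.2.1 x hxH])]
  · intro x hx c hc
    refine le_trans ?_ (le_of_eq (ran_push J q (ranE G L (Z \ H) H)
      (fun φ => if φ x = c then 1 else 0)).symm)
    by_cases hxH : x ∈ H
    · have h1 : (1 / 3 : ℝ) ^ b ≤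
          ∑ ψ ∈ J, q ψ * if c ∈ ranL G L (Z \ H) ψ x then 1 else 0 := by
        rcases Nat.lt_or_ge 0 (nb G (Z \ H) x).card with hw | hw
        · obtain ⟨w, hw1⟩ := Finset.card_eq_one.1
            (le_antisymm (hR.out x hxH) hw : (nb G (Z \ H) x).card = 1)
          have hwZ : w ∈ Z \ H := by
            have : w ∈ nb G (Z \ H) x := by rw [hw1]; exact Finset.mem_singleton_self w
            exact (Finset.mem_filter.1 this).1
          refine le_trans (qa w hwZ c) (le_of_eq ?_)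
          refine Finset.sum_congr rfl fun ψ _ => ?_
          unfold ranL
          rw [hw1, Finset.image_singleton]
          by_cases h : ψ w = c
          · rw [if_pos h, if_neg]
            intro h'
            exact (Finset.mem_sdiff.1 h').2 (Finset.mem_singleton.2 h.symm)
          · rw [if_neg h, if_pos]
            exact Finset.mem_sdiff.2 ⟨hc, fun h' => h (Finset.mem_singleton.1 h').symm⟩
        · have hw0 : nb G (Z \ H) x = ∅ := Finset.card_eq_zero.1 (Nat.le_zero.1 hw)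
          have h2 : ∑ ψ ∈ J, q ψ * (if c ∈ ranL G L (Z \ H) ψ x then (1 : ℝ) else 0) = 1 := by
            refine Eq.trans (Finset.sum_congr rfl fun ψ _ => ?_) q1
            unfold ranL
            rw [hw0, Finset.image_empty, Finset.sdiff_empty, if_pos hc, mul_one]
          rw [h2]
          exact pow_le_one₀ (by norm_num) (by norm_num)
      calc (1 / 3 : ℝ) ^ (2 * b) = (1 / 3 : ℝ) ^ b * (1 / 3 : ℝ) ^ b := by
            rw [two_mul, pow_add]
        _ ≤ (1 / 3 : ℝ) ^ b * ∑ ψ ∈ J, q ψ * (if c ∈ ranL G L (Z \ H) ψ x then 1 else 0) :=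
            mul_le_mul_of_nonneg_left h1 (by positivity)
        _ ≤ _ := by
            rw [Finset.mul_sum]
            refine Finset.sum_le_sum fun ψ hψ => ?_
            by_cases h : c ∈ ranL G L (Z \ H) ψ x
            · rw [if_pos h, mul_one, mul_comm]
              refine mul_le_mul_of_nonneg_left ?_ (q0 ψ hψ)
              obtain ⟨φ, h1, h2⟩ := ranB G L Z H hR hL ψ x hxH c h
              exact ran_avg _ _ b (hcd ψ) (fun φ _ => by split_ifs <;> norm_num)
                ⟨φ, h1, if_pos h2⟩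
            · rw [if_neg h, mul_zero, mul_zero]
              refine mul_nonneg (q0 ψ hψ) (div_nonneg ?_ (Nat.cast_nonneg _))
              exact Finset.sum_nonneg fun φ _ => by split_ifs <;> norm_num
    · refine le_trans (qb x (Finset.mem_sdiff.2 ⟨hx, hxH⟩) c hc) (le_of_eq ?_)
      refine Finset.sum_congr rfl fun ψ _ => ?_
      rw [ran_const _ _ (if ψ x = c then 1 else 0) (hne ψ) (fun φ hφ => by
        rw [mem_ranE] at hφ
        rw [hφ.2.1 x hxH])]

/-- F1: a random colouring -/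
theorem ran : SRan.{u, v} := by
  intro b V _ C _ G hH L hL
  have key : ∀ Z : Finset V, RanC b G L Z := by
    intro Z
    induction Z using Finset.strongInduction with
    | H Z ih =>
      by_cases hZ : Z.Nonempty
      · obtain ⟨H, hb, hR⟩ := hH Z hZ
        exact ran_step b G L hL Z H hb hR (ih (Z \ H) (Finset.sdiff_ssubset hR.sub hR.ne))
      · rw [Finset.not_nonempty_iff_eq_empty] at hZ
        subst hZ
        obtain ⟨c0⟩ := (inferInstance : Nonempty C)
        refine ⟨{fun _ => c0}, fun _ => 1, ?_, ?_, ?_, ?_, ?_, ?_⟩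
        · intro φ _
          exact zero_le_one
        · rw [Finset.sum_singleton]
        · intro φ _ x hx
          exact absurd hx (Finset.notMem_empty x)
        · intro φ _ x hx
          exact absurd hx (Finset.notMem_empty x)
        · intro x hx
          exact absurd hx (Finset.notMem_empty x)
        · intro x hx
          exact absurd hx (Finset.notMem_empty x)
  obtain ⟨I, p, p0, p1, pL, pp, _, pb⟩ := key Finset.univ
  refine ⟨I, p, p0, p1, fun φ hφ x => pL φ hφ x (Finset.mem_univ x),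
    fun φ hφ x y => pp φ hφ x (Finset.mem_univ x) y (Finset.mem_univ y), ?_⟩
  intro x c hc
  refine le_trans (pb x (Finset.mem_univ x) c hc) (le_of_eq ?_)
  rw [Finset.sum_filter]
  refine Finset.sum_congr rfl fun φ _ => ?_
  split_ifs
  · rw [mul_one]
  · rw [mul_zero]

end Pool.Agent.FX
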