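import Pool.Agent.FX.Stm
import Pool.Agent.H41.Fire.Far.Piece
import Pool.Agent.H41.Fire.Sep.Radius

/-!
# MP_07b392_co, project FX, row H1: separators in a window of levels
-/

set_option autoImplicit false

namespace Pool.Agent.FX

open Classical
open Pool.Agent.H41.Fire (IsPlanar Rotation cycles Ctx exists_forest dist_le_succ)

universe u

variable {V : Type u} [Fintype V] {G : SimpleGraph V}

/-- the window version of the separator theorem of a contour -/
theorem sepw_ctx (C : Ctx G) (r k : ℕ) (hk : 1 ≤ k) (U : Finset V) (hin : ∀ a ∈ U, C.In a)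
    (hU : ∀ a ∈ U, r ≤ C.F.lev a ∧ C.F.lev a < r + k) :
    ∃ S A B : Finset V,
      S ∪ (A ∪ B) = U ∧ S.card + (A.card + B.card) = U.card ∧ S.card ≤ 2 * k ∧
      3 * A.card ≤ 2 * U.card + 3 ∧ 3 * B.card ≤ 2 * U.card + 3 ∧
      ∀ a ∈ A, ∀ b ∈ B, ¬ G.Adj a b := by
  obtain ⟨i, j, hij, hjN, hcl, h1, h2⟩ := C.balancedU U
  set P : ℕ → Prop := fun k => i ≤ k ∧ k < j with hP
  set W1 : Finset V := C.ancR r (r + k - 1) (C.D i).fst with hW1
  set W2 : Finset V := C.ancR r (r + k - 1) (C.D j).fst with hW2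
  set S : Finset V := U ∩ (W1 ∪ W2) with hS
  set A : Finset V := (C.sel P ∩ U) \ S with hA
  set B : Finset V := ((C.sel fun k => ¬ P k) ∩ U) \ S with hB
  have hSc : S.card ≤ 2 * k := by
    have h3 : S.card ≤ (W1 ∪ W2).card := Finset.card_le_card Finset.inter_subset_right
    have h4 := Finset.card_union_le W1 W2
    have h5 := C.card_ancR r (r + k - 1) (C.D i).fst
    have h6 := C.card_ancR r (r + k - 1) (C.D j).fst
    rw [← hW1] at h5
    rw [← hW2] at h6
    omega
  -- the elements of `U` outside `S`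
  have hnd : ∀ x ∈ U, x ∉ S → ¬ C.F.Desc x (C.D i).fst ∧ ¬ C.F.Desc x (C.D j).fst := by
    intro x hx hxS
    obtain ⟨a1, a2⟩ := hU x hx
    constructor
    · intro h
      apply hxS
      rw [hS, Finset.mem_inter, Finset.mem_union]
      exact ⟨hx, Or.inl (C.mem_ancR.2 ⟨h, a1, by omega⟩)⟩
    · intro h
      apply hxS
      rw [hS, Finset.mem_inter, Finset.mem_union]
      exact ⟨hx, Or.inr (C.mem_ancR.2 ⟨h, a1, by omega⟩)⟩
  have hnode : ∀ x ∈ U, x ∉ S → x ∈ C.nodes := by
    intro x hx hxS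
    rw [C.mem_nodes]
    refine ⟨hin x hx, fun h0 => (hnd x hx hxS).1 ?_⟩
    rw [C.eq_v (hin x hx) h0, C.F.desc_iff]
    refine ⟨0, Nat.zero_le _, ?_⟩
    have h3 := C.F.reachable_anc (C.D i).fst 0
    exact C.eq_v (SimpleGraph.Reachable.trans (C.in_D i) h3) (C.F.lev_anc (Nat.zero_le _))
  have hAm : ∀ x, x ∈ A ↔ (((x ∈ C.nodes ∧ P (C.e x)) ∧ x ∈ U) ∧ x ∉ S) := by
    intro x
    rw [hA, Finset.mem_sdiff, Finset.mem_inter, C.mem_sel]
  have hBm : ∀ x, x ∈ B ↔ (((x ∈ C.nodes ∧ ¬ P (C.e x)) ∧ x ∈ U) ∧ x ∉ S) := by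
    intro x
    rw [hB, Finset.mem_sdiff, Finset.mem_inter, C.mem_sel]
  have hU1 : S ∪ (A ∪ B) = U := by
    ext x
    rw [Finset.mem_union, Finset.mem_union, hAm, hBm]
    constructor
    · rintro (h | h | h)
      · exact (Finset.mem_inter.1 h).1
      · exact h.1.2
      · exact h.1.2
    · intro h
      by_cases hxS : x ∈ S
      · exact Or.inl hxS
      · have hn := hnode x h hxS
        by_cases hPx : P (C.e x)
        · exact Or.inr (Or.inl ⟨⟨⟨hn, hPx⟩, h⟩, hxS⟩)
        · exact Or.inr (Or.inr ⟨⟨⟨hn, hPx⟩, h⟩, hxS⟩)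
  have hd1 : Disjoint A B := by
    rw [Finset.disjoint_left]
    intro x hx hx'
    rw [hAm] at hx
    rw [hBm] at hx'
    exact hx'.1.1.2 hx.1.1.2
  have hd2 : Disjoint S (A ∪ B) := by
    rw [Finset.disjoint_left]
    intro x hx hx'
    rw [Finset.mem_union, hAm, hBm] at hx'
    rcases hx' with h | h
    · exact h.2 hx
    · exact h.2 hx
  have hU2 : S.card + (A.card + B.card) = U.card := by
    rw [← Finset.card_union_of_disjoint hd1, ← Finset.card_union_of_disjoint hd2, hU1]
  have hnot := C.wtU_add_not U P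
  have hnU : (C.nodes ∩ U).card ≤ U.card := Finset.card_le_card Finset.inter_subset_right
  have hAc : A.card ≤ C.wtU U P := Finset.card_le_card Finset.sdiff_subset
  have hBc : B.card ≤ C.wtU U (fun k => ¬ P k) := Finset.card_le_card Finset.sdiff_subset
  have h1' : (C.nodes ∩ U).card ≤ 3 * C.wtU U P := h1
  have h2' : (C.nodes ∩ U).card ≤ 3 * C.wtU U (fun k => ¬ P k) + 3 := h2
  refine ⟨S, A, B, hU1, hU2, hSc, by omega, by omega, ?_⟩
  intro a ha b hb hab
  rw [hAm] at ha
  rw [hBm] at hb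
  obtain ⟨⟨⟨han, haP⟩, haU⟩, haS⟩ := ha
  obtain ⟨⟨⟨hbn, hbP⟩, hbU⟩, hbS⟩ := hb
  obtain ⟨a1, a2⟩ := hnd a haU haS
  obtain ⟨b1, b2⟩ := hnd b hbU hbS
  exact hbP (C.same_side hcl han hbn hab a1 a2 b1 b2 haP)

/-- row H1 -/
theorem sep : SSep.{u} := by
  intro V _ G hG
  refine ⟨fun x => G.dist (G.connectedComponentMk x).out x, ?_, ?_⟩
  · intro a b hab
    have h1 : G.connectedComponentMk a = G.connectedComponentMk b :=
      SimpleGraph.ConnectedComponent.eq.2 hab.reachable
    show G.dist (G.connectedComponentMk a).out a ≤ G.dist (G.connectedComponentMk b).out b + 1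
    rw [h1]
    refine dist_le_succ ?_ hab.symm
    apply SimpleGraph.ConnectedComponent.eq.1
    exact Quot.out_eq (G.connectedComponentMk b)
  · intro r k U hU hcon
    rcases U.eq_empty_or_nonempty with rfl | ⟨u0, hu0⟩
    · exact ⟨∅, ∅, ∅, by simp, by simp, by simp, by simp, by simp, by simp⟩
    set v0 : V := (G.connectedComponentMk u0).out with hv0
    have hr0 : G.Reachable v0 u0 := by
      apply SimpleGraph.ConnectedComponent.eq.1
      exact Quot.out_eq (G.connectedComponentMk u0)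
    have hreach : ∀ a ∈ U, G.Reachable v0 a := fun a ha => hr0.trans (hcon u0 hu0 a ha)
    have hlev : ∀ a ∈ U, r ≤ G.dist v0 a ∧ G.dist v0 a < r + k := by
      intro a ha
      have h1 : G.connectedComponentMk a = G.connectedComponentMk u0 :=
        SimpleGraph.ConnectedComponent.eq.2 (hcon a ha u0 hu0)
      have h2 : r ≤ G.dist (G.connectedComponentMk a).out a ∧
          G.dist (G.connectedComponentMk a).out a < r + k := hU a ha
      rw [h1] at h2
      exact h2
    have hk : 1 ≤ k := by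
      have := hlev u0 hu0
      omega
    by_cases hw : ∃ w, G.Adj v0 w
    · obtain ⟨w, hw⟩ := hw
      obtain ⟨R, hR⟩ := hG
      obtain ⟨F, hF1, -⟩ := exists_forest G v0 (fun _ => 0)
      let C : Ctx G := {
        R := R
        F := F
        d0 := ⟨(v0, w), hw⟩
        nc := fun c d hc hd hcd => F.noncross R hR hc hd hcd
        hlev := hF1 }
      refine sepw_ctx C r k hk U (fun a ha => hreach a ha) ?_
      intro a ha
      have h1 : C.F.lev a = G.dist v0 a := hF1 a (hreach a ha)
      rw [h1]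
      exact hlev a ha
    · have hsub : U ⊆ {v0} := by
        intro a ha
        rw [Finset.mem_singleton]
        obtain ⟨p⟩ := hreach a ha
        cases p with
        | nil => rfl
        | cons h q => exact absurd ⟨_, h⟩ hw
      have hc : U.card ≤ 1 := by
        have := Finset.card_le_card hsub
        simpa using this
      exact ⟨∅, U, ∅, by simp, by simp, by simp, by omega, by simp, by simp⟩

end Pool.Agent.FX
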