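import Pool.Agent.FX.Defs

/-!
# MP_07b392_co, project FX: statements of the rows
-/

set_option autoImplicit false

namespace Pool.Agent.FX

open Classical
open Pool.Agent.H41.Fire (IsPlanar Rotation cycles rev)

universe u v

/-! ### block B: basic counting -/

/-- B1: sums of degrees. `e2` is even; splitting off a vertex; splitting without edges between the
parts; splitting in two parts -/
def SBas : Prop := ∀ (V : Type u) (G : SimpleGraph V),
  (∀ X : Finset V, Even (e2 G X)) ∧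
  (∀ (X : Finset V) (v : V), v ∉ X → e2 G (insert v X) = e2 G X + 2 * dg G X v) ∧
  (∀ X A : Finset V, A ⊆ X → e2 G X = e2 G A + e2 G (X \ A) + 2 * ∑ x ∈ A, dg G (X \ A) x) ∧
  (∀ X A : Finset V, A ⊆ X → ∑ x ∈ A, dg G (X \ A) x = ∑ x ∈ X \ A, dg G A x) ∧
  (∀ (X A : Finset V) (x : V), A ⊆ X → dg G X x = dg G A x + dg G (X \ A) x)

/-- B2: pentagons through a vertex, and the number of pentagons -/
def SPe1 : Prop := ∀ (V : Type u) (G : SimpleGraph V), ED G →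
  (∀ (X : Finset V) (x : V), 2 * ((pe G X).filter fun P => x ∈ P).card ≤ dg G X x) ∧
  (∀ X : Finset V, 5 * c5 G X = ∑ x ∈ X, ((pe G X).filter fun P => x ∈ P).card) ∧
  (∀ X : Finset V, 10 * c5 G X ≤ e2 G X) ∧
  (∀ (X : Finset V) (v : V), v ∉ X → 2 * c5 G (insert v X) ≤ 2 * c5 G X + dg G X v)

/-- B3: pentagons across the boundary of `H`: at least two edges leave `P ∩ H`; the pentagons that
meet `H` only in `X` and leave `H` -/
def SPe2 : Prop := ∀ (V : Type u) (G : SimpleGraph V), G5 G → ED G →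
  (∀ P A : Finset V, Pe G P → A ⊆ P → A.Nonempty → A ≠ P → 2 ≤ ∑ x ∈ A, dg G (P \ A) x) ∧
  ∀ Z H X : Finset V, H ⊆ Z → X ⊆ H →
    2 * ((pe G Z).filter fun P => (P ∩ H).Nonempty ∧ P ∩ H ⊆ X ∧ ¬ P ⊆ X).card ≤
      ∑ x ∈ X, dg G (Z \ H) x

/-! ### block C: colouring -/

/-- C1: critical sets -/
def SCrit : Prop := ∀ (V : Type u) (C : Type v) [Nonempty C] (G : SimpleGraph V)
  (L : V → Finset C),
  (∀ X : Finset V, ¬ Col G L X → ∃ Y ⊆ X, Cr G L Y) ∧
  (∀ X Y : Finset V, Y ⊆ X → Col G L X → Col G L Y) ∧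
  (∀ Y : Finset V, Cr G L Y → Y.Nonempty ∧ Cn G Y ∧ (∀ x ∈ Y, (L x).card ≤ dg G Y x) ∧
    ∀ A ⊆ Y, A ≠ Y → Col G L A)

/-- C2: extension of a colouring: if `A` has an `L`-colouring `φ` and `B` is colourable from the
lists `L x` minus the colours of the neighbours of `x` in `A`, then `A ∪ B` is colourable; the size
of the reduced lists -/
def SExt : Prop := ∀ (V : Type u) (C : Type v) [Nonempty C] (G : SimpleGraph V)
  (L : V → Finset C) (A B : Finset V) (φ : V → C), Disjoint A B → (∀ x ∈ A, φ x ∈ L x) →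
  (∀ x ∈ A, ∀ y ∈ A, G.Adj x y → φ x ≠ φ y) →
  (Col G (fun x => L x \ (nb G A x).image φ) B → Col G L (A ∪ B)) ∧
  ∀ x, (L x).card ≤ (L x \ (nb G A x).image φ).card + dg G A x

/-- C3: one vertex with a surplus -/
def SSurp : Prop := ∀ (V : Type u) (C : Type v) [Nonempty C] (G : SimpleGraph V)
  (L : V → Finset C) (X : Finset V), Cn G X → (∀ x ∈ X, dg G X x ≤ (L x).card) →
  (∃ x ∈ X, dg G X x < (L x).card) → Col G L X

/-- C4: Theorem E -/
def SThE : Prop := ∀ (V : Type u) (C : Type v) [Nonempty C] (G : SimpleGraph V)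
  (L : V → Finset C) (X : Finset V), G5 G → Cn G X → (∀ x ∈ X, dg G X x ≤ 3) →
  (∀ x ∈ X, dg G X x ≤ (L x).card) → ¬ Col G L X → 5 * e2 G X + 10 ≤ 12 * X.card

/-- C5: Theorem E for a critical set: the vertices with `deg + 3 - |L| = 3` -/
def SThE2 : Prop := ∀ (V : Type u) (C : Type v) [Nonempty C] (G : SimpleGraph V)
  (L : V → Finset C) (Y : Finset V), G5 G → Cr G L Y → (∀ x ∈ Y, (L x).card ≤ 3) →
  ∀ Y0 : Finset V, Y0 = (Y.filter fun x => dg G Y x = (L x).card) → Y0.Nonempty →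
    5 * e2 G Y0 + 10 ≤ 12 * Y0.card

/-- C6: Lemma G -/
def SLemG : Prop := ∀ (V : Type u) (C : Type v) [Nonempty C] (G : SimpleGraph V)
  (L : V → Finset C) (Y : Finset V), G5 G → ED G → Cr G L Y → (∀ x ∈ Y, (L x).card ≤ 3) →
  602 * Y.card + 100 * c5 G Y + 76 ≤ 200 * e2 G Y + 238 * ∑ x ∈ Y, (3 - (L x).card)

/-! ### block P: planarity -/

/-- P1: deletion of one edge from a rotation system -/
def SDel : Prop := ∀ (V : Type u) [Fintype V] (G : SimpleGraph V) (R : Rotation G) (d : G.Dart),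
  ∃ R' : Rotation (G.deleteEdges {d.edge}), fc R ≤ fc R' + 1 ∧
    (R.face.SameCycle d d.symm → fc R + 1 ≤ fc R')

/-- P2: a bridge has the same face on both sides -/
def SBri : Prop := ∀ (V : Type u) [Fintype V] (G : SimpleGraph V) (R : Rotation G) (d : G.Dart),
  ¬ (G.deleteEdges {d.edge}).Reachable d.fst d.snd → R.face.SameCycle d d.symm

/-- P3: number of components after the deletion of one edge -/
def SCom : Prop := ∀ (V : Type u) [Fintype V] (G : SimpleGraph V) (d : G.Dart),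
  Nat.card (G.deleteEdges {d.edge}).ConnectedComponent ≤ Nat.card G.ConnectedComponent + 1 ∧
  ((G.deleteEdges {d.edge}).Reachable d.fst d.snd →
    Nat.card (G.deleteEdges {d.edge}).ConnectedComponent ≤ Nat.card G.ConnectedComponent)

/-- P4: subgraphs of planar graphs are planar -/
def SSub : Prop := ∀ (V : Type u) [Fintype V] (G G' : SimpleGraph V), G' ≤ G → IsPlanar G →
  IsPlanar G'

/-- P5: the faces of a connected graph of girth at least five that is not a tree and not a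
5-cycle -/
def SFace : Prop := ∀ (V : Type u) [Fintype V] (G : SimpleGraph V) (R : Rotation G)
  (X : Finset V), G5 G → (∀ a b, G.Adj a b → a ∈ X) → Cn G X → 2 * X.card ≤ e2 G X → ¬ Pe G X →
  6 * cycles R.face ≤ e2 G X + c5 G X

/-- P6: Euler's formula for a connected set -/
def SEul : Prop := ∀ (V : Type u) [Fintype V] (G : SimpleGraph V), IsPlanar G → G5 G →
  ∀ X : Finset V, Cn G X → 2 * X.card ≤ e2 G X → 2 * e2 G X + 11 ≤ 6 * X.card + c5 G X

/-- P7: number of edges of connected sets and of arbitrary sets -/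
def SPla : Prop := ∀ (V : Type u) [Fintype V] (G : SimpleGraph V), IsPlanar G → G5 G →
  (∀ X : Finset V, Cn G X → 2 * e2 G X + 6 ≤ 6 * X.card + c5 G X) ∧
  (∀ X : Finset V, 2 * e2 G X ≤ 6 * X.card + c5 G X)

/-! ### block H: hyperfiniteness -/

/-- H1: separators in a window of levels. `lev` is the distance from a root of the component. -/
def SSep : Prop := ∀ (V : Type u) [Fintype V] (G : SimpleGraph V), IsPlanar G → ∃ lev : V → ℕ,
  (∀ a b, G.Adj a b → lev a ≤ lev b + 1) ∧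
  ∀ (r k : ℕ) (U : Finset V), (∀ a ∈ U, r ≤ lev a ∧ lev a < r + k) →
    (∀ a ∈ U, ∀ b ∈ U, G.Reachable a b) → ∃ S A B : Finset V,
      S ∪ (A ∪ B) = U ∧ S.card + (A.card + B.card) = U.card ∧ S.card ≤ 2 * k ∧
      3 * A.card ≤ 2 * U.card + 3 ∧ 3 * B.card ≤ 2 * U.card + 3 ∧
      ∀ a ∈ A, ∀ b ∈ B, ¬ G.Adj a b

/-- the bound for the size of the parts -/
def KK : ℕ := 6400 * 800

/-- H2: planar graphs are hyperfinite -/
def SHyp : Prop := ∀ (V : Type u) [Fintype V] (G : SimpleGraph V), IsPlanar G →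
  ∀ Z : Finset V, ∃ S ⊆ Z, 400 * S.card ≤ Z.card ∧ ∀ X ⊆ Z \ S, Cn G X → X.card ≤ KK

/-! ### block R: robust sets -/

/-- R1: a small set with positive potential -/
def SPos : Prop := ∀ (V : Type u) (G : SimpleGraph V), ED G →
  (∀ X : Finset V, 2 * e2 G X ≤ 6 * X.card + c5 G X) → ∀ (K : ℕ) (Z S : Finset V), Z.Nonempty →
    S ⊆ Z → 400 * S.card ≤ Z.card → (∀ X ⊆ Z \ S, Cn G X → X.card ≤ K) →
      ∃ H ⊆ Z, H.card ≤ K ∧ 0 < Ps G Z H

/-- R2: the change of the potential, for `X ⊆ H ⊆ Z` -/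
def SPsi : Prop := ∀ (V : Type u) (G : SimpleGraph V), G5 G → ED G → ∀ Z H X : Finset V,
  H ⊆ Z → X ⊆ H → Ps G Z (H \ X) ≤ Ps G Z H →
    200 * e2 G X + 350 * ∑ x ∈ X, dg G (Z \ H) x ≤ 602 * X.card + 100 * c5 G X

/-- R3: a small set with the key inequality -/
def SKey : Prop := ∀ (V : Type u) (G : SimpleGraph V), G5 G → ED G → ∀ (K : ℕ) (Z : Finset V),
  (∃ H ⊆ Z, H.card ≤ K ∧ 0 < Ps G Z H) → ∃ H ⊆ Z, H.Nonempty ∧ H.card ≤ K ∧ Key G Z H

/-- the planar inequalities -/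
def PI (V : Type u) (G : SimpleGraph V) : Prop :=
  (∀ X : Finset V, Cn G X → 2 * e2 G X + 6 ≤ 6 * X.card + c5 G X) ∧
  ∀ X : Finset V, Cn G X → 2 * X.card ≤ e2 G X → 2 * e2 G X + 11 ≤ 6 * X.card + c5 G X

/-- R4: (FORB) -/
def SForb : Prop := ∀ (V : Type u) (C : Type v) [Nonempty C] (G : SimpleGraph V), G5 G → ED G →
  PI V G → ∀ Z H : Finset V, H ⊆ Z → Key G Z H → ∀ v ∈ H, ∀ L : V → Finset C,
    (∀ x ∈ H, (L x).card ≤ 3) → (∀ x ∈ H, x ≠ v → 3 ≤ (L x).card + dg G (Z \ H) x) →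
    2 ≤ (L v).card + dg G (Z \ H) v → Col G L H

/-- R5: (FIX) -/
def SFix : Prop := ∀ (V : Type u) (C : Type v) [Nonempty C] (G : SimpleGraph V), G5 G → ED G →
  PI V G → ∀ Z H : Finset V, H ⊆ Z → Key G Z H → ∀ v ∈ H, ∀ L : V → Finset C,
    (∀ x ∈ H, (L x).card ≤ 3) → (∀ x ∈ H, x ≠ v → 3 ≤ (L x).card + dg G (Z \ H) x) →
    1 ≤ (L v).card → Col G L H

/-! ### block F: flexibility -/

/-- F1: a random colouring (finitely many colourings with weights) -/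
def SRan : Prop := ∀ (b : ℕ) (V : Type u) [Fintype V] (C : Type v) [Nonempty C]
  (G : SimpleGraph V), (∀ Z : Finset V, Z.Nonempty → ∃ H, H.card ≤ b ∧ Rob C G Z H) →
  ∀ L : V → Finset C, (∀ x, (L x).card = 3) → ∃ (I : Finset (V → C)) (p : (V → C) → ℝ),
    (∀ φ ∈ I, 0 ≤ p φ) ∧ ∑ φ ∈ I, p φ = 1 ∧ (∀ φ ∈ I, ∀ x, φ x ∈ L x) ∧
    (∀ φ ∈ I, ∀ x y, G.Adj x y → φ x ≠ φ y) ∧
    ∀ x, ∀ c ∈ L x, (1 / 3 : ℝ) ^ (2 * b) ≤ ∑ φ ∈ I.filter (fun φ => φ x = c), p φ

/-- weighted flexibility for lists of size three -/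
def WFlex (V : Type u) [Fintype V] (C : Type v) (G : SimpleGraph V) (ε : ℝ) : Prop :=
  ∀ L : V → Finset C, (∀ x, (L x).card = 3) → ∀ w : V → C → ℝ, (∀ x, ∀ c ∈ L x, 0 ≤ w x c) →
    ∃ φ : V → C, (∀ x, φ x ∈ L x) ∧ (∀ x y, G.Adj x y → φ x ≠ φ y) ∧
      ε * ∑ x, ∑ c ∈ L x, w x c ≤ ∑ x, w x (φ x)

/-- F2: expectation -/
def SFlex : Prop := ∀ (b : ℕ) (V : Type u) [Fintype V] (C : Type v)
  (G : SimpleGraph V), (∀ Z : Finset V, Z.Nonempty → ∃ H, H.card ≤ b ∧ Rob C G Z H) →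
  WFlex V C G ((1 / 3 : ℝ) ^ (2 * b))

/-- F3: the main theorem in internal form -/
def SMain : Prop := ∀ (V : Type u) [Fintype V] (C : Type v) (G : SimpleGraph V), IsPlanar G →
  G5 G → ED G → WFlex V C G ((1 / 3 : ℝ) ^ (2 * KK))

/-- F4: girth and 5-cycles in terms of walks -/
def SCyc : Prop := ∀ (V : Type u) (G : SimpleGraph V), 5 ≤ G.egirth →
  (∀ (a b : V) (p : G.Walk a a) (q : G.Walk b b), p.IsCycle → q.IsCycle → p.length = 5 →
    q.length = 5 → (∃ e, e ∈ p.edges ∧ e ∈ q.edges) → ∀ e, e ∈ p.edges ↔ e ∈ q.edges) →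
  G5 G ∧ ED G

end Pool.Agent.FX
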