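import Pool.Agent.FX.Stm

/-!
# MP_07b392_co, project FX, row P4: subgraphs of planar graphs are planar
-/

set_option autoImplicit false

namespace Pool.Agent.FX

open Classical
open Pool.Agent.H41.Fire (IsPlanar Rotation cycles rev)

universe u v

/-- the defect of a rotation system -/
noncomputable def subDef {V : Type u} (G : SimpleGraph V) (R : Rotation G) : ℤ :=
  2 * (Nat.card G.ConnectedComponent : ℤ) + (Nat.card G.edgeSet : ℤ) - (Nat.card V : ℤ) -
    (fc R : ℤ)

lemma sub_planar_iff {V : Type u} (G : SimpleGraph V) :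
    IsPlanar G ↔ ∃ R : Rotation G, subDef G R = 0 := by
  constructor
  · rintro ⟨R, hR⟩
    refine ⟨R, ?_⟩
    unfold subDef fc
    push_cast
    zify at hR
    linarith
  · rintro ⟨R, hR⟩
    refine ⟨R, ?_⟩
    unfold subDef fc at hR
    push_cast at hR
    zify
    linarith

lemma sub_card_edges {V : Type u} [Fintype V] (G : SimpleGraph V) (d : G.Dart) :
    Nat.card (G.deleteEdges {d.edge}).edgeSet + 1 = Nat.card G.edgeSet := by
  rw [SimpleGraph.edgeSet_deleteEdges]
  have h1 : d.edge ∈ G.edgeSet := d.edge_mem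
  have hfin : G.edgeSet.Finite := Set.toFinite _
  have h2 := Set.ncard_diff_singleton_add_one h1 hfin
  rw [Nat.card_coe_set_eq, Nat.card_coe_set_eq]
  exact h2

lemma sub_step (h1 : SDel.{u}) (h2 : SBri.{u}) (h3 : SCom.{u}) {V : Type u} [Fintype V]
    (G : SimpleGraph V) (R : Rotation G) (d : G.Dart) :
    ∃ R' : Rotation (G.deleteEdges {d.edge}), subDef (G.deleteEdges {d.edge}) R' ≤ subDef G R := by
  obtain ⟨R', ha, hb⟩ := h1 V G R d
  obtain ⟨hc, hd⟩ := h3 V G d
  have he := sub_card_edges G d
  refine ⟨R', ?_⟩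
  unfold subDef
  by_cases hr : (G.deleteEdges {d.edge}).Reachable d.fst d.snd
  · have hd' := hd hr
    zify at ha hd' he
    linarith
  · have hb' := hb (h2 V G R d hr)
    zify at hb' hc he
    linarith

lemma sub_desc (h1 : SDel.{u}) (h2 : SBri.{u}) (h3 : SCom.{u}) {V : Type u} [Fintype V]
    (G' : SimpleGraph V) : ∀ (n : ℕ) (G : SimpleGraph V), G' ≤ G →
      (G.edgeSet \ G'.edgeSet).ncard ≤ n → ∀ R : Rotation G,
        ∃ R' : Rotation G', subDef G' R' ≤ subDef G R := by
  intro n
  induction n with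
  | zero =>
    intro G hle hn R
    have hfin : (G.edgeSet \ G'.edgeSet).Finite := Set.toFinite _
    have hz : (G.edgeSet \ G'.edgeSet).ncard = 0 := Nat.le_zero.1 hn
    rw [Set.ncard_eq_zero hfin] at hz
    have hsub : G.edgeSet ⊆ G'.edgeSet := Set.diff_eq_empty.1 hz
    have hle2 : G ≤ G' := SimpleGraph.edgeSet_subset_edgeSet.1 hsub
    have heq : G = G' := le_antisymm hle2 hle
    subst heq
    exact ⟨R, le_rfl⟩
  | succ n ih =>
    intro G hle hn R
    by_cases hemp : G.edgeSet \ G'.edgeSet = ∅
    · exact ih G hle (by rw [hemp, Set.ncard_empty]; exact Nat.zero_le _) R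
    · obtain ⟨e, he, he'⟩ := Set.nonempty_iff_ne_empty.2 hemp
      induction e using Sym2.ind with
      | _ a b =>
        have hab : G.Adj a b := (SimpleGraph.mem_edgeSet G).1 he
        let d : G.Dart := ⟨(a, b), hab⟩
        have hde : d.edge = s(a, b) := rfl
        obtain ⟨R1, hR1⟩ := sub_step h1 h2 h3 G R d
        have hle1 : G' ≤ G.deleteEdges {d.edge} := by
          intro x y hxy
          rw [SimpleGraph.deleteEdges_adj]
          refine ⟨hle hxy, ?_⟩
          intro hmem
          rw [Set.mem_singleton_iff, hde] at hmem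
          apply he'
          rw [← hmem]
          exact (SimpleGraph.mem_edgeSet G').2 hxy
        have hcard : ((G.deleteEdges {d.edge}).edgeSet \ G'.edgeSet).ncard ≤ n := by
          have hss : (G.deleteEdges {d.edge}).edgeSet \ G'.edgeSet =
              (G.edgeSet \ G'.edgeSet) \ {s(a, b)} := by
            rw [SimpleGraph.edgeSet_deleteEdges, hde]
            ext z
            constructor
            · rintro ⟨⟨hz1, hz2⟩, hz3⟩
              exact ⟨⟨hz1, hz3⟩, hz2⟩
            · rintro ⟨⟨hz1, hz3⟩, hz2⟩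
              exact ⟨⟨hz1, hz2⟩, hz3⟩
          rw [hss]
          have hfin : (G.edgeSet \ G'.edgeSet).Finite := Set.toFinite _
          have := Set.ncard_diff_singleton_add_one (show s(a, b) ∈ G.edgeSet \ G'.edgeSet from
            ⟨he, he'⟩) hfin
          omega
        obtain ⟨R2, hR2⟩ := ih (G.deleteEdges {d.edge}) hle1 hcard R1
        exact ⟨R2, hR2.trans hR1⟩

lemma sub_bot {V : Type u} [Fintype V] (S : Rotation (⊥ : SimpleGraph V)) :
    subDef (⊥ : SimpleGraph V) S = 0 := by
  have hE : Nat.card (⊥ : SimpleGraph V).edgeSet = 0 := by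
    rw [SimpleGraph.edgeSet_bot]
    simp
  have hD : IsEmpty (⊥ : SimpleGraph V).Dart := ⟨fun d => d.adj⟩
  have hcyc : cycles S.face = 0 := by
    unfold cycles
    have : IsEmpty (Quotient (Equiv.Perm.SameCycle.setoid S.face)) := by
      constructor
      intro q
      induction q using Quotient.ind with
      | _ d => exact hD.false d
    exact Nat.card_of_isEmpty
  have hiso : Nat.card {v : V // ∀ w, ¬ (⊥ : SimpleGraph V).Adj v w} = Nat.card V := by
    apply Nat.card_congr
    exact Equiv.subtypeUnivEquiv (fun v w h => h)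
  have hC : Nat.card (⊥ : SimpleGraph V).ConnectedComponent = Nat.card V := by
    symm
    apply Nat.card_congr
    refine Equiv.ofBijective (fun v => (⊥ : SimpleGraph V).connectedComponentMk v) ⟨?_, ?_⟩
    · intro x y hxy
      have hr : (⊥ : SimpleGraph V).Reachable x y := SimpleGraph.ConnectedComponent.exact hxy
      exact SimpleGraph.reachable_bot.1 hr
    · intro c
      induction c using SimpleGraph.ConnectedComponent.ind with
      | _ v => exact ⟨v, rfl⟩
  unfold subDef fc
  rw [hE, hcyc, hiso, hC]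
  push_cast
  ring

/-- P4: subgraphs of planar graphs are planar -/
theorem sub (h1 : SDel.{u}) (h2 : SBri.{u}) (h3 : SCom.{u}) : SSub.{u} := by
  intro V _ G G' hle hG
  obtain ⟨R, hR⟩ := (sub_planar_iff G).1 hG
  obtain ⟨R', hR'⟩ := sub_desc h1 h2 h3 G' _ G hle le_rfl R
  obtain ⟨S, hS⟩ := sub_desc h1 h2 h3 (⊥ : SimpleGraph V) _ G' bot_le le_rfl R'
  rw [sub_bot S] at hS
  exact (sub_planar_iff G').2 ⟨R', le_antisymm (hR'.trans_eq hR) hS⟩

end Pool.Agent.FX
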