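import Pool.Agent.FX.Stm

/-!
# MP_07b392_co, project FX, row C3: one vertex with a surplus
-/

set_option autoImplicit false

namespace Pool.Agent.FX

open Classical

universe u v

theorem surp (h1 : SBas.{u}) (h2 : SCrit.{u, v}) : SSurp.{u, v} := by
  intro V C _ G L X hX hdeg hsur
  obtain ⟨x0, hx0, hlt⟩ := hsur
  by_contra hcol
  obtain ⟨hc1, _, hc3⟩ := h2 V C G L
  obtain ⟨Y, hYX, hY⟩ := hc1 X hcol
  obtain ⟨hYne, _, hYdeg, _⟩ := hc3 Y hY
  have hsplit := (h1 V G).2.2.2.2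
  by_cases hYeq : Y = X
  · rw [hYeq] at hYdeg
    have h3 := hYdeg x0 hx0
    omega
  · obtain ⟨a, ha, b, hb, hab⟩ := hX.2 Y hYX hYne hYeq
    have h3 := hYdeg a ha
    have h4 := hdeg a (hYX ha)
    have h5 := hsplit X Y a hYX
    have h6 : 0 < dg G (X \ Y) a := by
      unfold dg nb
      refine Finset.card_pos.mpr ⟨b, ?_⟩
      rw [Finset.mem_filter]
      exact ⟨hb, hab⟩
    omega

end Pool.Agent.FX
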