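import Pool.Agent.FX.ThEa

/-!
# MP_07b392_co, project FX, row C4: Theorem E

A connected set of maximal degree at most three that cannot be coloured from lists at least as
large as the degrees satisfies `5 * e2 + 10 ≤ 12 * card` in a graph of girth at least five.
-/

set_option autoImplicit false

namespace Pool.Agent.FX

open Classical

universe u v

variable {V : Type u} {C : Type v}

/-- colouring one vertex -/
theorem e4_one (h1 : SBas.{u}) (h3 : SExt.{u, v}) [Nonempty C] {G : SimpleGraph V}
    {L : V → Finset C} {X : Finset V} {x : V} (hx : x ∈ X)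
    (hL : ∀ x ∈ X, dg G X x ≤ (L x).card) (hcol : ¬ Col G L X) {c : C} (hc : c ∈ L x) :
    (∀ y ∈ X \ {x}, dg G (X \ {x}) y ≤ (L y \ (nb G {x} y).image fun _ => c).card) ∧
      ¬ Col G (fun y => L y \ (nb G {x} y).image fun _ => c) (X \ {x}) := by
  refine e4_red h1 h3 (Finset.singleton_subset_iff.mpr hx) hL hcol (fun _ => c) ?_ ?_
  · intro y hy
    rw [Finset.mem_singleton] at hy
    subst hy
    exact hc
  · intro y hy z hz hyz
    rw [Finset.mem_singleton] at hy hz
    subst hy
    subst hz
    exact absurd rfl hyz.ne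

/-- a set without bridges that cannot be coloured is regular -/
theorem e4_reg (h1 : SBas.{u}) (h3 : SExt.{u, v}) (h4 : SSurp.{u, v}) [Nonempty C]
    {G : SimpleGraph V} {L : V → Finset C} {X : Finset V} (hX : Cn G X)
    (hd : ∀ x ∈ X, dg G X x ≤ 3) (hL : ∀ x ∈ X, dg G X x = (L x).card) (hcol : ¬ Col G L X)
    (hn : 2 ≤ X.card)
    (hnb : ∀ A ⊆ X, A.Nonempty → A ≠ X → ∑ x ∈ A, dg G (X \ A) x ≠ 1) :
    ∃ d, ∀ x ∈ X, dg G X x = d := by
  obtain ⟨m, hm, hmax⟩ := Finset.exists_max_image X (fun x => dg G X x) hX.1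
  refine ⟨dg G X m, ?_⟩
  by_contra hcon
  push Not at hcon
  obtain ⟨z, hz, hzm⟩ := hcon
  obtain ⟨a, ha, w, hw, haw⟩ := hX.2 (X.filter fun x => dg G X x = dg G X m)
    (Finset.filter_subset _ _) ⟨m, Finset.mem_filter.mpr ⟨hm, rfl⟩⟩ (by
      intro h
      have : z ∈ X.filter fun x => dg G X x = dg G X m := by
        rw [h]
        exact hz
      exact hzm (Finset.mem_filter.mp this).2)
  rw [Finset.mem_filter] at ha
  rw [Finset.mem_sdiff, Finset.mem_filter, not_and] at hw
  have hw1 : dg G X w < dg G X a := by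
    have e1 : dg G X w ≤ dg G X m := hmax w hw.1
    have e2 := hw.2 hw.1
    have e3 := ha.2
    omega
  have hc : ∃ c ∈ L a, c ∉ L w := by
    by_contra h
    push Not at h
    have := Finset.card_le_card (show L a ⊆ L w from h)
    rw [← hL a ha.1, ← hL w hw.1] at this
    omega
  obtain ⟨c, hca, hcw⟩ := hc
  obtain ⟨r1, r2⟩ := e4_one h1 h3 ha.1 (fun x hx => (hL x hx).le) hcol hca
  apply r2
  apply h4 V C G _ (X \ {a}) (e4_erase h1 hX hd hn hnb ha.1) r1
  refine ⟨w, ?_, ?_⟩
  · rw [Finset.mem_sdiff, Finset.mem_singleton]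
    exact ⟨hw.1, haw.ne'⟩
  · have e1 : L w \ (nb G {a} w).image (fun _ => c) = L w := by
      rw [Finset.sdiff_eq_self_iff_disjoint, Finset.disjoint_left]
      intro t ht ht'
      rw [Finset.mem_image] at ht'
      obtain ⟨_, _, rfl⟩ := ht'
      exact hcw ht
    have e2 := (h1 V G).2.2.2.2 X {a} w (Finset.singleton_subset_iff.mpr ha.1)
    have e3 : 1 ≤ dg G {a} w := e4_dg_pos (Finset.mem_singleton_self a) haw.symm
    have e4 := hL w hw.1
    show dg G (X \ {a}) w < (L w \ (nb G {a} w).image fun _ => c).card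
    rw [e1]
    omega

/-- a 2-regular set of a graph of girth at least five has at least five elements -/
theorem e4_five {G : SimpleGraph V} {X : Finset V} (hG : G5 G) (hne : X.Nonempty)
    (h2 : ∀ x ∈ X, dg G X x = 2) : 5 ≤ X.card := by
  obtain ⟨x, hx⟩ := hne
  have hnb : ∀ x ∈ X, ∃ y z, y ≠ z ∧ nb G X x = {y, z} := by
    intro x hx
    have := h2 x hx
    unfold dg at this
    rw [Finset.card_eq_two] at this
    exact this
  have hoth : ∀ y ∈ X, ∀ x, G.Adj y x → ∃ z ∈ X, z ≠ x ∧ G.Adj y z := by
    intro y hy x hyx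
    obtain ⟨p, q, hpq, hnby⟩ := hnb y hy
    have hp : p ∈ nb G X y := by rw [hnby]; simp
    have hq : q ∈ nb G X y := by rw [hnby]; simp
    unfold nb at hp hq
    rw [Finset.mem_filter] at hp hq
    by_cases hpx : p = x
    · exact ⟨q, hq.1, fun h => hpq (hpx.trans h.symm), hq.2⟩
    · exact ⟨p, hp.1, hpx, hp.2⟩
  obtain ⟨y, z, hyz, hxyz⟩ := hnb x hx
  have hy : y ∈ nb G X x := by rw [hxyz]; simp
  have hz : z ∈ nb G X x := by rw [hxyz]; simp
  unfold nb at hy hz
  rw [Finset.mem_filter] at hy hz
  obtain ⟨y', hy', hy'x, hyy'⟩ := hoth y hy.1 x hy.2.symm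
  obtain ⟨z', hz', hz'x, hzz'⟩ := hoth z hz.1 x hz.2.symm
  have n1 : y' ≠ z := by
    rintro rfl
    exact hG.1 x y y' hy.2 hyy' hz.2.symm
  have n2 : z' ≠ y := by
    rintro rfl
    exact hG.1 x z z' hz.2 hzz' hy.2.symm
  have n3 : y' ≠ z' := by
    rintro rfl
    exact hG.2 x y y' z hy'x.symm hyz hy.2 hyy' hzz'.symm hz.2.symm
  have hsub : ({x, y, z, y', z'} : Finset V) ⊆ X := by
    intro t ht
    simp only [Finset.mem_insert, Finset.mem_singleton] at ht
    rcases ht with rfl | rfl | rfl | rfl | rfl
    · exact hx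
    · exact hy.1
    · exact hz.1
    · exact hy'
    · exact hz'
  have hcard : ({x, y, z, y', z'} : Finset V).card = 5 := by
    rw [Finset.card_insert_of_notMem, Finset.card_insert_of_notMem, Finset.card_insert_of_notMem,
      Finset.card_insert_of_notMem, Finset.card_singleton]
    · rw [Finset.mem_singleton]
      exact n3
    · simp only [Finset.mem_insert, Finset.mem_singleton, not_or]
      exact ⟨n1.symm, hzz'.ne⟩
    · simp only [Finset.mem_insert, Finset.mem_singleton, not_or]
      exact ⟨hyz, hyy'.ne, n2.symm⟩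
    · simp only [Finset.mem_insert, Finset.mem_singleton, not_or]
      exact ⟨hy.2.ne, hz.2.ne, hy'x.symm, hz'x.symm⟩
  rw [← hcard]
  exact Finset.card_le_card hsub

theorem thE (h1 : SBas.{u}) (_h2 : SCrit.{u, v}) (h3 : SExt.{u, v}) (h4 : SSurp.{u, v}) :
    SThE.{u, v} := by
  intro V C _ G L X hG hX hd hL hcol
  have key : ∀ n : ℕ, ∀ (L : V → Finset C) (X : Finset V), X.card = n → Cn G X →
      (∀ x ∈ X, dg G X x ≤ 3) → (∀ x ∈ X, dg G X x ≤ (L x).card) → ¬ Col G L X →
      5 * e2 G X + 10 ≤ 12 * X.card := by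
    intro n
    induction n using Nat.strong_induction_on with
    | _ n ih =>
      intro L X hXn hX hd hL hcol
      have ih' : ∀ (L' : V → Finset C) (Y : Finset V), Y.card < X.card → Cn G Y →
          (∀ x ∈ Y, dg G Y x ≤ 3) → (∀ x ∈ Y, dg G Y x ≤ (L' x).card) → ¬ Col G L' Y →
          5 * e2 G Y + 10 ≤ 12 * Y.card :=
        fun L' Y hY => ih Y.card (hXn ▸ hY) L' Y rfl
      by_cases hbr : ∃ A ⊆ X, A.Nonempty ∧ A ≠ X ∧ ∑ x ∈ A, dg G (X \ A) x = 1
      · obtain ⟨A, hA, hne, hAX, hs⟩ := hbr
        exact e4_bridge h1 h3 h4 hX hd hL hcol ih' hA hne hAX hs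
      have hnb : ∀ A ⊆ X, A.Nonempty → A ≠ X → ∑ x ∈ A, dg G (X \ A) x ≠ 1 :=
        fun A hA hne hAX hs => hbr ⟨A, hA, hne, hAX, hs⟩
      have hL' : ∀ x ∈ X, dg G X x = (L x).card := by
        intro x hx
        by_contra hne
        exact hcol (h4 V C G L X hX hL ⟨x, hx, lt_of_le_of_ne (hL x hx) hne⟩)
      obtain ⟨x0, hx0⟩ := hX.1
      rcases Nat.lt_or_ge X.card 2 with hn | hn
      · have hc1 : X.card = 1 := by
          have := Finset.card_pos.mpr hX.1
          omega
        obtain ⟨a, rfl⟩ := Finset.card_eq_one.mp hc1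
        have : e2 G {a} = 0 := by
          unfold e2
          rw [Finset.sum_singleton]
          apply e4_dg_zero
          intro y hy
          rw [Finset.mem_singleton] at hy
          subst hy
          exact G.loopless.irrefl y
        rw [this, hc1]
        norm_num
      obtain ⟨d, hreg⟩ := e4_reg h1 h3 h4 hX hd hL' hcol hn hnb
      have he2 : e2 G X = X.card * d := by
        unfold e2
        rw [Finset.sum_congr rfl hreg, Finset.sum_const, smul_eq_mul]
      have hd3 : d ≤ 3 := hreg x0 hx0 ▸ hd x0 hx0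
      have hsing : ({x0} : Finset V) ⊆ X := Finset.singleton_subset_iff.mpr hx0
      have hsne : ({x0} : Finset V) ≠ X := by
        intro h
        rw [← h, Finset.card_singleton] at hn
        omega
      have hx0d := (h1 V G).2.2.2.2 X {x0} x0 hsing
      have hz : dg G {x0} x0 = 0 := by
        apply e4_dg_zero
        intro y hy
        rw [Finset.mem_singleton] at hy
        subst hy
        exact G.loopless.irrefl y
      rw [hz, hreg x0 hx0, zero_add] at hx0d
      interval_cases d
      · obtain ⟨a, ha, b, hb, hab⟩ := hX.2 {x0} hsing (Finset.singleton_nonempty x0) hsne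
        rw [Finset.mem_singleton] at ha
        subst ha
        have := e4_dg_pos hb hab
        omega
      · exfalso
        apply hnb {x0} hsing (Finset.singleton_nonempty x0) hsne
        rw [Finset.sum_singleton]
        exact hx0d.symm
      · have := e4_five hG hX.1 hreg
        rw [he2]
        omega
      · obtain ⟨c, hc⟩ : (L x0).Nonempty := by
          rw [← Finset.card_pos, ← hL' x0 hx0, hreg x0 hx0]
          norm_num
        obtain ⟨r1, r2⟩ := e4_one h1 h3 hx0 hL hcol hc
        have hlt : (X \ {x0}).card < X.card := by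
          rw [Finset.card_sdiff_of_subset hsing, Finset.card_singleton]
          omega
        have hres := ih' _ (X \ {x0}) hlt (e4_erase h1 hX hd hn hnb hx0)
          (fun x hx => (e4_dg_le h1 Finset.sdiff_subset x).trans
            (hd x (Finset.sdiff_subset hx))) r1 r2
        have hspl := (h1 V G).2.2.1 X {x0} hsing
        have he0 : e2 G {x0} = 0 := by
          unfold e2
          rw [Finset.sum_singleton]
          exact hz
        rw [Finset.sum_singleton, he0, ← hx0d, he2] at hspl
        have hcd : (X \ {x0}).card = X.card - 1 := by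
          rw [Finset.card_sdiff_of_subset hsing, Finset.card_singleton]
        rw [hcd] at hres
        have hfour : 4 ≤ X.card := by
          have e1 : (nb G X x0).card = 3 := hreg x0 hx0
          have e2 : nb G X x0 ⊆ X \ {x0} := by
            intro y hy
            unfold nb at hy
            rw [Finset.mem_filter] at hy
            rw [Finset.mem_sdiff, Finset.mem_singleton]
            exact ⟨hy.1, hy.2.ne'⟩
          have := Finset.card_le_card e2
          omega
        omega
  exact key X.card L X rfl hX hd hL hcol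

end Pool.Agent.FX
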