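import Pool.Agent.FX.Stm

/-!
# MP_07b392_co, project FX, row C5: Theorem E for a critical set
-/

set_option autoImplicit false

namespace Pool.Agent.FX

open Classical

universe u v

/-- more neighbours in a larger set -/
theorem thE2_dg_mono {V : Type u} (G : SimpleGraph V) {X Y : Finset V} (h : X ⊆ Y) (x : V) :
    dg G X x ≤ dg G Y x :=
  Finset.card_le_card (Finset.filter_subset_filter _ h)

/-- a set that is not connected splits -/
theorem thE2_split {V : Type u} (G : SimpleGraph V) {W : Finset V} (hne : W.Nonempty)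
    (h : ¬ Cn G W) : ∃ A ⊆ W, A.Nonempty ∧ A ≠ W ∧ ∀ a ∈ A, ∀ b ∈ W \ A, ¬ G.Adj a b := by
  by_contra hc
  apply h
  refine ⟨hne, fun A hA hAne hAW => ?_⟩
  by_contra hab
  apply hc
  refine ⟨A, hA, hAne, hAW, fun a ha b hb hadj => ?_⟩
  exact hab ⟨a, ha, b, hb, hadj⟩

/-- the number of edges of a split set -/
theorem thE2_e2 (h1 : SBas.{u}) {V : Type u} (G : SimpleGraph V) {W A : Finset V} (hA : A ⊆ W)
    (hab : ∀ a ∈ A, ∀ b ∈ W \ A, ¬ G.Adj a b) : e2 G W = e2 G A + e2 G (W \ A) := by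
  have h := (h1 V G).2.2.1 W A hA
  have h0 : ∑ x ∈ A, dg G (W \ A) x = 0 := by
    apply Finset.sum_eq_zero
    intro x hx
    unfold dg nb
    rw [Finset.card_eq_zero, Finset.filter_eq_empty_iff]
    intro y hy
    exact hab x hx y hy
  omega

/-- the connected case -/
theorem thE2_conn (h1 : SBas.{u}) (h2 : SCrit.{u, v}) (h3 : SExt.{u, v}) (h4 : SThE.{u, v})
    (V : Type u) (C : Type v) [Nonempty C] (G : SimpleGraph V) (L : V → Finset C) (Y : Finset V)
    (hG : G5 G) (hY : Cr G L Y) (hL : ∀ x ∈ Y, (L x).card ≤ 3) (W : Finset V) (hWY : W ⊆ Y)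
    (hW : ∀ x ∈ W, dg G Y x = (L x).card) (hC : Cn G W) : 5 * e2 G W + 10 ≤ 12 * W.card := by
  have hne : Y \ W ≠ Y := by
    intro he
    obtain ⟨x, hx⟩ := hC.1
    have : x ∈ Y \ W := by rw [he]; exact hWY hx
    exact (Finset.mem_sdiff.1 this).2 hx
  obtain ⟨φ, hφ1, hφ2⟩ := ((h2 V C G L).2.2 Y hY).2.2.2 (Y \ W) Finset.sdiff_subset hne
  have hdis : Disjoint (Y \ W) W := Finset.sdiff_disjoint
  have hE := h3 V C G L (Y \ W) W φ hdis hφ1 hφ2
  have hun : (Y \ W) ∪ W = Y := Finset.sdiff_union_of_subset hWY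
  apply h4 V C G (fun x => L x \ (nb G (Y \ W) x).image φ) W hG hC
  · intro x hx
    have a1 := thE2_dg_mono G hWY x
    have a2 := hW x hx
    have a3 := hL x (hWY hx)
    omega
  · intro x hx
    have a1 := hE.2 x
    have a2 := hW x hx
    have a3 := (h1 V G).2.2.2.2 Y W x hWY
    show dg G W x ≤ (L x \ (nb G (Y \ W) x).image φ).card
    omega
  · intro hc
    have := hE.1 hc
    rw [hun] at this
    exact hY.1 this

/-- Theorem E for all nonempty sets of full vertices -/
theorem thE2_all (h1 : SBas.{u}) (h2 : SCrit.{u, v}) (h3 : SExt.{u, v}) (h4 : SThE.{u, v})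
    (V : Type u) (C : Type v) [Nonempty C] (G : SimpleGraph V) (L : V → Finset C) (Y : Finset V)
    (hG : G5 G) (hY : Cr G L Y) (hL : ∀ x ∈ Y, (L x).card ≤ 3) :
    ∀ (n : ℕ) (W : Finset V), W.card ≤ n → W ⊆ Y → (∀ x ∈ W, dg G Y x = (L x).card) →
      W.Nonempty → 5 * e2 G W + 10 ≤ 12 * W.card := by
  intro n
  induction n with
  | zero =>
    intro W hc _ _ hne
    have := Finset.card_pos.2 hne
    omega
  | succ n ih =>
    intro W hc hWY hW hne
    by_cases hC : Cn G W
    · exact thE2_conn h1 h2 h3 h4 V C G L Y hG hY hL W hWY hW hC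
    · obtain ⟨A, hA, hAne, hAW, hab⟩ := thE2_split G hne hC
      have hBne : (W \ A).Nonempty := by
        rw [Finset.sdiff_nonempty]
        intro hs
        exact hAW (Finset.Subset.antisymm hA hs)
      have hcard : (W \ A).card + A.card = W.card := Finset.card_sdiff_add_card_eq_card hA
      have hA1 := Finset.card_pos.2 hAne
      have hB1 := Finset.card_pos.2 hBne
      have e := thE2_e2 h1 G hA hab
      have i1 := ih A (by omega) (hA.trans hWY) (fun x hx => hW x (hA hx)) hAne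
      have i2 := ih (W \ A) (by omega) (Finset.sdiff_subset.trans hWY)
        (fun x hx => hW x (Finset.sdiff_subset hx)) hBne
      omega

/-- C5: Theorem E for a critical set -/
theorem thE2 (h1 : SBas.{u}) (h2 : SCrit.{u, v}) (h3 : SExt.{u, v}) (h4 : SThE.{u, v}) :
    SThE2.{u, v} := by
  intro V C _ G L Y hG hY hL Y0 hY0 hne
  subst hY0
  exact thE2_all h1 h2 h3 h4 V C G L Y hG hY hL _ _ le_rfl (Finset.filter_subset _ _)
    (fun x hx => (Finset.mem_filter.1 hx).2) hne

end Pool.Agent.FX
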