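import Pool.Agent.FX.Stm

/-!
# MP_07b392_co, project FX, row C4, part a: bridges and removal of a vertex
-/

set_option autoImplicit false

namespace Pool.Agent.FX

open Classical

universe u v

variable {V : Type u} {C : Type v}

theorem e4_dg_pos {G : SimpleGraph V} {X : Finset V} {x y : V} (hy : y ∈ X) (h : G.Adj x y) :
    1 ≤ dg G X x := by
  unfold dg nb
  exact Finset.card_pos.mpr ⟨y, Finset.mem_filter.mpr ⟨hy, h⟩⟩

theorem e4_dg_zero {G : SimpleGraph V} {X : Finset V} {x : V} (h : ∀ y ∈ X, ¬ G.Adj x y) :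
    dg G X x = 0 := by
  unfold dg nb
  rw [Finset.card_eq_zero, Finset.filter_eq_empty_iff]
  intro y hy
  exact h y hy

/-- a side of a bridge is connected -/
theorem e4_side {G : SimpleGraph V} {X A : Finset V} (hX : Cn G X) (hA : A ⊆ X)
    (hne : A.Nonempty) (hAX : A ≠ X) (hs : ∑ x ∈ A, dg G (X \ A) x = 1) : Cn G A := by
  refine ⟨hne, fun A' hA' hne' hA'A => ?_⟩
  by_contra hcon
  push Not at hcon
  obtain ⟨a, ha, b, hb, hab⟩ := hX.2 A' (hA'.trans hA) hne'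
    (fun h => hAX (Finset.Subset.antisymm hA (h ▸ hA')))
  have hb' : b ∈ X \ A := by
    rw [Finset.mem_sdiff] at hb ⊢
    exact ⟨hb.1, fun hbA => hcon a ha b (Finset.mem_sdiff.mpr ⟨hbA, hb.2⟩) hab⟩
  have hne2 : (A \ A').Nonempty := by
    rw [Finset.sdiff_nonempty]
    exact fun h => hA'A (Finset.Subset.antisymm hA' h)
  have hprop : A \ A' ≠ X := by
    intro h
    apply hAX
    apply Finset.Subset.antisymm hA
    rw [← h]
    exact Finset.sdiff_subset
  obtain ⟨c, hc, d, hd, hcd⟩ := hX.2 (A \ A') (Finset.sdiff_subset.trans hA) hne2 hprop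
  have hd' : d ∈ X \ A := by
    rw [Finset.mem_sdiff] at hd ⊢
    refine ⟨hd.1, fun hdA => ?_⟩
    have hdA' : d ∈ A' := by
      by_contra h
      exact hd.2 (Finset.mem_sdiff.mpr ⟨hdA, h⟩)
    exact hcon d hdA' c hc hcd.symm
  have hac : a ≠ c := fun h => (Finset.mem_sdiff.mp hc).2 (h ▸ ha)
  have h1 := e4_dg_pos hb' hab
  have h2 := e4_dg_pos hd' hcd
  have h3 : ∑ x ∈ ({a, c} : Finset V), dg G (X \ A) x ≤ ∑ x ∈ A, dg G (X \ A) x := by
    apply Finset.sum_le_sum_of_subset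
    intro z hz
    rw [Finset.mem_insert, Finset.mem_singleton] at hz
    rcases hz with rfl | rfl
    · exact hA' ha
    · exact (Finset.mem_sdiff.mp hc).1
  rw [Finset.sum_pair hac] at h3
  omega

/-- the other side of a bridge -/
theorem e4_other (h1 : SBas.{u}) {G : SimpleGraph V} {X A : Finset V} (hA : A ⊆ X)
    (hne : A.Nonempty) (hAX : A ≠ X) (hs : ∑ x ∈ A, dg G (X \ A) x = 1) :
    X \ A ⊆ X ∧ (X \ A).Nonempty ∧ X \ A ≠ X ∧
      ∑ x ∈ X \ A, dg G (X \ (X \ A)) x = 1 := by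
  refine ⟨Finset.sdiff_subset, ?_, ?_, ?_⟩
  · rw [Finset.sdiff_nonempty]
    exact fun h => hAX (Finset.Subset.antisymm hA h)
  · intro h
    obtain ⟨a, ha⟩ := hne
    have : a ∈ X \ A := by
      rw [h]
      exact hA ha
    exact (Finset.mem_sdiff.mp this).2 ha
  · rw [Finset.sdiff_sdiff_eq_self hA, ← (h1 V G).2.2.2.1 X A hA]
    exact hs

/-- reduced lists -/
theorem e4_red (h1 : SBas.{u}) (h3 : SExt.{u, v}) [Nonempty C] {G : SimpleGraph V}
    {L : V → Finset C} {X A : Finset V} (hA : A ⊆ X)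
    (hL : ∀ x ∈ X, dg G X x ≤ (L x).card) (hcol : ¬ Col G L X) (φ : V → C)
    (hφ : ∀ x ∈ A, φ x ∈ L x) (hφ2 : ∀ x ∈ A, ∀ y ∈ A, G.Adj x y → φ x ≠ φ y) :
    (∀ y ∈ X \ A, dg G (X \ A) y ≤ (L y \ (nb G A y).image φ).card) ∧
      ¬ Col G (fun x => L x \ (nb G A x).image φ) (X \ A) := by
  have hE := h3 V C G L A (X \ A) φ Finset.disjoint_sdiff hφ hφ2
  refine ⟨fun y hy => ?_, fun h => hcol ?_⟩
  · have e1 := hE.2 y
    have e2 := hL y (Finset.mem_sdiff.mp hy).1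
    have e3 := (h1 V G).2.2.2.2 X A y hA
    omega
  · have := hE.1 h
    rwa [Finset.union_sdiff_of_subset hA] at this

/-- degrees in a subset -/
theorem e4_dg_le (h1 : SBas.{u}) {G : SimpleGraph V} {X A : Finset V} (hA : A ⊆ X) (x : V) :
    dg G A x ≤ dg G X x := by
  have := (h1 V G).2.2.2.2 X A x hA
  omega

/-- the bound for the complement of one side of a bridge, by induction -/
theorem e4_half (h1 : SBas.{u}) (h3 : SExt.{u, v}) (h4 : SSurp.{u, v}) [Nonempty C]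
    {G : SimpleGraph V} {L : V → Finset C} {X A : Finset V} (hX : Cn G X)
    (hd : ∀ x ∈ X, dg G X x ≤ 3) (hL : ∀ x ∈ X, dg G X x ≤ (L x).card) (hcol : ¬ Col G L X)
    (ih : ∀ (L' : V → Finset C) (Y : Finset V), Y.card < X.card → Cn G Y →
      (∀ x ∈ Y, dg G Y x ≤ 3) → (∀ x ∈ Y, dg G Y x ≤ (L' x).card) → ¬ Col G L' Y →
      5 * e2 G Y + 10 ≤ 12 * Y.card)
    (hA : A ⊆ X) (hne : A.Nonempty) (hAX : A ≠ X) (hs : ∑ x ∈ A, dg G (X \ A) x = 1) :
    5 * e2 G (X \ A) + 10 ≤ 12 * (X \ A).card := by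
  obtain ⟨hB, hneB, hBX, hsB⟩ := e4_other h1 hA hne hAX hs
  have cA := e4_side hX hA hne hAX hs
  have cB := e4_side hX hB hneB hBX hsB
  have hex : ∃ x ∈ A, dg G A x < (L x).card := by
    by_contra hcon
    push Not at hcon
    have hz : ∑ x ∈ A, dg G (X \ A) x = 0 := by
      apply Finset.sum_eq_zero
      intro x hx
      have e1 := hcon x hx
      have e2 := hL x (hA hx)
      have e3 := (h1 V G).2.2.2.2 X A x hA
      omega
    omega
  obtain ⟨φ, hφ1, hφ2⟩ := h4 V C G L A cA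
    (fun x hx => (e4_dg_le h1 hA x).trans (hL x (hA hx))) hex
  obtain ⟨r1, r2⟩ := e4_red h1 h3 hA hL hcol φ hφ1 hφ2
  refine ih _ (X \ A) ?_ cB (fun x hx => (e4_dg_le h1 hB x).trans (hd x (hB hx))) r1 r2
  apply Finset.card_lt_card
  rw [Finset.ssubset_iff_subset_ne]
  exact ⟨hB, hBX⟩

/-- the case of a bridge -/
theorem e4_bridge (h1 : SBas.{u}) (h3 : SExt.{u, v}) (h4 : SSurp.{u, v}) [Nonempty C]
    {G : SimpleGraph V} {L : V → Finset C} {X A : Finset V} (hX : Cn G X)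
    (hd : ∀ x ∈ X, dg G X x ≤ 3) (hL : ∀ x ∈ X, dg G X x ≤ (L x).card) (hcol : ¬ Col G L X)
    (ih : ∀ (L' : V → Finset C) (Y : Finset V), Y.card < X.card → Cn G Y →
      (∀ x ∈ Y, dg G Y x ≤ 3) → (∀ x ∈ Y, dg G Y x ≤ (L' x).card) → ¬ Col G L' Y →
      5 * e2 G Y + 10 ≤ 12 * Y.card)
    (hA : A ⊆ X) (hne : A.Nonempty) (hAX : A ≠ X) (hs : ∑ x ∈ A, dg G (X \ A) x = 1) :
    5 * e2 G X + 10 ≤ 12 * X.card := by
  obtain ⟨hB, hneB, hBX, hsB⟩ := e4_other h1 hA hne hAX hs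
  have b1 := e4_half h1 h3 h4 hX hd hL hcol ih hA hne hAX hs
  have b2 := e4_half h1 h3 h4 hX hd hL hcol ih hB hneB hBX hsB
  rw [Finset.sdiff_sdiff_eq_self hA] at b2
  have e := (h1 V G).2.2.1 X A hA
  have c := Finset.card_sdiff_add_card_eq_card hA
  omega

/-- a part that is attached to `x` only -/
theorem e4_att (h1 : SBas.{u}) {G : SimpleGraph V} {X A : Finset V} {x : V} (hx : x ∈ X)
    (hA : A ⊆ X) (hxA : x ∉ A) (hno : ∀ a ∈ A, ∀ b ∈ X, b ≠ x → b ∉ A → ¬ G.Adj a b)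
    (h : dg G A x = 1) : ∑ a ∈ A, dg G (X \ A) a = 1 := by
  rw [(h1 V G).2.2.2.1 X A hA, Finset.sum_eq_single x, h]
  · intro b hb hbx
    rw [Finset.mem_sdiff] at hb
    exact e4_dg_zero fun y hy hby => hno y hy b hb.1 hbx hb.2 hby.symm
  · intro h
    exact absurd (Finset.mem_sdiff.mpr ⟨hx, hxA⟩) h

/-- without bridges every vertex can be removed -/
theorem e4_erase (h1 : SBas.{u}) {G : SimpleGraph V} {X : Finset V} (hX : Cn G X)
    (hd : ∀ x ∈ X, dg G X x ≤ 3) (hn : 2 ≤ X.card)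
    (hnb : ∀ A ⊆ X, A.Nonempty → A ≠ X → ∑ x ∈ A, dg G (X \ A) x ≠ 1) {x : V} (hx : x ∈ X) :
    Cn G (X \ {x}) := by
  constructor
  · rw [Finset.sdiff_nonempty]
    intro h
    have := Finset.card_le_card h
    rw [Finset.card_singleton] at this
    omega
  intro A hA hne hAne
  by_contra hcon
  push Not at hcon
  have hAX : A ⊆ X := hA.trans Finset.sdiff_subset
  have hxA : x ∉ A := fun h => (Finset.mem_sdiff.mp (hA h)).2 (Finset.mem_singleton_self x)
  have hA1 : A ≠ X := fun h => hxA (h ▸ hx)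
  obtain ⟨a, ha, b, hb, hab⟩ := hX.2 A hAX hne hA1
  rw [Finset.mem_sdiff] at hb
  have hbx : b = x := by
    by_contra hne'
    refine hcon a ha b ?_ hab
    rw [Finset.mem_sdiff, Finset.mem_sdiff, Finset.mem_singleton]
    exact ⟨⟨hb.1, hne'⟩, hb.2⟩
  subst hbx
  have hBne : ((X \ {b}) \ A).Nonempty := by
    rw [Finset.sdiff_nonempty]
    exact fun h => hAne (Finset.Subset.antisymm hA h)
  have hBX : (X \ {b}) \ A ⊆ X := Finset.sdiff_subset.trans Finset.sdiff_subset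
  have hbB : b ∉ (X \ {b}) \ A := by
    intro h
    rw [Finset.mem_sdiff, Finset.mem_sdiff, Finset.mem_singleton] at h
    exact h.1.2 rfl
  have hB1 : (X \ {b}) \ A ≠ X := by
    intro h
    apply hbB
    rw [h]
    exact hx
  obtain ⟨c, hc, d, hd', hcd⟩ := hX.2 _ hBX hBne hB1
  rw [Finset.mem_sdiff] at hd'
  have hdb : d = b := by
    by_contra hne'
    have hdA : d ∈ A := by
      by_contra h
      apply hd'.2
      rw [Finset.mem_sdiff, Finset.mem_sdiff, Finset.mem_singleton]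
      exact ⟨⟨hd'.1, hne'⟩, h⟩
    exact hcon d hdA c hc hcd.symm
  subst hdb
  have p1 : 1 ≤ dg G A d := e4_dg_pos ha hab.symm
  have p2 : 1 ≤ dg G ((X \ {d}) \ A) d := e4_dg_pos hc hcd.symm
  have p3 := (h1 V G).2.2.2.2 X A d hAX
  have p4 : dg G ((X \ {d}) \ A) d ≤ dg G (X \ A) d :=
    e4_dg_le h1 (Finset.sdiff_subset_sdiff Finset.sdiff_subset (Finset.Subset.refl A)) d
  have p5 := hd d hx
  have hor : dg G A d = 1 ∨ dg G ((X \ {d}) \ A) d = 1 := by omega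
  rcases hor with h | h
  · refine hnb A hAX hne hA1 (e4_att h1 hx hAX hxA ?_ h)
    intro a ha b hb hbd hbA
    refine hcon a ha b ?_
    rw [Finset.mem_sdiff, Finset.mem_sdiff, Finset.mem_singleton]
    exact ⟨⟨hb, hbd⟩, hbA⟩
  · refine hnb _ hBX hBne hB1 (e4_att h1 hx hBX hbB ?_ h)
    intro a ha b hb hbd hbB hab'
    have hbA : b ∈ A := by
      by_contra hbA
      apply hbB
      rw [Finset.mem_sdiff, Finset.mem_sdiff, Finset.mem_singleton]
      exact ⟨⟨hb, hbd⟩, hbA⟩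
    exact hcon b hbA a ha hab'.symm

end Pool.Agent.FX
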